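import Pool.Agent.U759.PV.Asm
import Pool.Agent.R516.MSE

/-!
Final forms: a small set of further integers, the hypotheses in terms of `N`, the intervals `[N, 2N]` and `[1, N]`.
-/

set_option autoImplicit false

namespace Pool.Agent.U759.PV

open Finset
open Pool.Agent.TH705.DL (ph ph_norm Sep)
open Pool.Agent.R516.MS (lift sq_le pow_le)

/-- the mean value with up to `(2M)^(1/2)` further integers in the support -/
theorem mainE (A μ ω : ℝ) (K : ℕ) (hA : 1 ≤ A) (hμ : 0 < μ) (hμ1 : μ ≤ 1) (hω : 0 < ω) (hK : 1 ≤ K) :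
    ∃ c C : ℝ, 0 < c ∧ c ≤ 1 / 4 ∧ 1 ≤ C ∧ ∀ (M : ℕ) (J : Finset ℕ) (L : ℕ → ℕ) (f : ℕ → ℕ → ℕ) (E : Finset ℕ),
      1 ≤ M → Pols M μ ω K J L f → ∑ j ∈ J, (L j : ℝ) ≤ 2 * (M : ℝ) ^ (1 / 2 + c) → (E.card : ℝ) ^ 2 ≤ 2 * M →
      ∀ (T x : ℝ) (W : Finset ℝ) (b : ℕ → ℂ),
      T ≤ (2 * M : ℝ) ^ A → Sep W → (∀ t ∈ W, x ≤ t ∧ t ≤ x + T) →
      (∀ n ∈ Icc M (2 * M), b n ≠ 0 → n ∈ E ∨ Val J L f n) → (∀ n, ‖b n‖ ≤ 1) →
      ∑ t ∈ W, ‖∑ n ∈ Icc M (2 * M), b n * ph t n‖ ^ 2 ≤ C * ((M : ℝ) + W.card) * M := by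
  classical
  obtain ⟨c, C, hc0, hc1, hC, h⟩ := main A μ ω K hA hμ hμ1 hω hK
  refine ⟨c, 2 * C + 4, hc0, hc1, by linarith, ?_⟩
  intro M J L f E hM hB hSm hE T x W b hT hW hWT hs hb
  have hM1 : (1 : ℝ) ≤ M := by exact_mod_cast hM
  set b1 : ℕ → ℂ := fun n => if n ∈ E then 0 else b n with hb1
  set b2 : ℕ → ℂ := fun n => if n ∈ E then b n else 0 with hb2
  have hb12 : ∀ n, b n = b1 n + b2 n := by
    intro n
    simp only [hb1, hb2]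
    split_ifs <;> simp
  have hbn1 : ∀ n, ‖b1 n‖ ≤ 1 := by
    intro n
    simp only [hb1]
    split_ifs
    · simp
    · exact hb n
  have h1 := (h M J L f hM hB hSm T x W b1 hT hW hWT (by
    intro n hn hne
    simp only [hb1] at hne
    split_ifs at hne with hnE
    · exact absurd rfl hne
    · rcases hs n hn hne with h1 | h1
      · exact absurd h1 hnE
      · exact h1)).2 hbn1
  have h2 : ∀ t : ℝ, ‖∑ n ∈ Icc M (2 * M), b2 n * ph t n‖ ^ 2 ≤ 2 * M := by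
    intro t
    have h3 : ‖∑ n ∈ Icc M (2 * M), b2 n * ph t n‖ ≤ E.card := by
      calc ‖∑ n ∈ Icc M (2 * M), b2 n * ph t n‖ ≤ ∑ n ∈ Icc M (2 * M), ‖b2 n * ph t n‖ := norm_sum_le _ _
        _ ≤ ∑ n ∈ Icc M (2 * M), (if n ∈ E then (1 : ℝ) else 0) := by
            apply sum_le_sum
            intro n _
            rw [norm_mul, ph_norm, mul_one]
            simp only [hb2]
            split_ifs
            · exact hb n
            · simp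
        _ = (((Icc M (2 * M)).filter (fun n => n ∈ E)).card : ℝ) := by
            rw [← sum_filter]; simp
        _ ≤ E.card := by
            have : (Icc M (2 * M)).filter (fun n => n ∈ E) ⊆ E := fun n hn => (mem_filter.1 hn).2
            exact_mod_cast card_le_card this
    exact (pow_le_pow_left₀ (norm_nonneg _) h3 2).trans hE
  have h3 : ∀ t : ℝ, ‖∑ n ∈ Icc M (2 * M), b n * ph t n‖ ^ 2 ≤
      2 * ‖∑ n ∈ Icc M (2 * M), b1 n * ph t n‖ ^ 2 + 2 * (2 * M) := by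
    intro t
    have e : ∑ n ∈ Icc M (2 * M), b n * ph t n =
        ∑ n ∈ Icc M (2 * M), b1 n * ph t n + ∑ n ∈ Icc M (2 * M), b2 n * ph t n := by
      rw [← sum_add_distrib]
      apply sum_congr rfl
      intro n _
      rw [hb12 n]; ring
    rw [e]
    have h4 := norm_add_le (∑ n ∈ Icc M (2 * M), b1 n * ph t n) (∑ n ∈ Icc M (2 * M), b2 n * ph t n)
    have h5 := h2 t
    set u := ‖∑ n ∈ Icc M (2 * M), b1 n * ph t n‖ with hu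
    set v := ‖∑ n ∈ Icc M (2 * M), b2 n * ph t n‖ with hv
    have hu0 : 0 ≤ u := norm_nonneg _
    have hv0 : 0 ≤ v := norm_nonneg _
    have h6 : ‖∑ n ∈ Icc M (2 * M), b1 n * ph t n + ∑ n ∈ Icc M (2 * M), b2 n * ph t n‖ ^ 2 ≤ (u + v) ^ 2 :=
      pow_le_pow_left₀ (norm_nonneg _) h4 2
    nlinarith [sq_nonneg (u - v)]
  have h4 : ∑ t ∈ W, ‖∑ n ∈ Icc M (2 * M), b n * ph t n‖ ^ 2
      ≤ ∑ t ∈ W, (2 * ‖∑ n ∈ Icc M (2 * M), b1 n * ph t n‖ ^ 2 + 2 * (2 * M)) :=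
        sum_le_sum fun t _ => h3 t
  have h5 : ∑ t ∈ W, (2 * ‖∑ n ∈ Icc M (2 * M), b1 n * ph t n‖ ^ 2 + 2 * (2 * (M : ℝ))) =
      2 * ∑ t ∈ W, ‖∑ n ∈ Icc M (2 * M), b1 n * ph t n‖ ^ 2 + W.card * (2 * (2 * M)) := by
    have e1 : ∀ (r : ℝ) (G : ℝ → ℝ), ∑ t ∈ W, (2 * G t + r) = 2 * ∑ t ∈ W, G t + W.card * r := by
      intro r G
      rw [sum_add_distrib, ← mul_sum, sum_const, nsmul_eq_mul]
    exact e1 _ (fun t => ‖∑ n ∈ Icc M (2 * M), b1 n * ph t n‖ ^ 2)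
  rw [h5] at h4
  refine h4.trans ?_
  clear h4 h5
  have h6 : 0 ≤ (M : ℝ) * M := by positivity
  have h7 : 0 ≤ (W.card : ℝ) * M := mul_nonneg (Nat.cast_nonneg _) (Nat.cast_nonneg _)
  have h8 : (2 * C + 4) * ((M : ℝ) + W.card) * M =
      2 * (C * ((M : ℝ) + W.card) * M) + W.card * (2 * (2 * M)) + 4 * (M * M) := by ring
  rw [h8]
  linarith

theorem two {N M : ℕ} (hM : 1 ≤ M) (hMN : M ≤ N) (hNM : N ≤ 2 * M) (s : ℝ) (hs : 0 ≤ s) (hs1 : s ≤ 1) :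
    (N : ℝ) ^ s ≤ 2 * (M : ℝ) ^ s := by
  have hM1 : (1 : ℝ) ≤ M := by exact_mod_cast hM
  have hMN' : (M : ℝ) ≤ N := by exact_mod_cast hMN
  have hNM' : (N : ℝ) ≤ 2 * M := by exact_mod_cast hNM
  calc (N : ℝ) ^ s ≤ (2 * M : ℝ) ^ s := Real.rpow_le_rpow (by linarith) hNM' hs
    _ = 2 ^ s * (M : ℝ) ^ s := Real.mul_rpow (by norm_num) (by linarith)
    _ ≤ 2 * (M : ℝ) ^ s := by
        have : (2 : ℝ) ^ s ≤ 2 := by
          calc (2 : ℝ) ^ s ≤ 2 ^ (1 : ℝ) := Real.rpow_le_rpow_of_exponent_le (by norm_num) hs1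
            _ = 2 := Real.rpow_one _
        gcongr

/-- the mean value on `[N, 2N]` -/
theorem onTwo (A μ ω : ℝ) (K : ℕ) (hA : 1 ≤ A) (hμ : 0 < μ) (hμ1 : μ ≤ 1) (hω : 0 < ω) (hK : 1 ≤ K) :
    ∃ c C : ℝ, 0 < c ∧ 1 ≤ C ∧ ∀ (N : ℕ) (J : Finset ℕ) (L : ℕ → ℕ) (f : ℕ → ℕ → ℕ) (E : Finset ℕ), 1 ≤ N →
      (∀ j ∈ J, (N : ℝ) ^ μ ≤ L j ∧
        (∃ p : Polynomial ℝ, p.natDegree ≤ K ∧ ∀ x < L j, (f j x : ℝ) = p.eval (x : ℝ)) ∧
        (∀ x < L j, N ≤ f j x ∧ f j x ≤ 2 * N) ∧ ∃ x < L j, ∃ y < L j, ω * N ≤ (f j x : ℝ) - f j y) →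
      ∑ j ∈ J, (L j : ℝ) ≤ (N : ℝ) ^ (1 / 2 + c) →
      (E.card : ℝ) ≤ (N : ℝ) ^ (1 / 2 : ℝ) → ∀ (T : ℝ) (W : Finset ℝ) (b : ℕ → ℂ),
      T ≤ (N : ℝ) ^ A → Sep W → (∀ t ∈ W, 0 ≤ t ∧ t ≤ T) →
      (∀ n ∈ Icc N (2 * N), b n ≠ 0 → n ∈ E ∨ Val J L f n) → (∀ n, ‖b n‖ ≤ 1) →
      ∑ t ∈ W, ‖∑ n ∈ Icc N (2 * N), b n * ph t n‖ ^ 2 ≤ C * ((N : ℝ) + W.card) * N := by
  obtain ⟨c, C, hc0, hc1, hC, h⟩ := mainE A μ ω K hA hμ hμ1 hω hK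
  refine ⟨c, C, hc0, hC, ?_⟩
  intro N J L f E hN hB1 hB2 hE T W b hT hW hWT hs hb
  have hP : Pols N μ ω K J L f := by
    intro j hj
    obtain ⟨h1, h2, h3, h4⟩ := hB1 j hj
    refine ⟨?_, h2, h3, h4⟩
    have : (0 : ℝ) ≤ L j := Nat.cast_nonneg _
    linarith
  have h0 : 0 ≤ (N : ℝ) ^ (1 / 2 + c) := by positivity
  exact h N J L f E hN hP (by linarith) (sq_le E hE (by omega)) T 0 W b
    (pow_le hA (by omega) hT) hW (fun t ht => ⟨(hWT t ht).1, by linarith [(hWT t ht).2]⟩) hs hb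

/-- the mean value on `[1, N]`, for `[x, x + T]` -/
theorem onOne (A μ ω : ℝ) (K : ℕ) (hA : 1 ≤ A) (hμ : 0 < μ) (hμ1 : μ ≤ 1) (hω : 0 < ω) (hK : 1 ≤ K) :
    ∃ c C : ℝ, 0 < c ∧ 1 ≤ C ∧ ∀ (N : ℕ) (J : Finset ℕ) (L : ℕ → ℕ) (f : ℕ → ℕ → ℕ) (E : Finset ℕ), 1 ≤ N →
      (∀ j ∈ J, (N : ℝ) ^ μ ≤ L j ∧
        (∃ p : Polynomial ℝ, p.natDegree ≤ K ∧ ∀ x < L j, (f j x : ℝ) = p.eval (x : ℝ)) ∧
        (∀ x < L j, N ≤ 2 * f j x ∧ f j x ≤ N) ∧ ∃ x < L j, ∃ y < L j, ω * N ≤ (f j x : ℝ) - f j y) →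
      ∑ j ∈ J, (L j : ℝ) ≤ (N : ℝ) ^ (1 / 2 + c) →
      (E.card : ℝ) ≤ (N : ℝ) ^ (1 / 2 : ℝ) → ∀ (T x : ℝ) (W : Finset ℝ) (a : ℕ → ℂ),
      T ≤ (N : ℝ) ^ A → Sep W → (∀ t ∈ W, x ≤ t ∧ t ≤ x + T) →
      (∀ n ∈ Icc 1 N, a n ≠ 0 → N ≤ 2 * n ∧ (n ∈ E ∨ Val J L f n)) →
      ((∀ n, ‖a n‖ ≤ 1) →
        ∑ t ∈ W, ‖∑ n ∈ Icc 1 N, a n * ph t n‖ ^ 2 ≤ C * ((N : ℝ) + W.card) * N) ∧
      (E = ∅ → ∑ t ∈ W, ‖∑ n ∈ Icc 1 N, a n * ph t n‖ ^ 2 ≤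
        C * ((N : ℝ) ^ (3 / 2 - c) + W.card * (N : ℝ) ^ (1 / 2 - c)) * ∑ n ∈ Icc 1 N, ‖a n‖ ^ 2) := by
  classical
  obtain ⟨c1, C1, hc10, hc11, hC1, h1⟩ := mainE A μ ω K hA hμ hμ1 hω hK
  obtain ⟨c2, C2, hc20, hc21, hC2, h2⟩ := main A μ ω K hA hμ hμ1 hω hK
  have hc0 : 0 < min c1 c2 := lt_min hc10 hc20
  refine ⟨min c1 c2, max C1 C2, hc0, le_max_of_le_left hC1, ?_⟩
  intro N J L f E hN hB1 hB2 hE T x W a hT hW hWT hs
  set c := min c1 c2 with hc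
  have hcc1 : c ≤ c1 := min_le_left _ _
  have hcc2 : c ≤ c2 := min_le_right _ _
  set M := (N + 1) / 2 with hM
  have hM1 : 1 ≤ M := by omega
  have hMN : M ≤ N := by omega
  have hNM : N ≤ 2 * M := by omega
  have hMr : (1 : ℝ) ≤ M := by exact_mod_cast hM1
  have hMNr : (M : ℝ) ≤ N := by exact_mod_cast hMN
  have hP : Pols M μ ω K J L f := by
    intro j hj
    obtain ⟨h1, h2, h3, x0, hx0, y0, hy0, hxy⟩ := hB1 j hj
    refine ⟨?_, h2, ?_, x0, hx0, y0, hy0, ?_⟩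
    · have e1 : (M : ℝ) ^ μ ≤ (N : ℝ) ^ μ := Real.rpow_le_rpow (by linarith) hMNr hμ.le
      have : (0 : ℝ) ≤ L j := Nat.cast_nonneg _
      linarith
    · intro y hy
      have := h3 y hy
      omega
    · have : ω * M ≤ ω * N := mul_le_mul_of_nonneg_left hMNr hω.le
      linarith
  have hSm : ∀ c' : ℝ, c ≤ c' → ∑ j ∈ J, (L j : ℝ) ≤ 2 * (M : ℝ) ^ (1 / 2 + c') := by
    intro c' hc'
    calc ∑ j ∈ J, (L j : ℝ) ≤ (N : ℝ) ^ (1 / 2 + c) := hB2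
      _ ≤ 2 * (M : ℝ) ^ (1 / 2 + c) := two hM1 hMN hNM _ (by linarith) (by linarith)
      _ ≤ 2 * (M : ℝ) ^ (1 / 2 + c') := by
          have := Real.rpow_le_rpow_of_exponent_le hMr (show 1 / 2 + c ≤ 1 / 2 + c' by linarith)
          linarith
  set b : ℕ → ℂ := fun n => if n ≤ N then a n else 0 with hb
  have hbs : ∀ n ∈ Icc M (2 * M), b n ≠ 0 → n ∈ Icc 1 N ∧ a n ≠ 0 := by
    intro n hn hne
    simp only [hb] at hne
    split_ifs at hne with h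
    · rw [mem_Icc] at hn ⊢
      exact ⟨⟨by omega, h⟩, hne⟩
    · exact absurd rfl hne
  have hlift : ∀ t : ℝ, ∑ n ∈ Icc 1 N, a n * ph t n = ∑ n ∈ Icc M (2 * M), b n * ph t n := by
    intro t
    exact lift N hN a (fun n => ph t n) (fun n hn hne => (hs n hn hne).1)
  simp only [hlift]
  constructor
  · intro ha
    have h3 := h1 M J L f E hM1 hP (hSm c1 hcc1) (sq_le E hE hNM) T x W b (pow_le hA hNM hT) hW hWT (by
      intro n hn hne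
      obtain ⟨h4, h5⟩ := hbs n hn hne
      exact (hs n h4 h5).2) (by
      intro n
      simp only [hb]
      split_ifs
      · exact ha n
      · simp)
    refine h3.trans ?_
    have h5 : C1 ≤ max C1 C2 := le_max_left _ _
    have h6 : 0 ≤ C1 := by linarith
    gcongr
  · intro hEe
    have h3 := (h2 M J L f hM1 hP (hSm c2 hcc2) T x W b (pow_le hA hNM hT) hW hWT (by
      intro n hn hne
      obtain ⟨h4, h5⟩ := hbs n hn hne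
      rcases (hs n h4 h5).2 with h6 | h6
      · rw [hEe] at h6
        exact absurd h6 (notMem_empty n)
      · exact h6)).1
    refine h3.trans ?_
    have h5 : C2 ≤ max C1 C2 := le_max_right _ _
    have h6 : 0 ≤ C2 := by linarith
    have h7 : ∑ n ∈ Icc M (2 * M), ‖b n‖ ^ 2 ≤ ∑ n ∈ Icc 1 N, ‖a n‖ ^ 2 := by
      have e1 : ∑ n ∈ Icc M (2 * M), ‖b n‖ ^ 2 =
          ∑ n ∈ (Icc M (2 * M)).filter (fun n => n ≤ N), ‖a n‖ ^ 2 := by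
        rw [sum_filter]
        apply sum_congr rfl
        intro n _
        simp only [hb]
        split_ifs <;> simp
      rw [e1]
      apply sum_le_sum_of_subset_of_nonneg
      · intro n hn
        rw [mem_filter, mem_Icc] at hn
        rw [mem_Icc]
        omega
      · intros; positivity
    have h8 : (M : ℝ) ^ (3 / 2 - c2) ≤ (N : ℝ) ^ (3 / 2 - c) := by
      calc (M : ℝ) ^ (3 / 2 - c2) ≤ (M : ℝ) ^ (3 / 2 - c) := Real.rpow_le_rpow_of_exponent_le hMr (by linarith)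
        _ ≤ _ := Real.rpow_le_rpow (by linarith) hMNr (by linarith)
    have h9 : (M : ℝ) ^ (1 / 2 - c2) ≤ (N : ℝ) ^ (1 / 2 - c) := by
      calc (M : ℝ) ^ (1 / 2 - c2) ≤ (M : ℝ) ^ (1 / 2 - c) := Real.rpow_le_rpow_of_exponent_le hMr (by linarith)
        _ ≤ _ := Real.rpow_le_rpow (by linarith) hMNr (by linarith)
    have h10 : 0 ≤ ∑ n ∈ Icc M (2 * M), ‖b n‖ ^ 2 := sum_nonneg fun _ _ => by positivity
    gcongr

end Pool.Agent.U759.PV
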