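import Pool.Agent.U759.PV.Ker3
import Pool.Agent.U759.PV.Fin

/-!
Mean values for coefficients supported on the values of polynomials, at all scales.
-/

set_option autoImplicit false

namespace Pool.Agent.U759.PV

open Finset
open Pool.Agent.TH705.DL (ph ph_norm Sep)
open Pool.Agent.R327.SI (lg_pow)
open Pool.Agent.R516.MS (KW lsW)

/-- the hypotheses on the polynomials, for values in `[1, 2N]` -/
def Pols3 (N : ℕ) (μ ω : ℝ) (K : ℕ) (J : Finset ℕ) (L : ℕ → ℕ) (f : ℕ → ℕ → ℕ) : Prop :=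
  ∀ j ∈ J, (N : ℝ) ^ μ ≤ L j ∧ (∃ p : Polynomial ℝ, p.natDegree ≤ K ∧ ∀ x < L j, (f j x : ℝ) = p.eval (x : ℝ)) ∧
    (∀ x < L j, 1 ≤ f j x ∧ f j x ≤ 2 * N) ∧ (∀ x < L j, ∀ y < L j, f j x ≤ 2 * f j y) ∧
    ∃ x < L j, ∃ y < L j, (1 + ω) * (f j y : ℝ) ≤ f j x

theorem P_mem3 {N : ℕ} {μ ω : ℝ} {K : ℕ} {J : Finset ℕ} {L : ℕ → ℕ} {f : ℕ → ℕ → ℕ} (h : Pols3 N μ ω K J L f) {n : ℕ}
    (hn : n ∈ P J L f) : 1 ≤ n ∧ n ≤ 2 * N := by
  unfold P at hn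
  rw [mem_image] at hn
  obtain ⟨x, hx, rfl⟩ := hn
  have h1 := mem_Q hx
  exact (h _ h1.1).2.2.1 _ h1.2

theorem wt_le3 {N : ℕ} {μ ω : ℝ} {K : ℕ} {J : Finset ℕ} {L : ℕ → ℕ} {f : ℕ → ℕ → ℕ} (hω : 0 < ω)
    (h : Pols3 N μ ω K J L f) (n : ℕ) : wt J L f n ≤ J.card * K := by
  classical
  unfold wt
  have h1 : (Q J L).filter (fun x => nu f x = n) = J.sigma (fun j => (range (L j)).filter (fun x => f j x = n)) := by
    ext x
    rw [mem_filter, mem_sigma, mem_filter]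
    unfold Q nu
    rw [mem_sigma]
    tauto
  rw [h1, card_sigma]
  have h2 : ∑ j ∈ J, ((range (L j)).filter (fun x => f j x = n)).card ≤ J.card * K := by
    have := sum_le_card_nsmul J (fun j => ((range (L j)).filter (fun x => f j x = n)).card) K
      (fun j hj => by
        obtain ⟨_, ⟨p, hp, hpf⟩, hv, _, x0, hx0, y0, hy0, hxy⟩ := h j hj
        refine fib K (L j) p hp (f j) hpf ⟨x0, hx0, y0, hy0, fun he => ?_⟩ n
        rw [he] at hxy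
        have : (1 : ℝ) ≤ f j y0 := by exact_mod_cast (hv y0 hy0).1
        nlinarith)
    simpa using this
  exact_mod_cast h2

theorem supp3 {N : ℕ} {μ ω : ℝ} {K : ℕ} {J : Finset ℕ} {L : ℕ → ℕ} {f : ℕ → ℕ → ℕ} (h : Pols3 N μ ω K J L f)
    (F : ℕ → ℂ) (hf : ∀ n ∈ Icc 1 (2 * N), F n ≠ 0 → Val J L f n) :
    ∑ n ∈ Icc 1 (2 * N), F n = ∑ n ∈ P J L f, F n := by
  symm
  apply sum_subset
  · intro n hn
    rw [mem_Icc]
    exact P_mem3 h hn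
  · intro n hn hnP
    by_contra hne
    obtain ⟨j, hj, x, hx, rfl⟩ := hf n hn hne
    apply hnP
    unfold P
    rw [mem_image]
    refine ⟨⟨j, x⟩, ?_, rfl⟩
    unfold Q
    rw [mem_sigma, mem_range]
    exact ⟨hj, hx⟩

/-- **The mean value.** -/
theorem main3 (A μ ω : ℝ) (K : ℕ) (hA : 1 ≤ A) (hμ : 0 < μ) (hμ1 : μ ≤ 1) (hω : 0 < ω) (hK : 1 ≤ K) :
    ∃ c C : ℝ, 0 < c ∧ c ≤ 1 / 4 ∧ 1 ≤ C ∧ ∀ (N : ℕ) (J : Finset ℕ) (L : ℕ → ℕ) (f : ℕ → ℕ → ℕ), 1 ≤ N →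
      Pols3 N μ ω K J L f → ∑ j ∈ J, (L j : ℝ) ≤ 2 * (N : ℝ) ^ (1 / 2 + c) →
      ∀ (T x : ℝ) (W : Finset ℝ) (b : ℕ → ℂ), T ≤ (2 * N : ℝ) ^ A → Sep W →
      (∀ t ∈ W, x ≤ t ∧ t ≤ x + T) → (∀ n ∈ Icc 1 (2 * N), b n ≠ 0 → Val J L f n) → (∀ n, ‖b n‖ ≤ 1) →
        ∑ t ∈ W, ‖∑ n ∈ Icc 1 (2 * N), b n * ph t n‖ ^ 2 ≤ C * ((N : ℝ) + W.card) * N := by
  obtain ⟨δ, C0, hδ, hC0, hker⟩ := ker3 A μ ω K hA hμ hμ1 hω hK
  have hK' : (1 : ℝ) ≤ K := by exact_mod_cast hK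
  have hK0 : (0 : ℝ) < K := by linarith
  obtain ⟨C2, hC2, hlg⟩ := lg_pow 2 (μ / 8) (by norm_num) (by positivity)
  set c : ℝ := min (δ / 2) (μ / 16) with hc
  have hc0 : 0 < c := by rw [hc]; positivity
  have hc1 : c ≤ δ / 2 := min_le_left _ _
  have hc2 : c ≤ μ / 16 := min_le_right _ _
  set C : ℝ := 2 * (60 * K * C2 + 2 * C0) with hC
  have hC1 : 1 ≤ C := by
    have : 0 ≤ 60 * K * C2 := by positivity
    linarith
  refine ⟨c, C, hc0, by linarith, hC1, ?_⟩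
  intro N J L f hN hAdm hSm T x W b hT hW hWT hs hb
  have hN1 : (1 : ℝ) ≤ N := by exact_mod_cast hN
  have hN0 : (0 : ℝ) < N := by linarith
  -- the number of the pairs
  have hQe : ((Q J L).card : ℝ) = ∑ j ∈ J, (L j : ℝ) := by
    unfold Q
    rw [card_sigma]
    push_cast
    simp
  have hQ : ((Q J L).card : ℝ) ≤ 2 * (N : ℝ) ^ (1 / 2 + c) := by rw [hQe]; exact hSm
  have hL2 : ∀ j ∈ J, (L j : ℝ) ≤ 2 * (N : ℝ) ^ (3 / 4 : ℝ) := by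
    intro j hj
    have h1 : (L j : ℝ) ≤ ∑ j ∈ J, (L j : ℝ) := single_le_sum (f := fun j => (L j : ℝ)) (fun _ _ => by positivity) hj
    have h2 : (N : ℝ) ^ (1 / 2 + c) ≤ (N : ℝ) ^ (3 / 4 : ℝ) :=
      Real.rpow_le_rpow_of_exponent_le hN1 (by linarith)
    linarith
  -- the number of the polynomials
  have hBc : (J.card : ℝ) ≤ 4 * (N : ℝ) ^ (1 / 2 + c - μ) := by
    have h2 : J.card * ((N : ℝ) ^ μ) ≤ 2 * (N : ℝ) ^ (1 / 2 + c) := by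
      calc J.card * ((N : ℝ) ^ μ) = ∑ j ∈ J, (N : ℝ) ^ μ := by
            rw [sum_const, nsmul_eq_mul]
        _ ≤ ∑ j ∈ J, (L j : ℝ) := sum_le_sum fun j hj => (hAdm j hj).1
        _ ≤ _ := hSm
    have h3 : (N : ℝ) ^ (1 / 2 + c - μ) = (N : ℝ) ^ (1 / 2 + c) / (N : ℝ) ^ μ :=
      Real.rpow_sub hN0 _ _
    have h4 : 0 < (N : ℝ) ^ μ := by positivity
    have h5 : 0 ≤ (N : ℝ) ^ (1 / 2 + c) := by positivity
    rw [h3, mul_div_assoc', le_div_iff₀ h4]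
    linarith
  have hw2 : ∑ n ∈ P J L f, wt J L f n ^ 2 ≤ 8 * K * (N : ℝ) ^ (1 + 2 * c - μ) := by
    calc ∑ n ∈ P J L f, wt J L f n ^ 2 ≤ ∑ n ∈ P J L f, (J.card * K) * wt J L f n := by
          apply sum_le_sum
          intro n hn
          rw [pow_two]
          exact mul_le_mul_of_nonneg_right (wt_le3 hω hAdm n) (by linarith [wt_one hn])
      _ = (J.card * K) * (Q J L).card := by rw [← mul_sum, sum_wt]
      _ ≤ ((4 * (N : ℝ) ^ (1 / 2 + c - μ)) * K) * (2 * (N : ℝ) ^ (1 / 2 + c)) := by gcongr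
      _ = 8 * K * ((N : ℝ) ^ (1 / 2 + c - μ) * (N : ℝ) ^ (1 / 2 + c)) := by ring
      _ = _ := by
          rw [← Real.rpow_add hN0]
          congr 2; ring
  have hsq : Real.sqrt (∑ n ∈ P J L f, wt J L f n ^ 2) ≤ 3 * K * (N : ℝ) ^ (1 / 2 + c - μ / 2) := by
    rw [Real.sqrt_le_left (by positivity)]
    refine hw2.trans ?_
    rw [mul_pow, ← Real.rpow_natCast ((N : ℝ) ^ (1 / 2 + c - μ / 2)) 2, ← Real.rpow_mul hN0.le]
    have e1 : (1 / 2 + c - μ / 2) * ((2 : ℕ) : ℝ) = 1 + 2 * c - μ := by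
      push_cast; ring
    rw [e1]
    apply mul_le_mul_of_nonneg_right _ (by positivity)
    nlinarith
  have hKW : ∀ t : ℝ, (2 * N : ℝ) < |t| → |t| ≤ T → ‖KW (P J L f) (wt J L f) t‖ ≤
      2 * C0 * (N : ℝ) ^ (1 / 2 - c) := by
    intro t h1 h2
    rw [kw_eq]
    calc ‖∑ j ∈ J, ∑ x ∈ range (L j), ph t (f j x)‖
        ≤ ∑ j ∈ J, ‖∑ x ∈ range (L j), ph t (f j x)‖ := norm_sum_le _ _
      _ ≤ ∑ j ∈ J, C0 * (L j) * (N : ℝ) ^ (-δ) := by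
          apply sum_le_sum
          intro j hj
          obtain ⟨a1, ⟨p, a2, a3⟩, a4, a5, a6⟩ := hAdm j hj
          exact hker N (L j) p (f j) hN a1 (hL2 j hj) a2 (fun x hx => ⟨a3 x hx, a4 x hx⟩) a5 a6 t h1.le (h2.trans hT)
      _ = C0 * (N : ℝ) ^ (-δ) * ∑ j ∈ J, (L j : ℝ) := by
          rw [mul_sum]
          apply sum_congr rfl
          intro p _
          ring
      _ ≤ C0 * (N : ℝ) ^ (-δ) * (2 * (N : ℝ) ^ (1 / 2 + c)) := by gcongr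
      _ = 2 * C0 * ((N : ℝ) ^ (-δ) * (N : ℝ) ^ (1 / 2 + c)) := by ring
      _ ≤ 2 * C0 * (N : ℝ) ^ (1 / 2 - c) := by
          rw [← Real.rpow_add hN0]
          have : (N : ℝ) ^ (-δ + (1 / 2 + c)) ≤ (N : ℝ) ^ (1 / 2 - c) :=
            Real.rpow_le_rpow_of_exponent_le hN1 (by linarith)
          gcongr
  have hls := lsW N hN (P J L f) (wt J L f) (fun n hn => wt_one hn)
    (fun n hn => P_mem3 hAdm hn) W hW x T (2 * N) (2 * C0 * (N : ℝ) ^ (1 / 2 - c)) hWT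
    (by linarith) (by positivity) hKW b
  have hsum1 : ∀ t, ∑ n ∈ Icc 1 (2 * N), b n * ph t n = ∑ n ∈ P J L f, b n * ph t n := by
    intro t
    apply supp3 hAdm
    intro n hn hne
    exact hs n hn (left_ne_zero_of_mul hne)
  have hlg2 : (1 + Real.log (2 * N)) ^ 2 ≤ C2 * (N : ℝ) ^ (μ / 8) := by
    have := hlg N hN
    rwa [Real.rpow_two] at this
  have hlog0 : 0 ≤ Real.log (2 * (N : ℝ)) := Real.log_nonneg (by linarith)
  have hfirst : 10 * (2 * N : ℝ) * (1 + Real.log (2 * N)) ^ 2 * Real.sqrt (∑ n ∈ P J L f, wt J L f n ^ 2) ≤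
      60 * K * C2 * (N : ℝ) ^ (3 / 2 - c) := by
    calc 10 * (2 * N : ℝ) * (1 + Real.log (2 * N)) ^ 2 * Real.sqrt (∑ n ∈ P J L f, wt J L f n ^ 2)
        ≤ 10 * (2 * N : ℝ) * (C2 * (N : ℝ) ^ (μ / 8)) * (3 * K * (N : ℝ) ^ (1 / 2 + c - μ / 2)) := by
          gcongr
      _ = 60 * K * C2 * ((N : ℝ) ^ (1 : ℝ) * (N : ℝ) ^ (μ / 8) * (N : ℝ) ^ (1 / 2 + c - μ / 2)) := by
          rw [Real.rpow_one]; ring
      _ = 60 * K * C2 * (N : ℝ) ^ (1 + μ / 8 + (1 / 2 + c - μ / 2)) := by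
          rw [← Real.rpow_add hN0, ← Real.rpow_add hN0]
      _ ≤ 60 * K * C2 * (N : ℝ) ^ (3 / 2 - c) := by
          have h1 : 1 + μ / 8 + (1 / 2 + c - μ / 2) ≤ 3 / 2 - c := by linarith
          have := Real.rpow_le_rpow_of_exponent_le hN1 h1
          gcongr
  have hbase : ∑ t ∈ W, ‖∑ n ∈ Icc 1 (2 * N), b n * ph t n‖ ^ 2 ≤
      (60 * K * C2 + 2 * C0) * ((N : ℝ) ^ (3 / 2 - c) + W.card * (N : ℝ) ^ (1 / 2 - c)) *
        ∑ n ∈ P J L f, ‖b n‖ ^ 2 := by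
    simp only [hsum1]
    refine hls.trans ?_
    apply mul_le_mul_of_nonneg_right _ (sum_nonneg fun _ _ => by positivity)
    have h1 : 0 ≤ (N : ℝ) ^ (3 / 2 - c) := by positivity
    have h2 : 0 ≤ W.card * (N : ℝ) ^ (1 / 2 - c) := by positivity
    have h3 : 0 ≤ 60 * K * C2 := by positivity
    have h4 : 0 ≤ 2 * C0 := by positivity
    have e1 : (60 * K * C2 + 2 * C0) * ((N : ℝ) ^ (3 / 2 - c) + W.card * (N : ℝ) ^ (1 / 2 - c)) =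
        60 * K * C2 * (N : ℝ) ^ (3 / 2 - c) + 2 * C0 * (W.card * (N : ℝ) ^ (1 / 2 - c)) +
          (60 * K * C2 * (W.card * (N : ℝ) ^ (1 / 2 - c)) + 2 * C0 * (N : ℝ) ^ (3 / 2 - c)) := by ring
    rw [e1]
    have h5 : 0 ≤ 60 * K * C2 * (W.card * (N : ℝ) ^ (1 / 2 - c)) := mul_nonneg h3 h2
    have h6 : 0 ≤ 2 * C0 * (N : ℝ) ^ (3 / 2 - c) := mul_nonneg h4 h1
    have e2 : (W.card : ℝ) * (2 * C0 * (N : ℝ) ^ (1 / 2 - c)) = 2 * C0 * (W.card * (N : ℝ) ^ (1 / 2 - c)) := by ring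
    rw [e2]
    linarith
  have hP : ((P J L f).card : ℝ) ≤ 2 * (N : ℝ) ^ (1 / 2 + c) := by
    refine le_trans ?_ hQ
    exact_mod_cast card_image_le
  have h1 : ∑ n ∈ P J L f, ‖b n‖ ^ 2 ≤ 2 * (N : ℝ) ^ (1 / 2 + c) := by
    calc ∑ n ∈ P J L f, ‖b n‖ ^ 2 ≤ ∑ n ∈ P J L f, (1 : ℝ) := by
          apply sum_le_sum
          intro n _
          exact pow_le_one₀ (norm_nonneg _) (hb n)
      _ = (P J L f).card := by simp
      _ ≤ _ := hP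
  have h5 : 0 ≤ 60 * K * C2 + 2 * C0 := by positivity
  calc _ ≤ _ := hbase
    _ ≤ (60 * K * C2 + 2 * C0) * ((N : ℝ) ^ (3 / 2 - c) + W.card * (N : ℝ) ^ (1 / 2 - c)) *
        (2 * (N : ℝ) ^ (1 / 2 + c)) := by
          apply mul_le_mul_of_nonneg_left h1
          have : 0 ≤ (N : ℝ) ^ (3 / 2 - c) + W.card * (N : ℝ) ^ (1 / 2 - c) := by positivity
          exact mul_nonneg h5 this
    _ = C * ((N : ℝ) ^ (3 / 2 - c) * (N : ℝ) ^ (1 / 2 + c) +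
        W.card * ((N : ℝ) ^ (1 / 2 - c) * (N : ℝ) ^ (1 / 2 + c))) := by rw [hC]; ring
    _ = C * ((N : ℝ) + W.card) * N := by
        rw [← Real.rpow_add hN0, ← Real.rpow_add hN0]
        rw [show (3 / 2 - c + (1 / 2 + c) : ℝ) = 2 by ring, show (1 / 2 - c + (1 / 2 + c) : ℝ) = 1 by ring,
          Real.rpow_one, Real.rpow_two]
        ring

/-- the mean value with further integers in the support, for sums over `[1, N]` -/
theorem onOne3 (A μ ω : ℝ) (K : ℕ) (hA : 1 ≤ A) (hμ : 0 < μ) (hμ1 : μ ≤ 1) (hω : 0 < ω) (hK : 1 ≤ K) :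
    ∃ c C : ℝ, 0 < c ∧ 1 ≤ C ∧ ∀ (N : ℕ) (J : Finset ℕ) (L : ℕ → ℕ) (f : ℕ → ℕ → ℕ) (E : Finset ℕ), 1 ≤ N →
      (∀ j ∈ J, (N : ℝ) ^ μ ≤ L j ∧
        (∃ p : Polynomial ℝ, p.natDegree ≤ K ∧ ∀ x < L j, (f j x : ℝ) = p.eval (x : ℝ)) ∧
        (∀ x < L j, 1 ≤ f j x ∧ f j x ≤ N) ∧ (∀ x < L j, ∀ y < L j, f j x ≤ 2 * f j y) ∧
        ∃ x < L j, ∃ y < L j, (1 + ω) * (f j y : ℝ) ≤ f j x) →
      ∑ j ∈ J, (L j : ℝ) ≤ (N : ℝ) ^ (1 / 2 + c) →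
      (E.card : ℝ) ≤ (N : ℝ) ^ (1 / 2 : ℝ) → ∀ (T x : ℝ) (W : Finset ℝ) (a : ℕ → ℂ),
      T ≤ (N : ℝ) ^ A → Sep W → (∀ t ∈ W, x ≤ t ∧ t ≤ x + T) →
      (∀ n ∈ Icc 1 N, a n ≠ 0 → n ∈ E ∨ Val J L f n) → (∀ n, ‖a n‖ ≤ 1) →
        ∑ t ∈ W, ‖∑ n ∈ Icc 1 N, a n * ph t n‖ ^ 2 ≤ C * ((N : ℝ) + W.card) * N := by
  classical
  obtain ⟨c, C, hc0, hc1, hC, h⟩ := main3 A μ ω K hA hμ hμ1 hω hK
  refine ⟨c, 2 * C + 4, hc0, by linarith, ?_⟩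
  intro N J L f E hN hB1 hB2 hE T x W a hT hW hWT hs ha
  obtain ⟨M, hM⟩ : ∃ M : ℕ, M = (N + 1) / 2 := ⟨_, rfl⟩
  have hM1 : 1 ≤ M := by omega
  have hMN : M ≤ N := by omega
  have hNM : N ≤ 2 * M := by omega
  have hMr : (1 : ℝ) ≤ M := by exact_mod_cast hM1
  have hMNr : (M : ℝ) ≤ N := by exact_mod_cast hMN
  have hNr : (1 : ℝ) ≤ N := by linarith
  have hP : Pols3 M μ ω K J L f := by
    intro j hj
    obtain ⟨h1, h2, h3, h4, h5⟩ := hB1 j hj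
    refine ⟨(Real.rpow_le_rpow (by linarith) hMNr hμ.le).trans h1, h2, ?_, h4, h5⟩
    intro y hy
    have := h3 y hy
    omega
  have hSm : ∑ j ∈ J, (L j : ℝ) ≤ 2 * (M : ℝ) ^ (1 / 2 + c) := by
    calc ∑ j ∈ J, (L j : ℝ) ≤ (N : ℝ) ^ (1 / 2 + c) := hB2
      _ ≤ 2 * (M : ℝ) ^ (1 / 2 + c) := two hM1 hMN hNM _ (by linarith) (by linarith)
  set b : ℕ → ℂ := fun n => if n ≤ N ∧ n ∉ E then a n else 0 with hb
  have hbs : ∀ n ∈ Icc 1 (2 * M), b n ≠ 0 → Val J L f n := by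
    intro n hn hne
    simp only [hb] at hne
    split_ifs at hne with hc
    · rw [mem_Icc] at hn
      rcases hs n (mem_Icc.2 ⟨hn.1, hc.1⟩) hne with h1 | h1
      · exact absurd h1 hc.2
      · exact h1
    · exact absurd rfl hne
  have hbn : ∀ n, ‖b n‖ ≤ 1 := by
    intro n
    simp only [hb]
    split_ifs
    · exact ha n
    · simp
  have h1 := h M J L f hM1 hP hSm T x W b (Pool.Agent.R516.MS.pow_le hA hNM hT) hW hWT hbs hbn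
  have hsplit : ∀ t : ℝ, ‖∑ n ∈ Icc 1 N, a n * ph t n‖ ≤ ‖∑ n ∈ Icc 1 (2 * M), b n * ph t n‖ + E.card := by
    intro t
    have e1 : ∑ n ∈ Icc 1 (2 * M), b n * ph t n = ∑ n ∈ Icc 1 N, (if n ∈ E then 0 else a n * ph t n) := by
      have hsub : Icc 1 N ⊆ Icc 1 (2 * M) := Icc_subset_Icc_right hNM
      rw [← sum_subset hsub]
      · apply sum_congr rfl
        intro n hn
        rw [mem_Icc] at hn
        simp only [hb]
        by_cases hnE : n ∈ E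
        · simp [hnE]
        · simp [hnE, hn.2]
      · intro n hn hn2
        simp only [hb]
        rw [if_neg, zero_mul]
        intro hc
        rw [mem_Icc] at hn hn2
        omega
    have e2 : ∑ n ∈ Icc 1 N, a n * ph t n = ∑ n ∈ Icc 1 (2 * M), b n * ph t n +
        ∑ n ∈ Icc 1 N, (if n ∈ E then a n * ph t n else 0) := by
      rw [e1, ← sum_add_distrib]
      apply sum_congr rfl
      intro n _
      split_ifs <;> simp
    rw [e2]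
    refine (norm_add_le _ _).trans (add_le_add_right ?_ _)
    calc ‖∑ n ∈ Icc 1 N, (if n ∈ E then a n * ph t n else 0)‖
        ≤ ∑ n ∈ Icc 1 N, ‖(if n ∈ E then a n * ph t n else 0)‖ := norm_sum_le _ _
      _ ≤ ∑ n ∈ Icc 1 N, (if n ∈ E then (1 : ℝ) else 0) := by
          apply sum_le_sum
          intro n _
          split_ifs
          · rw [norm_mul, ph_norm, mul_one]; exact ha n
          · simp
      _ = (((Icc 1 N).filter (fun n => n ∈ E)).card : ℝ) := by rw [← sum_filter]; simp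
      _ ≤ E.card := by
          have : (Icc 1 N).filter (fun n => n ∈ E) ⊆ E := fun n hn => (mem_filter.1 hn).2
          exact_mod_cast card_le_card this
  have hE2 : (E.card : ℝ) ^ 2 ≤ N := by
    calc (E.card : ℝ) ^ 2 ≤ ((N : ℝ) ^ (1 / 2 : ℝ)) ^ 2 := pow_le_pow_left₀ (Nat.cast_nonneg _) hE 2
      _ = N := by
          rw [← Real.rpow_natCast, ← Real.rpow_mul (Nat.cast_nonneg _)]
          norm_num
  have h2 : ∀ t ∈ W, ‖∑ n ∈ Icc 1 N, a n * ph t n‖ ^ 2 ≤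
      2 * ‖∑ n ∈ Icc 1 (2 * M), b n * ph t n‖ ^ 2 + 2 * N := by
    intro t _
    have h3 := hsplit t
    set u := ‖∑ n ∈ Icc 1 (2 * M), b n * ph t n‖ with hu
    have hu0 : 0 ≤ u := norm_nonneg _
    have h4 : ‖∑ n ∈ Icc 1 N, a n * ph t n‖ ^ 2 ≤ (u + E.card) ^ 2 := pow_le_pow_left₀ (norm_nonneg _) h3 2
    nlinarith [sq_nonneg (u - E.card)]
  calc ∑ t ∈ W, ‖∑ n ∈ Icc 1 N, a n * ph t n‖ ^ 2
      ≤ ∑ t ∈ W, (2 * ‖∑ n ∈ Icc 1 (2 * M), b n * ph t n‖ ^ 2 + 2 * N) := sum_le_sum h2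
    _ = 2 * ∑ t ∈ W, ‖∑ n ∈ Icc 1 (2 * M), b n * ph t n‖ ^ 2 + W.card * (2 * N) := by
        rw [sum_add_distrib, ← mul_sum, sum_const, nsmul_eq_mul]
    _ ≤ 2 * (C * ((M : ℝ) + W.card) * M) + W.card * (2 * N) := by linarith
    _ ≤ 2 * (C * ((N : ℝ) + W.card) * N) + W.card * (2 * N) := by gcongr
    _ ≤ (2 * C + 4) * ((N : ℝ) + W.card) * N := by
        have h6 : 0 ≤ (N : ℝ) * N := by positivity
        have h7 : 0 ≤ (W.card : ℝ) * N := by positivity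
        nlinarith

end Pool.Agent.U759.PV
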