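import Pool.Agent.U759.PV.Ker2
import Pool.Agent.R516.MSD

/-!
Mean values over well-spaced sets for coefficients supported on the values of polynomials.
-/

set_option autoImplicit false

namespace Pool.Agent.U759.PV

open Finset
open Pool.Agent.TH705.DL (ph ph_norm Sep)
open Pool.Agent.R327.SI (lg_pow)
open Pool.Agent.R516.MS (KW lsW)

/-- `n` is one of the values `f j x`, `j ∈ J`, `x < L j` -/
def Val (J : Finset ℕ) (L : ℕ → ℕ) (f : ℕ → ℕ → ℕ) (n : ℕ) : Prop := ∃ j ∈ J, ∃ x < L j, n = f j x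

/-- the pairs `(j, x)` -/
def Q (J : Finset ℕ) (L : ℕ → ℕ) : Finset ((_ : ℕ) × ℕ) := J.sigma (fun j => range (L j))

/-- the integer of a pair -/
def nu (f : ℕ → ℕ → ℕ) (x : (_ : ℕ) × ℕ) : ℕ := f x.1 x.2

/-- the integers -/
def P (J : Finset ℕ) (L : ℕ → ℕ) (f : ℕ → ℕ → ℕ) : Finset ℕ := (Q J L).image (nu f)

/-- the multiplicities -/
noncomputable def wt (J : Finset ℕ) (L : ℕ → ℕ) (f : ℕ → ℕ → ℕ) (n : ℕ) : ℝ :=
  (((Q J L).filter (fun x => nu f x = n)).card : ℝ)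

theorem mem_Q {J : Finset ℕ} {L : ℕ → ℕ} {x : (_ : ℕ) × ℕ} (hx : x ∈ Q J L) : x.1 ∈ J ∧ x.2 < L x.1 := by
  unfold Q at hx
  rw [mem_sigma, mem_range] at hx
  exact hx

theorem wt_one {J : Finset ℕ} {L : ℕ → ℕ} {f : ℕ → ℕ → ℕ} {n : ℕ} (hn : n ∈ P J L f) : 1 ≤ wt J L f n := by
  unfold P at hn
  rw [mem_image] at hn
  obtain ⟨x, hx, hxn⟩ := hn
  unfold wt
  have : 0 < ((Q J L).filter (fun x => nu f x = n)).card := card_pos.2 ⟨x, mem_filter.2 ⟨hx, hxn⟩⟩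
  exact_mod_cast this

theorem sum_wt (J : Finset ℕ) (L : ℕ → ℕ) (f : ℕ → ℕ → ℕ) : ∑ n ∈ P J L f, wt J L f n = (Q J L).card := by
  unfold P wt
  rw [card_eq_sum_card_image (nu f) (Q J L)]
  push_cast
  rfl

theorem kw_eq (J : Finset ℕ) (L : ℕ → ℕ) (f : ℕ → ℕ → ℕ) (t : ℝ) :
    KW (P J L f) (wt J L f) t = ∑ j ∈ J, ∑ x ∈ range (L j), ph t (f j x) := by
  unfold KW
  have h1 : ∑ j ∈ J, ∑ x ∈ range (L j), ph t (f j x) = ∑ x ∈ Q J L, ph t (nu f x) := by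
    unfold Q
    rw [sum_sigma]
    rfl
  rw [h1, sum_comp (fun n => ph t n) (nu f)]
  unfold P wt
  apply sum_congr rfl
  intro n _
  rw [nsmul_eq_mul]
  push_cast
  rfl

/-- the hypotheses on the polynomials -/
def Pols (M : ℕ) (μ ω : ℝ) (K : ℕ) (J : Finset ℕ) (L : ℕ → ℕ) (f : ℕ → ℕ → ℕ) : Prop :=
  ∀ j ∈ J, (M : ℝ) ^ μ ≤ 2 * L j ∧ (∃ p : Polynomial ℝ, p.natDegree ≤ K ∧ ∀ x < L j, (f j x : ℝ) = p.eval (x : ℝ)) ∧
    (∀ x < L j, M ≤ f j x ∧ f j x ≤ 2 * M) ∧ ∃ x < L j, ∃ y < L j, ω * M ≤ (f j x : ℝ) - f j y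

theorem P_mem {M : ℕ} {μ ω : ℝ} {K : ℕ} {J : Finset ℕ} {L : ℕ → ℕ} {f : ℕ → ℕ → ℕ} (h : Pols M μ ω K J L f) {n : ℕ}
    (hn : n ∈ P J L f) : M ≤ n ∧ n ≤ 2 * M := by
  unfold P at hn
  rw [mem_image] at hn
  obtain ⟨x, hx, rfl⟩ := hn
  have h1 := mem_Q hx
  exact (h _ h1.1).2.2.1 _ h1.2

/-- a nonconstant polynomial takes a value at most `K` times -/
theorem fibre {M : ℕ} {μ ω : ℝ} {K : ℕ} {J : Finset ℕ} {L : ℕ → ℕ} {f : ℕ → ℕ → ℕ} (hM : 1 ≤ M) (hω : 0 < ω)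
    (h : Pols M μ ω K J L f) {j : ℕ} (hj : j ∈ J) (n : ℕ) : ((range (L j)).filter (fun x => f j x = n)).card ≤ K := by
  classical
  obtain ⟨_, ⟨p, hp, hpf⟩, _, x0, hx0, y0, hy0, hxy⟩ := h j hj
  set r : Polynomial ℝ := p - Polynomial.C (n : ℝ) with hr
  have hr0 : r ≠ 0 := by
    intro h0
    have h1 : ∀ x < L j, (f j x : ℝ) = n := by
      intro x hx
      have h2 : r.eval (x : ℝ) = 0 := by rw [h0, Polynomial.eval_zero]
      rw [hr, Polynomial.eval_sub, Polynomial.eval_C] at h2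
      rw [hpf x hx]
      linarith
    rw [h1 x0 hx0, h1 y0 hy0, sub_self] at hxy
    have : 0 < ω * M := by
      have : (0 : ℝ) < M := by exact_mod_cast hM
      positivity
    linarith
  have hdeg : r.natDegree ≤ K := by
    rw [hr, Polynomial.natDegree_sub_C]
    exact hp
  have h2 : (((range (L j)).filter (fun x => f j x = n)).image (fun x : ℕ => (x : ℝ))) ⊆ r.roots.toFinset := by
    intro y hy
    rw [mem_image] at hy
    obtain ⟨x, hx, rfl⟩ := hy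
    rw [mem_filter, mem_range] at hx
    rw [Multiset.mem_toFinset, Polynomial.mem_roots hr0, Polynomial.IsRoot.def, hr, Polynomial.eval_sub,
      Polynomial.eval_C, ← hpf x hx.1, hx.2, sub_self]
  have h3 := card_le_card h2
  rw [card_image_of_injective _ Nat.cast_injective] at h3
  exact h3.trans ((Multiset.toFinset_card_le _).trans ((Polynomial.card_roots' r).trans hdeg))

theorem wt_le {M : ℕ} {μ ω : ℝ} {K : ℕ} {J : Finset ℕ} {L : ℕ → ℕ} {f : ℕ → ℕ → ℕ} (hM : 1 ≤ M) (hω : 0 < ω)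
    (h : Pols M μ ω K J L f) (n : ℕ) : wt J L f n ≤ J.card * K := by
  classical
  unfold wt
  have h1 : (Q J L).filter (fun x => nu f x = n) = J.sigma (fun j => (range (L j)).filter (fun x => f j x = n)) := by
    ext x
    rw [mem_filter, mem_sigma, mem_filter]
    unfold Q nu
    rw [mem_sigma]
    tauto
  rw [h1, card_sigma]
  have h2 : ∑ j ∈ J, ((range (L j)).filter (fun x => f j x = n)).card ≤ J.card * K := by
    have := sum_le_card_nsmul J (fun j => ((range (L j)).filter (fun x => f j x = n)).card) K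
      (fun j hj => fibre hM hω h hj n)
    simpa using this
  exact_mod_cast h2

theorem supp {M : ℕ} {μ ω : ℝ} {K : ℕ} {J : Finset ℕ} {L : ℕ → ℕ} {f : ℕ → ℕ → ℕ} (h : Pols M μ ω K J L f)
    (F : ℕ → ℂ) (hf : ∀ n ∈ Icc M (2 * M), F n ≠ 0 → Val J L f n) :
    ∑ n ∈ Icc M (2 * M), F n = ∑ n ∈ P J L f, F n := by
  symm
  apply sum_subset
  · intro n hn
    rw [mem_Icc]
    exact P_mem h hn
  · intro n hn hnP
    by_contra hne
    obtain ⟨j, hj, x, hx, rfl⟩ := hf n hn hne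
    apply hnP
    unfold P
    rw [mem_image]
    refine ⟨⟨j, x⟩, ?_, rfl⟩
    unfold Q
    rw [mem_sigma, mem_range]
    exact ⟨hj, hx⟩

/-- **The mean value.** -/
theorem main (A μ ω : ℝ) (K : ℕ) (hA : 1 ≤ A) (hμ : 0 < μ) (hμ1 : μ ≤ 1) (hω : 0 < ω) (hK : 1 ≤ K) :
    ∃ c C : ℝ, 0 < c ∧ c ≤ 1 / 4 ∧ 1 ≤ C ∧ ∀ (M : ℕ) (J : Finset ℕ) (L : ℕ → ℕ) (f : ℕ → ℕ → ℕ), 1 ≤ M →
      Pols M μ ω K J L f → ∑ j ∈ J, (L j : ℝ) ≤ 2 * (M : ℝ) ^ (1 / 2 + c) →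
      ∀ (T x : ℝ) (W : Finset ℝ) (b : ℕ → ℂ), T ≤ (2 * M : ℝ) ^ A → Sep W →
      (∀ t ∈ W, x ≤ t ∧ t ≤ x + T) → (∀ n ∈ Icc M (2 * M), b n ≠ 0 → Val J L f n) →
      (∑ t ∈ W, ‖∑ n ∈ Icc M (2 * M), b n * ph t n‖ ^ 2 ≤
        C * ((M : ℝ) ^ (3 / 2 - c) + W.card * (M : ℝ) ^ (1 / 2 - c)) * ∑ n ∈ Icc M (2 * M), ‖b n‖ ^ 2) ∧
      ((∀ n, ‖b n‖ ≤ 1) → ∑ t ∈ W, ‖∑ n ∈ Icc M (2 * M), b n * ph t n‖ ^ 2 ≤
        C * ((M : ℝ) + W.card) * M) := by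
  obtain ⟨δ, C0, hδ, hC0, hker⟩ := ker2 A μ ω K hA hμ hμ1 hω hK
  have hK' : (1 : ℝ) ≤ K := by exact_mod_cast hK
  have hK0 : (0 : ℝ) < K := by linarith
  obtain ⟨C2, hC2, hlg⟩ := lg_pow 2 (μ / 8) (by norm_num) (by positivity)
  set c : ℝ := min (δ / 2) (μ / 16) with hc
  have hc0 : 0 < c := by rw [hc]; positivity
  have hc1 : c ≤ δ / 2 := min_le_left _ _
  have hc2 : c ≤ μ / 16 := min_le_right _ _
  set C : ℝ := 2 * (40 * K * C2 + 2 * C0) with hC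
  have hC1 : 1 ≤ C := by
    have : 0 ≤ 40 * K * C2 := by positivity
    linarith
  refine ⟨c, C, hc0, by linarith, hC1, ?_⟩
  intro M J L f hM hAdm hSm T x W b hT hW hWT hs
  have hM1 : (1 : ℝ) ≤ M := by exact_mod_cast hM
  have hM0 : (0 : ℝ) < M := by linarith
  -- the number of the pairs
  have hQe : ((Q J L).card : ℝ) = ∑ j ∈ J, (L j : ℝ) := by
    unfold Q
    rw [card_sigma]
    push_cast
    simp
  have hQ : ((Q J L).card : ℝ) ≤ 2 * (M : ℝ) ^ (1 / 2 + c) := by rw [hQe]; exact hSm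
  have hL2 : ∀ j ∈ J, L j ≤ 2 * M := by
    intro j hj
    have h1 : (L j : ℝ) ≤ ∑ j ∈ J, (L j : ℝ) := single_le_sum (f := fun j => (L j : ℝ)) (fun _ _ => by positivity) hj
    have h2 : (M : ℝ) ^ (1 / 2 + c) ≤ M := by
      calc (M : ℝ) ^ (1 / 2 + c) ≤ (M : ℝ) ^ (1 : ℝ) := Real.rpow_le_rpow_of_exponent_le hM1 (by linarith)
        _ = M := Real.rpow_one _
    have h3 : (L j : ℝ) ≤ 2 * M := by linarith
    exact_mod_cast h3
  -- the number of the polynomials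
  have hBc : (J.card : ℝ) ≤ 4 * (M : ℝ) ^ (1 / 2 + c - μ) := by
    have h2 : J.card * ((M : ℝ) ^ μ / 2) ≤ 2 * (M : ℝ) ^ (1 / 2 + c) := by
      calc J.card * ((M : ℝ) ^ μ / 2) = ∑ j ∈ J, (M : ℝ) ^ μ / 2 := by
            rw [sum_const, nsmul_eq_mul]
        _ ≤ ∑ j ∈ J, (L j : ℝ) := sum_le_sum fun j hj => by linarith [(hAdm j hj).1]
        _ ≤ _ := hSm
    have h3 : (M : ℝ) ^ (1 / 2 + c - μ) = (M : ℝ) ^ (1 / 2 + c) / (M : ℝ) ^ μ :=
      Real.rpow_sub hM0 _ _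
    have h4 : 0 < (M : ℝ) ^ μ := by positivity
    rw [h3, mul_div_assoc', le_div_iff₀ h4]
    linarith
  have hw2 : ∑ n ∈ P J L f, wt J L f n ^ 2 ≤ 8 * K * (M : ℝ) ^ (1 + 2 * c - μ) := by
    calc ∑ n ∈ P J L f, wt J L f n ^ 2 ≤ ∑ n ∈ P J L f, (J.card * K) * wt J L f n := by
          apply sum_le_sum
          intro n hn
          rw [pow_two]
          exact mul_le_mul_of_nonneg_right (wt_le hM hω hAdm n) (by linarith [wt_one hn])
      _ = (J.card * K) * (Q J L).card := by rw [← mul_sum, sum_wt]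
      _ ≤ ((4 * (M : ℝ) ^ (1 / 2 + c - μ)) * K) * (2 * (M : ℝ) ^ (1 / 2 + c)) := by gcongr
      _ = 8 * K * ((M : ℝ) ^ (1 / 2 + c - μ) * (M : ℝ) ^ (1 / 2 + c)) := by ring
      _ = _ := by
          rw [← Real.rpow_add hM0]
          congr 2; ring
  have hsq : Real.sqrt (∑ n ∈ P J L f, wt J L f n ^ 2) ≤ 4 * K * (M : ℝ) ^ (1 / 2 + c - μ / 2) := by
    rw [Real.sqrt_le_left (by positivity)]
    refine hw2.trans ?_
    rw [mul_pow, ← Real.rpow_natCast ((M : ℝ) ^ (1 / 2 + c - μ / 2)) 2, ← Real.rpow_mul hM0.le]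
    have e1 : (1 / 2 + c - μ / 2) * ((2 : ℕ) : ℝ) = 1 + 2 * c - μ := by
      push_cast; ring
    rw [e1]
    apply mul_le_mul_of_nonneg_right _ (by positivity)
    nlinarith
  have hKW : ∀ t : ℝ, (M : ℝ) < |t| → |t| ≤ T → ‖KW (P J L f) (wt J L f) t‖ ≤
      2 * C0 * (M : ℝ) ^ (1 / 2 - c) := by
    intro t h1 h2
    rw [kw_eq]
    calc ‖∑ j ∈ J, ∑ x ∈ range (L j), ph t (f j x)‖
        ≤ ∑ j ∈ J, ‖∑ x ∈ range (L j), ph t (f j x)‖ := norm_sum_le _ _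
      _ ≤ ∑ j ∈ J, C0 * (L j) * (M : ℝ) ^ (-δ) := by
          apply sum_le_sum
          intro j hj
          obtain ⟨a1, ⟨p, a2, a3⟩, a4, a5⟩ := hAdm j hj
          exact hker M (L j) p (f j) hM a1 (hL2 j hj) a2 (fun x hx => ⟨a3 x hx, a4 x hx⟩) a5 t h1.le (h2.trans hT)
      _ = C0 * (M : ℝ) ^ (-δ) * ∑ j ∈ J, (L j : ℝ) := by
          rw [mul_sum]
          apply sum_congr rfl
          intro p _
          ring
      _ ≤ C0 * (M : ℝ) ^ (-δ) * (2 * (M : ℝ) ^ (1 / 2 + c)) := by gcongr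
      _ = 2 * C0 * ((M : ℝ) ^ (-δ) * (M : ℝ) ^ (1 / 2 + c)) := by ring
      _ ≤ 2 * C0 * (M : ℝ) ^ (1 / 2 - c) := by
          rw [← Real.rpow_add hM0]
          have : (M : ℝ) ^ (-δ + (1 / 2 + c)) ≤ (M : ℝ) ^ (1 / 2 - c) :=
            Real.rpow_le_rpow_of_exponent_le hM1 (by linarith)
          gcongr
  have hls := lsW M hM (P J L f) (wt J L f) (fun n hn => wt_one hn)
    (fun n hn => ⟨hM.trans (P_mem hAdm hn).1, (P_mem hAdm hn).2⟩) W hW x T M (2 * C0 * (M : ℝ) ^ (1 / 2 - c)) hWT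
    le_rfl (by positivity) hKW b
  have hsum1 : ∀ t, ∑ n ∈ Icc M (2 * M), b n * ph t n = ∑ n ∈ P J L f, b n * ph t n := by
    intro t
    apply supp hAdm
    intro n hn hne
    exact hs n hn (left_ne_zero_of_mul hne)
  have hlg2 : (1 + Real.log (2 * M)) ^ 2 ≤ C2 * (M : ℝ) ^ (μ / 8) := by
    have := hlg M hM
    rwa [Real.rpow_two] at this
  have hlog0 : 0 ≤ Real.log (2 * (M : ℝ)) := Real.log_nonneg (by linarith)
  have hfirst : 10 * (M : ℝ) * (1 + Real.log (2 * M)) ^ 2 * Real.sqrt (∑ n ∈ P J L f, wt J L f n ^ 2) ≤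
      40 * K * C2 * (M : ℝ) ^ (3 / 2 - c) := by
    calc 10 * (M : ℝ) * (1 + Real.log (2 * M)) ^ 2 * Real.sqrt (∑ n ∈ P J L f, wt J L f n ^ 2)
        ≤ 10 * (M : ℝ) * (C2 * (M : ℝ) ^ (μ / 8)) * (4 * K * (M : ℝ) ^ (1 / 2 + c - μ / 2)) := by
          gcongr
      _ = 40 * K * C2 * ((M : ℝ) ^ (1 : ℝ) * (M : ℝ) ^ (μ / 8) * (M : ℝ) ^ (1 / 2 + c - μ / 2)) := by
          rw [Real.rpow_one]; ring
      _ = 40 * K * C2 * (M : ℝ) ^ (1 + μ / 8 + (1 / 2 + c - μ / 2)) := by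
          rw [← Real.rpow_add hM0, ← Real.rpow_add hM0]
      _ ≤ 40 * K * C2 * (M : ℝ) ^ (3 / 2 - c) := by
          have h1 : 1 + μ / 8 + (1 / 2 + c - μ / 2) ≤ 3 / 2 - c := by linarith
          have := Real.rpow_le_rpow_of_exponent_le hM1 h1
          gcongr
  have hnorm2 : ∑ n ∈ P J L f, ‖b n‖ ^ 2 ≤ ∑ n ∈ Icc M (2 * M), ‖b n‖ ^ 2 := by
    apply sum_le_sum_of_subset_of_nonneg
    · intro n hn
      rw [mem_Icc]
      exact P_mem hAdm hn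
    · intro _ _ _
      positivity
  have hbase : ∑ t ∈ W, ‖∑ n ∈ Icc M (2 * M), b n * ph t n‖ ^ 2 ≤
      (40 * K * C2 + 2 * C0) * ((M : ℝ) ^ (3 / 2 - c) + W.card * (M : ℝ) ^ (1 / 2 - c)) *
        ∑ n ∈ P J L f, ‖b n‖ ^ 2 := by
    simp only [hsum1]
    refine hls.trans ?_
    apply mul_le_mul_of_nonneg_right _ (sum_nonneg fun _ _ => by positivity)
    have h1 : 0 ≤ (M : ℝ) ^ (3 / 2 - c) := by positivity
    have h2 : 0 ≤ W.card * (M : ℝ) ^ (1 / 2 - c) := by positivity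
    have h3 : 0 ≤ 40 * K * C2 := by positivity
    have h4 : 0 ≤ 2 * C0 := by positivity
    have e1 : (40 * K * C2 + 2 * C0) * ((M : ℝ) ^ (3 / 2 - c) + W.card * (M : ℝ) ^ (1 / 2 - c)) =
        40 * K * C2 * (M : ℝ) ^ (3 / 2 - c) + 2 * C0 * (W.card * (M : ℝ) ^ (1 / 2 - c)) +
          (40 * K * C2 * (W.card * (M : ℝ) ^ (1 / 2 - c)) + 2 * C0 * (M : ℝ) ^ (3 / 2 - c)) := by ring
    rw [e1]
    have h5 : 0 ≤ 40 * K * C2 * (W.card * (M : ℝ) ^ (1 / 2 - c)) := mul_nonneg h3 h2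
    have h6 : 0 ≤ 2 * C0 * (M : ℝ) ^ (3 / 2 - c) := mul_nonneg h4 h1
    have e2 : (W.card : ℝ) * (2 * C0 * (M : ℝ) ^ (1 / 2 - c)) = 2 * C0 * (W.card * (M : ℝ) ^ (1 / 2 - c)) := by ring
    rw [e2]
    linarith
  constructor
  · refine hbase.trans ?_
    have h1 : 0 ≤ (M : ℝ) ^ (3 / 2 - c) + W.card * (M : ℝ) ^ (1 / 2 - c) := by positivity
    have h2 : (40 * K * C2 + 2 * C0) ≤ C := by
      have : 0 ≤ 40 * K * C2 := by positivity
      rw [hC]; linarith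
    have h3 : 0 ≤ ∑ n ∈ P J L f, ‖b n‖ ^ 2 := sum_nonneg fun _ _ => by positivity
    have h4 : 0 ≤ C := by linarith
    exact mul_le_mul (mul_le_mul_of_nonneg_right h2 h1) hnorm2 h3 (mul_nonneg h4 h1)
  · intro hb
    have hP : ((P J L f).card : ℝ) ≤ 2 * (M : ℝ) ^ (1 / 2 + c) := by
      refine le_trans ?_ hQ
      exact_mod_cast card_image_le
    have h1 : ∑ n ∈ P J L f, ‖b n‖ ^ 2 ≤ 2 * (M : ℝ) ^ (1 / 2 + c) := by
      calc ∑ n ∈ P J L f, ‖b n‖ ^ 2 ≤ ∑ n ∈ P J L f, (1 : ℝ) := by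
            apply sum_le_sum
            intro n _
            exact pow_le_one₀ (norm_nonneg _) (hb n)
        _ = (P J L f).card := by simp
        _ ≤ _ := hP
    have h5 : 0 ≤ 40 * K * C2 + 2 * C0 := by positivity
    calc _ ≤ _ := hbase
      _ ≤ (40 * K * C2 + 2 * C0) * ((M : ℝ) ^ (3 / 2 - c) + W.card * (M : ℝ) ^ (1 / 2 - c)) *
          (2 * (M : ℝ) ^ (1 / 2 + c)) := by
            apply mul_le_mul_of_nonneg_left h1
            have : 0 ≤ (M : ℝ) ^ (3 / 2 - c) + W.card * (M : ℝ) ^ (1 / 2 - c) := by positivity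
            exact mul_nonneg h5 this
      _ = C * ((M : ℝ) ^ (3 / 2 - c) * (M : ℝ) ^ (1 / 2 + c) +
          W.card * ((M : ℝ) ^ (1 / 2 - c) * (M : ℝ) ^ (1 / 2 + c))) := by rw [hC]; ring
      _ = C * ((M : ℝ) + W.card) * M := by
          rw [← Real.rpow_add hM0, ← Real.rpow_add hM0]
          rw [show (3 / 2 - c + (1 / 2 + c) : ℝ) = 2 by ring, show (1 / 2 - c + (1 / 2 + c) : ℝ) = 1 by ring,
            Real.rpow_one, Real.rpow_two]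
          ring

end Pool.Agent.U759.PV
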