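import Mathlib

/-!
The derivatives of the logarithm of a polynomial.
-/

set_option autoImplicit false

namespace Pool.Agent.U759.PV

open Finset Polynomial

/-- numerators: the `(m+1)`-th derivative of `log p` is `Nn p m / p ^ (m + 1)` -/
noncomputable def Nn (p : ℝ[X]) : ℕ → ℝ[X]
  | 0 => derivative p
  | m + 1 => derivative (Nn p m) * p - C ((m : ℝ) + 1) * Nn p m * derivative p

/-- the derivatives of `log p` -/
noncomputable def phi (p : ℝ[X]) : ℕ → ℝ → ℝ
  | 0 => fun x => Real.log (p.eval x)
  | m + 1 => fun x => (Nn p m).eval x / (p.eval x) ^ (m + 1)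

theorem phi_deriv (p : ℝ[X]) (m : ℕ) (x : ℝ) (hx : 0 < p.eval x) :
    HasDerivAt (phi p m) (phi p (m + 1) x) x := by
  cases m with
  | zero =>
    have h := (p.hasDerivAt x).log hx.ne'
    simpa [phi, Nn] using h
  | succ m =>
    have h1 := (Nn p m).hasDerivAt x
    have h2 : HasDerivAt (fun x => p.eval x ^ (m + 1))
        (((m + 1 : ℕ) : ℝ) * p.eval x ^ m * (derivative p).eval x) x := by
      have := (p.hasDerivAt x).pow (m + 1)
      rw [Nat.add_sub_cancel] at this
      exact this
    have h3 : HasDerivAt (fun x => (Nn p m).eval x / p.eval x ^ (m + 1)) _ x := h1.div h2 (by positivity)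
    refine h3.congr_deriv ?_
    simp only [phi, Nn, eval_sub, eval_mul, eval_C]
    have hne : p.eval x ≠ 0 := hx.ne'
    field_simp
    push_cast
    ring

theorem natDegree_Nn_le (p : ℝ[X]) (K : ℕ) (hp : p.natDegree ≤ K) (m : ℕ) :
    (Nn p m).natDegree ≤ (m + 1) * K := by
  induction m with
  | zero =>
    simp only [Nn]
    have := natDegree_derivative_le p
    omega
  | succ m ih =>
    simp only [Nn]
    have h1 : (derivative (Nn p m) * p).natDegree ≤ (m + 1 + 1) * K := by
      refine natDegree_mul_le.trans ?_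
      have := natDegree_derivative_le (Nn p m)
      have e : (m + 1 + 1) * K = (m + 1) * K + K := by ring
      omega
    have h2 : (C ((m : ℝ) + 1) * Nn p m * derivative p).natDegree ≤ (m + 1 + 1) * K := by
      rw [mul_assoc]
      refine (natDegree_C_mul_le _ _).trans (natDegree_mul_le.trans ?_)
      have := natDegree_derivative_le p
      have e : (m + 1 + 1) * K = (m + 1) * K + K := by ring
      omega
    exact (natDegree_sub_le _ _).trans (max_le h1 h2)

theorem coeff_theta (q : ℝ[X]) (i : ℕ) : (X * derivative q).coeff i = i * q.coeff i := by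
  cases i with
  | zero => simp
  | succ i => rw [coeff_X_mul, coeff_derivative]; push_cast; ring

theorem natDegree_theta_le (q : ℝ[X]) (f : ℕ) (h : q.natDegree ≤ f) : (X * derivative q).natDegree ≤ f := by
  rw [natDegree_le_iff_coeff_eq_zero]
  intro n hn
  rw [coeff_theta, coeff_eq_zero_of_natDegree_lt (by omega), mul_zero]

/-- degree and leading coefficient -/
theorem Nn_lead (p : ℝ[X]) (e : ℕ) (he : 1 ≤ e) (hp : p.natDegree = e) (m : ℕ) :
    (Nn p m).natDegree ≤ (m + 1) * (e - 1) ∧
      (Nn p m).coeff ((m + 1) * (e - 1)) = (-1) ^ m * (m.factorial : ℝ) * e * p.coeff e ^ (m + 1) := by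
  induction m with
  | zero =>
    simp only [Nn]
    constructor
    · have := natDegree_derivative_le p
      omega
    · have h1 : (0 + 1) * (e - 1) = e - 1 := by ring
      rw [h1, coeff_derivative, Nat.sub_add_cancel he, Nat.cast_sub he]
      simp
      ring
  | succ m ih =>
    obtain ⟨ih1, ih2⟩ := ih
    set f := (m + 1) * (e - 1) with hf
    have hf' : (m + 1 + 1) * (e - 1) = f + e - 1 := by
      rw [hf]
      have : (m + 1 + 1) * (e - 1) = (m + 1) * (e - 1) + (e - 1) := by ring
      omega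
    have hX : X * Nn p (m + 1) = (X * derivative (Nn p m)) * p - C ((m : ℝ) + 1) * (Nn p m * (X * derivative p)) := by
      simp only [Nn]
      ring
    have hd1 : ((X * derivative (Nn p m)) * p).natDegree ≤ f + e :=
      natDegree_mul_le.trans (add_le_add (natDegree_theta_le _ _ ih1) hp.le)
    have hd2 : (C ((m : ℝ) + 1) * (Nn p m * (X * derivative p))).natDegree ≤ f + e :=
      (natDegree_C_mul_le _ _).trans (natDegree_mul_le.trans (add_le_add ih1 (natDegree_theta_le _ _ hp.le)))
    have hd : (X * Nn p (m + 1)).natDegree ≤ f + e := by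
      rw [hX]
      exact (natDegree_sub_le _ _).trans (max_le hd1 hd2)
    constructor
    · rw [hf', natDegree_le_iff_coeff_eq_zero]
      intro n hn
      have := coeff_eq_zero_of_natDegree_lt (p := X * Nn p (m + 1)) (n := n + 1) (by omega)
      rwa [coeff_X_mul] at this
    · have h1 : (X * Nn p (m + 1)).coeff (f + e) = (Nn p (m + 1)).coeff (f + e - 1) := by
        obtain ⟨r, hr⟩ : ∃ r, f + e = r + 1 := ⟨f + e - 1, by omega⟩
        rw [hr, coeff_X_mul, Nat.add_sub_cancel]
      rw [hf', ← h1, hX, coeff_sub, coeff_C_mul,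
        coeff_mul_add_eq_of_natDegree_le (natDegree_theta_le _ _ ih1) hp.le,
        coeff_mul_add_eq_of_natDegree_le ih1 (natDegree_theta_le _ _ hp.le), coeff_theta, coeff_theta, ih2]
      have hfr : (f : ℝ) = ((m : ℝ) + 1) * ((e : ℝ) - 1) := by
        rw [hf]; push_cast [Nat.cast_sub he]; ring
      rw [hfr, Nat.factorial_succ]
      push_cast
      ring

theorem Nn_ne_zero (p : ℝ[X]) (hp : 1 ≤ p.natDegree) (m : ℕ) : Nn p m ≠ 0 := by
  intro h
  have h1 := (Nn_lead p p.natDegree hp rfl m).2
  rw [h, coeff_zero] at h1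
  have hb : p.coeff p.natDegree ≠ 0 := by
    rw [coeff_natDegree, leadingCoeff_ne_zero]
    intro h0
    rw [h0, natDegree_zero] at hp
    omega
  have he : (p.natDegree : ℝ) ≠ 0 := by
    have : p.natDegree ≠ 0 := by omega
    exact_mod_cast this
  have hm : (m.factorial : ℝ) ≠ 0 := by exact_mod_cast m.factorial_ne_zero
  have : (-1 : ℝ) ^ m * (m.factorial : ℝ) * p.natDegree * p.coeff p.natDegree ^ (m + 1) ≠ 0 := by
    have h2 : (-1 : ℝ) ^ m ≠ 0 := pow_ne_zero _ (by norm_num)
    positivity
  exact this h1.symm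

/-- the polynomial with the coefficients `a` -/
noncomputable def pol {K : ℕ} (a : Fin (K + 1) → ℝ) : ℝ[X] := ∑ i : Fin (K + 1), C (a i) * X ^ (i : ℕ)

theorem coeff_pol {K : ℕ} (a : Fin (K + 1) → ℝ) (j : ℕ) :
    (pol a).coeff j = if h : j < K + 1 then a ⟨j, h⟩ else 0 := by
  unfold pol
  rw [finsetSum_coeff]
  simp only [coeff_C_mul_X_pow]
  split_ifs with h
  · rw [Finset.sum_eq_single ⟨j, h⟩]
    · simp
    · intro b _ hb
      rw [if_neg]
      intro h'
      exact hb (Fin.ext h'.symm)
    · simp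
  · apply Finset.sum_eq_zero
    intro i _
    rw [if_neg]
    intro h'
    exact h (h' ▸ i.2)

theorem pol_natDegree {K : ℕ} (a : Fin (K + 1) → ℝ) : (pol a).natDegree ≤ K := by
  rw [natDegree_le_iff_coeff_eq_zero]
  intro n hn
  rw [coeff_pol, dif_neg (by omega)]

theorem pol_of {K : ℕ} (p : ℝ[X]) (hp : p.natDegree ≤ K) : pol (fun i : Fin (K + 1) => p.coeff i) = p := by
  ext j
  rw [coeff_pol]
  split_ifs with h
  · rfl
  · rw [coeff_eq_zero_of_natDegree_lt (by omega)]

theorem pol_eval {K : ℕ} (a : Fin (K + 1) → ℝ) (x : ℝ) : (pol a).eval x = ∑ i : Fin (K + 1), a i * x ^ (i : ℕ) := by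
  unfold pol
  rw [eval_finsetSum]
  simp

theorem cont_coeff {K : ℕ} (m : ℕ) : ∀ j : ℕ, Continuous fun a : Fin (K + 1) → ℝ => (Nn (pol a) m).coeff j := by
  have h0 : ∀ j, Continuous fun a : Fin (K + 1) → ℝ => (pol a).coeff j := by
    intro j
    simp only [coeff_pol]
    split_ifs with h
    · exact continuous_apply _
    · exact continuous_const
  induction m with
  | zero =>
    intro j
    simp only [Nn, coeff_derivative]
    exact (h0 _).mul continuous_const
  | succ m ih =>
    intro j
    simp only [Nn, coeff_sub, mul_assoc, coeff_C_mul]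
    simp only [coeff_mul, coeff_derivative]
    refine Continuous.sub ?_ (continuous_const.mul ?_)
    · exact continuous_finsetSum _ fun x _ => ((ih _).mul continuous_const).mul (h0 _)
    · exact continuous_finsetSum _ fun x _ => (ih _).mul ((h0 _).mul continuous_const)

theorem cont_eval {K : ℕ} (m : ℕ) : Continuous fun z : (Fin (K + 1) → ℝ) × ℝ => (Nn (pol z.1) m).eval z.2 := by
  have h : ∀ z : (Fin (K + 1) → ℝ) × ℝ, (Nn (pol z.1) m).eval z.2 =
      ∑ j ∈ range ((m + 1) * K + 1), (Nn (pol z.1) m).coeff j * z.2 ^ j := by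
    intro z
    exact eval_eq_sum_range' (Nat.lt_succ_of_le (natDegree_Nn_le _ _ (pol_natDegree z.1) m)) _
  simp only [h]
  exact continuous_finsetSum _ fun j _ => ((cont_coeff m j).comp continuous_fst).mul (continuous_snd.pow j)

/-- the compact set of coefficients -/
def KK (K : ℕ) (B ω : ℝ) : Set (Fin (K + 1) → ℝ) :=
  {a | (∀ i, |a i| ≤ B) ∧ ω ≤ ∑ i : Fin (K + 1), if (i : ℕ) = 0 then 0 else |a i|}

theorem KK_compact (K : ℕ) (B ω : ℝ) : IsCompact (KK K B ω) := by
  have h1 : KK K B ω = (Set.univ.pi fun _ : Fin (K + 1) => Set.Icc (-B) B) ∩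
      {a | ω ≤ ∑ i : Fin (K + 1), if (i : ℕ) = 0 then 0 else |a i|} := by
    ext a
    simp only [KK, Set.mem_ofPred_eq, Set.mem_inter_iff, Set.mem_univ_pi, Set.mem_Icc, abs_le]
  rw [h1]
  refine (isCompact_univ_pi fun _ => isCompact_Icc).inter_right ?_
  apply isClosed_le continuous_const
  refine continuous_finsetSum _ fun i _ => ?_
  split_ifs
  · exact continuous_const
  · exact (continuous_apply i).abs

theorem KK_deg {K : ℕ} {B ω : ℝ} (hω : 0 < ω) {a : Fin (K + 1) → ℝ} (ha : a ∈ KK K B ω) :
    1 ≤ (pol a).natDegree := by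
  by_contra h
  have h0 : (pol a).natDegree = 0 := by omega
  have h1 : ∀ i : Fin (K + 1), (i : ℕ) ≠ 0 → a i = 0 := by
    intro i hi
    have h2 := coeff_pol a i
    rw [dif_pos i.2] at h2
    have h3 : (pol a).coeff (i : ℕ) = 0 := coeff_eq_zero_of_natDegree_lt (by omega)
    rw [h3] at h2
    exact h2.symm
  have h2 : ∑ i : Fin (K + 1), (if (i : ℕ) = 0 then 0 else |a i|) = 0 := by
    apply Finset.sum_eq_zero
    intro i _
    split_ifs with h3
    · rfl
    · rw [h1 i h3, abs_zero]
  have h3 := ha.2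
  rw [h2] at h3
  linarith

/-- the product of the numerators of two consecutive derivatives -/
noncomputable def GG {K : ℕ} (m : ℕ) (a : Fin (K + 1) → ℝ) : ℝ[X] := Nn (pol a) m * Nn (pol a) (m + 1)

theorem GG_deg {K : ℕ} (m : ℕ) (a : Fin (K + 1) → ℝ) : (GG m a).natDegree ≤ (2 * m + 3) * K := by
  unfold GG
  refine natDegree_mul_le.trans ?_
  have h1 := natDegree_Nn_le (pol a) K (pol_natDegree a) m
  have h2 := natDegree_Nn_le (pol a) K (pol_natDegree a) (m + 1)
  have e : (2 * m + 3) * K = (m + 1) * K + (m + 1 + 1) * K := by ring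
  omega

/-- upper and lower bounds, uniformly on the compact set -/
theorem bounds (K m : ℕ) (B ω U : ℝ) (hω : 0 < ω) : ∃ c C : ℝ, 0 < c ∧ 1 ≤ C ∧ ∀ a ∈ KK K B ω,
    (∃ s ∈ Set.Icc (0 : ℝ) 1, c ≤ |(GG m a).eval s|) ∧
      ∀ x ∈ Set.Icc (-U) U, |(Nn (pol a) m).eval x| ≤ C := by
  classical
  -- upper bound
  have hC : ∃ C : ℝ, ∀ z ∈ KK K B ω ×ˢ Set.Icc (-U) U, |(Nn (pol z.1) m).eval z.2| ≤ C := by
    have h1 := ((KK_compact K B ω).prod (isCompact_Icc (a := -U) (b := U))).exists_bound_of_continuousOn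
      (cont_eval (K := K) m).continuousOn
    obtain ⟨C, hC⟩ := h1
    exact ⟨C, fun z hz => by simpa [Real.norm_eq_abs] using hC z hz⟩
  obtain ⟨C, hC⟩ := hC
  -- lower bound
  set D : ℕ := (2 * m + 3) * K with hD
  set F : (Fin (K + 1) → ℝ) → ℝ := fun a => ∑ i ∈ range (D + 1), |(GG m a).eval ((i : ℝ) / (D + 1))| with hF
  have hFc : Continuous F := by
    rw [hF]
    refine continuous_finsetSum _ fun i _ => ?_
    refine Continuous.abs ?_
    unfold GG
    simp only [eval_mul]
    have h1 : Continuous fun a : Fin (K + 1) → ℝ => (a, (i : ℝ) / ((D : ℝ) + 1)) :=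
      continuous_id.prodMk continuous_const
    exact ((cont_eval (K := K) m).comp h1).mul ((cont_eval (K := K) (m + 1)).comp h1)
  have hFpos : ∀ a ∈ KK K B ω, 0 < F a := by
    intro a ha
    have hdeg := KK_deg hω ha
    have hG : GG m a ≠ 0 := mul_ne_zero (Nn_ne_zero _ hdeg _) (Nn_ne_zero _ hdeg _)
    rw [hF]
    have h0 : ∀ i ∈ range (D + 1), 0 ≤ |(GG m a).eval ((i : ℝ) / (D + 1))| := fun i _ => abs_nonneg _
    rcases (Finset.sum_nonneg h0).eq_or_lt with h | h
    · exfalso
      have h1 := (Finset.sum_eq_zero_iff_of_nonneg h0).1 h.symm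
      apply hG
      refine Polynomial.eq_zero_of_natDegree_lt_card_of_eval_eq_zero' (GG m a)
        ((range (D + 1)).image fun i : ℕ => (i : ℝ) / ((D : ℝ) + 1)) ?_ ?_
      · intro x hx
        rw [mem_image] at hx
        obtain ⟨i, hi, rfl⟩ := hx
        exact abs_eq_zero.1 (h1 i hi)
      · rw [card_image_of_injective]
        · rw [card_range]
          have := GG_deg m a
          omega
        · intro i j hij
          simp only at hij
          rw [div_left_inj' (by positivity)] at hij
          exact_mod_cast hij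
    · exact h
  have hc : ∃ c : ℝ, 0 < c ∧ ∀ a ∈ KK K B ω, c ≤ F a := by
    rcases (KK K B ω).eq_empty_or_nonempty with he | hne
    · exact ⟨1, one_pos, fun a ha => by rw [he] at ha; exact absurd ha (Set.notMem_empty a)⟩
    · obtain ⟨a0, ha0, hmin⟩ := (KK_compact K B ω).exists_isMinOn hne hFc.continuousOn
      exact ⟨F a0, hFpos a0 ha0, fun a ha => hmin ha⟩
  obtain ⟨c, hc0, hc⟩ := hc
  refine ⟨c / (D + 1), max C 1, by positivity, le_max_right _ _, ?_⟩
  intro a ha
  constructor
  · by_contra hcon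
    push Not at hcon
    have h1 : F a < ∑ i ∈ range (D + 1), c / (D + 1) := by
      rw [hF]
      apply Finset.sum_lt_sum_of_nonempty ⟨0, by simp⟩
      intro i hi
      apply hcon
      rw [mem_range] at hi
      have hi' : (i : ℝ) ≤ D := by exact_mod_cast (by omega : i ≤ D)
      constructor
      · positivity
      · rw [div_le_one (by positivity)]
        linarith
    rw [sum_const, card_range, nsmul_eq_mul] at h1
    have h2 : ((D + 1 : ℕ) : ℝ) * (c / (D + 1)) = c := by
      push_cast; field_simp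
    rw [h2] at h1
    linarith [hc a ha]
  · intro x hx
    exact (hC (a, x) ⟨ha, hx⟩).trans (le_max_left _ _)

end Pool.Agent.U759.PV
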