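import Pool.Agent.U759.PV.Diff
import Pool.Agent.U759.PV.Nk

/-!
Decomposition into blocks, and the bound for a good block.
-/

set_option autoImplicit false

namespace Pool.Agent.U759.PV

open Finset Polynomial
open Pool.Agent.Helper153.Vdc (dd Cond ee vdc ee_norm)

theorem blocks (f : ℕ → ℂ) (L n0 : ℕ) (R : ℕ) : ‖∑ x ∈ range (min L (R * n0)), f x‖ ≤
    ∑ i ∈ range R, ‖∑ y ∈ range (min L ((i + 1) * n0) - min L (i * n0)), f (min L (i * n0) + y)‖ := by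
  induction R with
  | zero => simp
  | succ R ih =>
    rw [sum_range_succ]
    have h1 : min L (R * n0) ≤ min L ((R + 1) * n0) := by
      have : R * n0 ≤ (R + 1) * n0 := Nat.mul_le_mul_right n0 (by omega)
      omega
    have h2 : ∑ x ∈ range (min L ((R + 1) * n0)), f x = ∑ x ∈ range (min L (R * n0)), f x +
        ∑ y ∈ range (min L ((R + 1) * n0) - min L (R * n0)), f (min L (R * n0) + y) := by
      rw [← sum_Ico_eq_sum_range, range_eq_Ico, range_eq_Ico, sum_Ico_consecutive _ (Nat.zero_le _) h1]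
    rw [h2]
    exact (norm_add_le _ _).trans (add_le_add_left ih _)

/-- the statement of `vdcS` -/
def VS (k : ℕ) (σ C : ℝ) : Prop :=
  ∀ (N M : ℕ) (g : ℕ → ℝ) (lam s1 s2 : ℝ), 1 ≤ N → M ≤ N → (s1 = 1 ∨ s1 = -1) → (s2 = 1 ∨ s2 = -1) →
      (∀ n, n + k < M → lam ≤ s1 * dd k g n ∧ s1 * dd k g n ≤ 4 * lam) →
      (∀ n, n + (k + 1) < M → 0 ≤ s2 * dd (k + 1) g n) →
      (N : ℝ) ^ (-2 + 1 / 4 : ℝ) ≤ lam → lam ≤ (N : ℝ) ^ (-(1 / 4) : ℝ) →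
      ‖∑ n ∈ range M, ee (g n)‖ ≤ C * (N : ℝ) ^ (1 - σ)

theorem sgn_ex (y : ℝ) : ∃ s : ℝ, (s = 1 ∨ s = -1) ∧ s * y = |y| := by
  rcases le_total 0 y with h | h
  · exact ⟨1, Or.inl rfl, by rw [abs_of_nonneg h, one_mul]⟩
  · exact ⟨-1, Or.inr rfl, by rw [abs_of_nonpos h]; ring⟩

theorem sgn_bd {s y z r : ℝ} (hs : s = 1 ∨ s = -1) (h : |z - y| ≤ r) : |s * z - s * y| ≤ r := by
  rcases hs with rfl | rfl
  · simpa using h
  · rw [show (-1 : ℝ) * z - -1 * y = -(z - y) by ring, abs_neg]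
    exact h

theorem good (k : ℕ) (σ C : ℝ) (hC : 0 ≤ C) (hV : VS k σ C) (p : ℝ[X]) (g x0 ℓ n0 : ℕ) (ξ ρ Cφ : ℝ)
    (hg : 1 ≤ g) (hn0 : 1 ≤ n0) (hℓ : ℓ ≤ n0) (hξ : 0 < ξ) (hCφ : 0 ≤ Cφ)
    (hp : ∀ u : ℝ, x0 ≤ u * g → u * g + 1 ≤ x0 + ℓ →
      0 < p.eval u ∧ |phi p (k + 1) u| ≤ Cφ ∧ |phi p (k + 2) u| ≤ Cφ)
    (h1 : ρ ≤ |phi p k (x0 / g)|) (h2 : ρ ≤ |phi p (k + 1) (x0 / g)|) (h3 : Cφ * (n0 / g) ≤ ρ / 2)
    (hl1 : (n0 : ℝ) ^ (-2 + 1 / 4 : ℝ) ≤ ξ / (g : ℝ) ^ k * (|phi p k (x0 / g)| / 2))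
    (hl2 : ξ / (g : ℝ) ^ k * (|phi p k (x0 / g)| / 2) ≤ (n0 : ℝ) ^ (-(1 / 4) : ℝ)) :
    ‖∑ y ∈ range ℓ, ee (ξ * Real.log (p.eval (((x0 + y : ℕ) : ℝ) / g)))‖ ≤ C * (n0 : ℝ) ^ (1 - σ) := by
  rcases Nat.eq_zero_or_pos ℓ with h0 | hpos
  · subst h0
    simp only [range_zero, sum_empty, norm_zero]
    positivity
  have hg0 : (0 : ℝ) < g := by exact_mod_cast hg
  have hℓ1 : (1 : ℝ) ≤ ℓ := by exact_mod_cast hpos
  have hℓn : (ℓ : ℝ) ≤ n0 := by exact_mod_cast hℓ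
  set s : Set ℝ := Set.Icc ((x0 : ℝ) / g) (((x0 : ℝ) + ℓ - 1) / g) with hs
  have hmem : ∀ u ∈ s, (x0 : ℝ) ≤ u * g ∧ u * g + 1 ≤ x0 + ℓ := by
    intro u hu
    rw [hs, Set.mem_Icc, div_le_iff₀ hg0, le_div_iff₀ hg0] at hu
    exact ⟨hu.1, by linarith [hu.2]⟩
  have hu0 : (x0 : ℝ) / g ∈ s := by
    rw [hs, Set.mem_Icc]
    refine ⟨le_rfl, ?_⟩
    apply div_le_div_of_nonneg_right _ hg0.le
    linarith
  have hderF : ∀ m : ℕ, ∀ u ∈ s, HasDerivAt (phi p m) (phi p (m + 1) u) u := by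
    intro m u hu
    exact phi_deriv p m u (hp u (hmem u hu).1 (hmem u hu).2).1
  have hlip : ∀ m : ℕ, (∀ u ∈ s, |phi p (m + 1) u| ≤ Cφ) → ∀ u ∈ s,
      |phi p m u - phi p m (x0 / g)| ≤ ρ / 2 := by
    intro m hb u hu
    have h4 := Convex.norm_image_sub_le_of_norm_hasDerivWithin_le (f := phi p m) (f' := phi p (m + 1))
      (C := Cφ) (s := s) (x := (x0 : ℝ) / g) (y := u) (fun x hx => (hderF m x hx).hasDerivWithinAt)
      (fun x hx => by rw [Real.norm_eq_abs]; exact hb x hx) (convex_Icc _ _) hu0 hu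
    rw [Real.norm_eq_abs, Real.norm_eq_abs] at h4
    refine h4.trans (le_trans ?_ h3)
    apply mul_le_mul_of_nonneg_left _ hCφ
    rw [abs_of_nonneg (by linarith [(Set.mem_Icc.1 hu).1]), sub_le_iff_le_add]
    have h5 := (Set.mem_Icc.1 hu).2
    refine h5.trans ?_
    rw [← add_div]
    apply div_le_div_of_nonneg_right _ hg0.le
    linarith
  have hlk := hlip k fun u hu => (hp u (hmem u hu).1 (hmem u hu).2).2.1
  have hlk1 := hlip (k + 1) fun u hu => (hp u (hmem u hu).1 (hmem u hu).2).2.2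
  obtain ⟨s1, hs1, hs1'⟩ := sgn_ex (phi p k (x0 / g))
  obtain ⟨s2, hs2, hs2'⟩ := sgn_ex (phi p (k + 1) (x0 / g))
  set a0 : ℝ := |phi p k (x0 / g)| with ha0
  set lam : ℝ := ξ / (g : ℝ) ^ k * (a0 / 2) with hlam
  -- bounds of the derivatives
  have hb1 : ∀ u ∈ s, a0 / 2 ≤ s1 * phi p k u ∧ s1 * phi p k u ≤ 2 * a0 := by
    intro u hu
    have h4 := abs_le.1 (sgn_bd hs1 (hlk u hu))
    rw [hs1'] at h4
    constructor <;> linarith [h4.1, h4.2]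
  have hb2 : ∀ u ∈ s, 0 ≤ s2 * phi p (k + 1) u := by
    intro u hu
    have h4 := abs_le.1 (sgn_bd hs2 (hlk1 u hu))
    rw [hs2'] at h4
    have h5 : 0 ≤ ρ := by
      have : 0 ≤ Cφ * (n0 / g) := by positivity
      linarith
    linarith [h4.1]
  set F : ℕ → ℝ → ℝ := fun m x => ξ / (g : ℝ) ^ m * phi p m (x / g) with hF
  have hFder : ∀ m : ℕ, ∀ x ∈ Set.Icc (x0 : ℝ) (x0 + ℓ - 1), HasDerivAt (F m) (F (m + 1) x) x := by
    intro m x hx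
    have hxs : x / g ∈ s := by
      rw [hs, Set.mem_Icc]
      exact ⟨div_le_div_of_nonneg_right hx.1 hg0.le, div_le_div_of_nonneg_right hx.2 hg0.le⟩
    have h4 : HasDerivAt (fun x : ℝ => phi p m (x / g)) (phi p (m + 1) (x / g) * (1 / g)) x :=
      HasDerivAt.comp x (hderF m _ hxs) ((hasDerivAt_id x).div_const _)
    have h5 := h4.const_mul (ξ / (g : ℝ) ^ m)
    refine h5.congr_deriv ?_
    rw [hF]
    simp only
    rw [pow_succ]
    field_simp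
  have hxs : ∀ x ∈ Set.Icc (x0 : ℝ) (x0 + ℓ - 1), x / g ∈ s := by
    intro x hx
    rw [hs, Set.mem_Icc]
    exact ⟨div_le_div_of_nonneg_right hx.1 hg0.le, div_le_div_of_nonneg_right hx.2 hg0.le⟩
  have hξg : ∀ m : ℕ, 0 < ξ / (g : ℝ) ^ m := fun m => by positivity
  have hkey : ∀ n : ℕ, n + k < ℓ → lam ≤ s1 * dd k (fun n => F 0 (x0 + n)) n ∧
      s1 * dd k (fun n => F 0 (x0 + n)) n ≤ 4 * lam := by
    intro n hn
    have hn' : (n : ℝ) + k + 1 ≤ ℓ := by exact_mod_cast hn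
    have h4 := dd_mvt k (fun m x => s1 * F m x) x0 (x0 + ℓ - 1) lam (4 * lam) x0
      (fun m _ x hx => (hFder m x hx).const_mul s1) (fun x hx => ?_) n (by linarith [Nat.cast_nonneg (α := ℝ) n])
      (by linarith)
    · rw [dd_smul k s1 (fun n => F 0 (x0 + n)) n] at h4
      exact h4
    · have h5 := hb1 _ (hxs x hx)
      rw [hF, hlam]
      simp only
      have h6 : s1 * (ξ / (g : ℝ) ^ k * phi p k (x / g)) = ξ / (g : ℝ) ^ k * (s1 * phi p k (x / g)) := by ring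
      have h7 : 4 * (ξ / (g : ℝ) ^ k * (a0 / 2)) = ξ / (g : ℝ) ^ k * (2 * a0) := by ring
      rw [h6, h7]
      exact ⟨mul_le_mul_of_nonneg_left h5.1 (hξg k).le, mul_le_mul_of_nonneg_left h5.2 (hξg k).le⟩
  have hkey2 : ∀ n : ℕ, n + (k + 1) < ℓ → 0 ≤ s2 * dd (k + 1) (fun n => F 0 (x0 + n)) n := by
    intro n hn
    have hn' : (n : ℝ) + ((k + 1 : ℕ) : ℝ) + 1 ≤ ℓ := by exact_mod_cast hn
    -- upper bound not needed: use a crude one
    obtain ⟨hi, hhi⟩ : ∃ hi : ℝ, hi = s2 * (ξ / (g : ℝ) ^ (k + 1)) * 0 +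
        ξ / (g : ℝ) ^ (k + 1) * (|phi p (k + 1) (x0 / g)| + ρ / 2) := ⟨_, rfl⟩
    have h4 := dd_mvt (k + 1) (fun m x => s2 * F m x) x0 (x0 + ℓ - 1) 0 hi x0
      (fun m _ x hx => (hFder m x hx).const_mul s2) (fun x hx => ?_) n (by linarith [Nat.cast_nonneg (α := ℝ) n])
      (by linarith)
    · rw [dd_smul (k + 1) s2 (fun n => F 0 (x0 + n)) n] at h4
      exact h4.1
    · have h5 := hb2 _ (hxs x hx)
      have h5' := abs_le.1 (sgn_bd hs2 (hlk1 _ (hxs x hx)))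
      rw [hs2'] at h5'
      rw [hF, hhi]
      simp only
      have h6 : s2 * (ξ / (g : ℝ) ^ (k + 1) * phi p (k + 1) (x / g)) =
        ξ / (g : ℝ) ^ (k + 1) * (s2 * phi p (k + 1) (x / g)) := by ring
      rw [h6, mul_zero, zero_add]
      refine ⟨mul_nonneg (hξg _).le h5, mul_le_mul_of_nonneg_left ?_ (hξg _).le⟩
      linarith [h5'.2]
  have hfin := hV n0 ℓ (fun n => F 0 (x0 + n)) lam s1 s2 hn0 hℓ hs1 hs2 hkey hkey2 hl1 hl2
  refine le_trans (le_of_eq ?_) hfin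
  congr 1
  apply sum_congr rfl
  intro y _
  rw [hF]
  simp [phi]

end Pool.Agent.U759.PV
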