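import Pool.Agent.Helper153.FacC

/-!
The derivative test for arbitrary signs of the two derivatives, and differences by derivatives.
-/

set_option autoImplicit false

namespace Pool.Agent.U759.PV

open Finset
open Pool.Agent.Helper153.Vdc (dd Cond ee vdc ee_norm)

theorem dd_congr (k : ℕ) : ∀ (g g' : ℕ → ℝ) (n : ℕ), (∀ i ≤ k, g (n + i) = g' (n + i)) →
    dd k g n = dd k g' n := by
  induction k with
  | zero => intro g g' n h; simpa [dd] using h 0 le_rfl
  | succ k ih =>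
    intro g g' n h
    simp only [dd]
    apply ih
    intro i hi
    rw [h i (by omega), show n + i + 1 = n + (i + 1) by ring, h (i + 1) (by omega)]

theorem dd_smul (k : ℕ) (s : ℝ) : ∀ (g : ℕ → ℝ) (n : ℕ), dd k (fun n => s * g n) n = s * dd k g n := by
  induction k with
  | zero => intro g n; rfl
  | succ k ih =>
    intro g n
    simp only [dd]
    rw [← ih (fun n => g (n + 1) - g n) n]
    congr 1
    funext m
    ring

theorem dd_reflect (k : ℕ) : ∀ (g : ℕ → ℝ) (M n : ℕ), n + k < M →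
    dd k (fun n => g (M - 1 - n)) n = (-1) ^ k * dd k g (M - 1 - n - k) := by
  induction k with
  | zero => intro g M n h; simp [dd]
  | succ k ih =>
    intro g M n h
    have h1 := ih (fun j => g (j + 1) - g j) (M - 1) n (by omega)
    simp only [dd]
    have e1 : dd k (fun n => g (M - 1 - (n + 1)) - g (M - 1 - n)) n =
        dd k (fun n => (-1) * (g (M - 1 - 1 - n + 1) - g (M - 1 - 1 - n))) n := by
      apply dd_congr
      intro i hi
      have e2 : M - 1 - (n + i + 1) = M - 1 - 1 - (n + i) := by omega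
      have e3 : M - 1 - (n + i) = M - 1 - 1 - (n + i) + 1 := by omega
      rw [e2, e3]
      ring
    rw [e1, dd_smul, h1]
    have e4 : M - 1 - 1 - n - k = M - 1 - n - (k + 1) := by omega
    rw [e4, pow_succ]
    ring

theorem ee_neg (x : ℝ) : ee (-x) = (starRingEnd ℂ) (ee x) := by
  unfold ee
  rw [← Complex.exp_conj]
  congr 1
  simp only [map_mul, Complex.conj_ofReal, Complex.conj_I, Complex.conj_ofNat]
  push_cast
  ring

theorem norm_sum_neg (s : Finset ℕ) (g : ℕ → ℝ) : ‖∑ n ∈ s, ee (-(g n))‖ = ‖∑ n ∈ s, ee (g n)‖ := by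
  simp only [ee_neg]
  rw [← map_sum, RCLike.norm_conj]

/-- the derivative test for arbitrary signs -/
theorem vdcS (k : ℕ) (hk : 2 ≤ k) : ∃ σ : ℝ, 0 < σ ∧ ∃ C : ℝ, 1 ≤ C ∧
    ∀ (N M : ℕ) (g : ℕ → ℝ) (lam s1 s2 : ℝ), 1 ≤ N → M ≤ N → (s1 = 1 ∨ s1 = -1) → (s2 = 1 ∨ s2 = -1) →
      (∀ n, n + k < M → lam ≤ s1 * dd k g n ∧ s1 * dd k g n ≤ 4 * lam) →
      (∀ n, n + (k + 1) < M → 0 ≤ s2 * dd (k + 1) g n) →
      (N : ℝ) ^ (-2 + 1 / 4 : ℝ) ≤ lam → lam ≤ (N : ℝ) ^ (-(1 / 4) : ℝ) →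
      ‖∑ n ∈ range M, ee (g n)‖ ≤ C * (N : ℝ) ^ (1 - σ) := by
  obtain ⟨σ, hσ, C, hC, h⟩ := vdc k hk 4 (by norm_num) (1 / 4) (by norm_num) (by norm_num)
  refine ⟨σ, hσ, C, hC, ?_⟩
  intro N M g lam s1 s2 hN hMN hs1 hs2 h1 h2 hl1 hl2
  have norm_mul_eq : ∀ (s : ℝ) (G : ℕ → ℝ), (s = 1 ∨ s = -1) →
      ‖∑ n ∈ range M, ee (s * G n)‖ = ‖∑ n ∈ range M, ee (G n)‖ := by
    intro s G hs
    rcases hs with rfl | rfl
    · simp
    · simp only [neg_mul, one_mul]
      exact norm_sum_neg _ _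
  by_cases hss : s1 = s2
  · subst hss
    have h3 := h N M (fun n => s1 * g n) lam hN hMN ⟨fun n hn => ?_, fun n hn => ?_⟩ hl1 hl2
    · rwa [norm_mul_eq s1 g hs1] at h3
    · rw [dd_smul]; exact h1 n hn
    · rw [dd_smul]; exact h2 n hn
  · have hs12 : s2 = -s1 := by
      rcases hs1 with rfl | rfl <;> rcases hs2 with rfl | rfl <;> simp_all
    have hpow : ((-1 : ℝ) ^ k) = 1 ∨ ((-1 : ℝ) ^ k) = -1 := neg_one_pow_eq_or ℝ k
    have hsq : ((-1 : ℝ) ^ k) * (-1) ^ k = 1 := by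
      rw [← mul_pow]; norm_num
    set s : ℝ := s1 * (-1) ^ k with hs
    have hs' : s = 1 ∨ s = -1 := by
      rcases hs1 with h | h <;> rcases hpow with h' | h' <;> rw [hs, h, h'] <;> norm_num
    have hrefl : ∑ n ∈ range M, ee (s * g (M - 1 - n)) = ∑ n ∈ range M, ee (s * g n) :=
      Finset.sum_range_reflect (fun n => ee (s * g n)) M
    have h3 := h N M (fun n => s * g (M - 1 - n)) lam hN hMN ⟨fun n hn => ?_, fun n hn => ?_⟩ hl1 hl2
    · rw [hrefl, norm_mul_eq s g hs'] at h3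
      exact h3
    · rw [dd_smul k s (fun n => g (M - 1 - n)) n, dd_reflect k g M n hn]
      have e : s * ((-1) ^ k * dd k g (M - 1 - n - k)) = s1 * dd k g (M - 1 - n - k) := by
        rw [hs]
        calc s1 * (-1) ^ k * ((-1) ^ k * dd k g (M - 1 - n - k))
            = s1 * ((-1) ^ k * (-1) ^ k) * dd k g (M - 1 - n - k) := by ring
          _ = _ := by rw [hsq, mul_one]
      rw [e]
      exact h1 _ (by omega)
    · rw [dd_smul (k + 1) s (fun n => g (M - 1 - n)) n, dd_reflect (k + 1) g M n hn]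
      have e : s * ((-1) ^ (k + 1) * dd (k + 1) g (M - 1 - n - (k + 1))) =
          s2 * dd (k + 1) g (M - 1 - n - (k + 1)) := by
        rw [hs, hs12, pow_succ]
        calc s1 * (-1) ^ k * ((-1) ^ k * -1 * dd (k + 1) g (M - 1 - n - (k + 1)))
            = -s1 * ((-1) ^ k * (-1) ^ k) * dd (k + 1) g (M - 1 - n - (k + 1)) := by ring
          _ = _ := by rw [hsq, mul_one]
      rw [e]
      exact h2 _ (by omega)

/-- differences lie between the bounds of the derivative -/
theorem dd_mvt (k : ℕ) : ∀ (φ : ℕ → ℝ → ℝ) (a b lo hi u : ℝ),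
    (∀ m < k, ∀ x ∈ Set.Icc a b, HasDerivAt (φ m) (φ (m + 1) x) x) →
    (∀ x ∈ Set.Icc a b, lo ≤ φ k x ∧ φ k x ≤ hi) →
    ∀ n : ℕ, a ≤ u + n → u + n + k ≤ b →
      lo ≤ dd k (fun n => φ 0 (u + n)) n ∧ dd k (fun n => φ 0 (u + n)) n ≤ hi := by
  induction k with
  | zero =>
    intro φ a b lo hi u _ h n hn1 hn2
    simp only [dd]
    apply h
    constructor
    · exact hn1
    · simpa using hn2
  | succ k ih =>
    intro φ a b lo hi u hd h n hn1 hn2
    push_cast at hn2
    have e : (fun n : ℕ => φ 0 (u + ((n + 1 : ℕ) : ℝ)) - φ 0 (u + n)) =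
        fun n : ℕ => (fun m x => φ m (x + 1) - φ m x) 0 (u + n) := by
      funext j
      simp only
      congr 2
      push_cast
      ring
    have h3 := ih (fun m x => φ m (x + 1) - φ m x) a (b - 1) lo hi u ?_ ?_ n hn1 (by linarith)
    · simp only [dd]
      rw [e]
      exact h3
    · intro m hm x hx
      have h1 := hd m (by omega) x ⟨hx.1, by linarith [hx.2]⟩
      have h2 := hd m (by omega) (x + 1) ⟨by linarith [hx.1], by linarith [hx.2]⟩
      exact (h2.comp_add_const x 1).sub h1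
    · intro x hx
      have hlt : x < x + 1 := by linarith
      obtain ⟨c, hc, hc2⟩ := exists_hasDerivAt_eq_slope (φ k) (φ (k + 1)) hlt
        (fun y hy => (hd k (by omega) y ⟨hx.1.trans hy.1, by linarith [hy.2, hx.2]⟩).continuousAt.continuousWithinAt)
        (fun y hy => hd k (by omega) y ⟨hx.1.trans hy.1.le, by linarith [hy.2, hx.2]⟩)
      have h4 := h c ⟨hx.1.trans hc.1.le, by linarith [hc.2, hx.2]⟩
      have h5 : φ (k + 1) c = φ k (x + 1) - φ k x := by
        rw [hc2]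
        simp
      rw [h5] at h4
      exact h4

end Pool.Agent.U759.PV
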