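import Mathlib

/-!
A polynomial is small at few points of an arithmetic progression.
-/

set_option autoImplicit false

namespace Pool.Agent.U759.PV

open Finset Polynomial

theorem enum (I : Finset ℕ) : ∃ f : ℕ → ℕ, (∀ i < I.card, f i ∈ I) ∧
    ∀ i j, i ≤ j → j < I.card → f i + (j - i) ≤ f j := by
  classical
  set f : ℕ → ℕ := fun i => if h : i < I.card then I.orderEmbOfFin rfl ⟨i, h⟩ else 0 with hf
  have hf1 : ∀ i (h : i < I.card), f i = I.orderEmbOfFin rfl ⟨i, h⟩ := by
    intro i h
    rw [hf]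
    simp only [dif_pos h]
  refine ⟨f, ?_, ?_⟩
  · intro i hi
    rw [hf1 i hi]
    exact I.orderEmbOfFin_mem rfl _
  · intro i j hij hj
    induction j, hij using Nat.le_induction with
    | base => simp
    | succ j hij ih =>
      have h1 := ih (by omega)
      have h2 : f j < f (j + 1) := by
        rw [hf1 j (by omega), hf1 (j + 1) hj]
        exact (I.orderEmbOfFin rfl).strictMono (by simp [Fin.lt_def])
      omega

theorem sub (G : ℝ[X]) (D : ℕ) (hG : G.natDegree ≤ D) (h U δ c s : ℝ) (hh : 0 < h) (hU : 1 ≤ U)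
    (hs : s ∈ Set.Icc (0 : ℝ) 1) (hc : c ≤ |G.eval s|) (I : Finset ℕ) (hδ : 0 ≤ δ)
    (hI : ∀ i ∈ I, (i : ℝ) * h ≤ U ∧ |G.eval (i * h)| ≤ δ) (g : ℕ) (hg1 : 1 ≤ g) (hg : (D + 1) * g ≤ I.card) :
    c * (g * h) ^ D ≤ (D + 1) * δ * U ^ D := by
  classical
  obtain ⟨f, hf1, hf2⟩ := enum I
  have hg0 : (0 : ℝ) < g := by exact_mod_cast hg1
  have hgh : 0 < (g : ℝ) * h := by positivity
  set v : ℕ → ℝ := fun l => (f (l * g) : ℝ) * h with hv
  have hlt : ∀ l ∈ range (D + 1), l * g < I.card := by
    intro l hl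
    rw [mem_range] at hl
    have h1 : (l + 1) * g ≤ (D + 1) * g := Nat.mul_le_mul_right g (by omega)
    have h2 : (l + 1) * g = l * g + g := by ring
    omega
  have hgap : ∀ l l', l < l' → l' ∈ range (D + 1) → (g : ℝ) * h ≤ v l' - v l := by
    intro l l' hll hl'
    have h1 := hf2 (l * g) (l' * g) (Nat.mul_le_mul_right g hll.le) (hlt l' hl')
    have h2 : g ≤ l' * g - l * g := by
      rw [← Nat.sub_mul]
      exact Nat.le_mul_of_pos_left g (by omega)
    have h3 : f (l * g) + g ≤ f (l' * g) := by omega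
    have h4 : (f (l * g) : ℝ) + g ≤ f (l' * g) := by exact_mod_cast h3
    rw [hv]
    simp only
    nlinarith
  have hgap2 : ∀ l ∈ range (D + 1), ∀ l' ∈ range (D + 1), l ≠ l' → (g : ℝ) * h ≤ |v l - v l'| := by
    intro l hl l' hl' hne
    rcases lt_or_gt_of_ne hne with h1 | h1
    · rw [abs_sub_comm]
      exact (hgap l l' h1 hl').trans (le_abs_self _)
    · exact (hgap l' l h1 hl).trans (le_abs_self _)
  have hinj : Set.InjOn v (range (D + 1) : Finset ℕ) := by
    intro l hl l' hl' heq
    by_contra hne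
    have := hgap2 l hl l' hl' hne
    rw [heq, sub_self, abs_zero] at this
    linarith
  have hdeg : G.degree < ((range (D + 1)).card : WithBot ℕ) := by
    rw [card_range]
    refine lt_of_le_of_lt degree_le_natDegree ?_
    exact_mod_cast (by omega : G.natDegree < D + 1)
  have hint := Lagrange.eq_interpolate hinj hdeg
  have heval : G.eval s = ∑ l ∈ range (D + 1), G.eval (v l) *
      ∏ l' ∈ (range (D + 1)).erase l, ((v l - v l')⁻¹ * (s - v l')) := by
    conv_lhs => rw [hint]
    rw [Lagrange.interpolate_apply, eval_finsetSum]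
    apply sum_congr rfl
    intro l _
    rw [eval_mul, eval_C, Lagrange.basis, eval_prod]
    congr 1
    apply prod_congr rfl
    intro l' _
    simp [Lagrange.basisDivisor]
  have hvI : ∀ l ∈ range (D + 1), 0 ≤ v l ∧ v l ≤ U ∧ |G.eval (v l)| ≤ δ := by
    intro l hl
    have h1 := hI _ (hf1 _ (hlt l hl))
    refine ⟨by rw [hv]; positivity, h1.1, h1.2⟩
  have hprod : ∀ l ∈ range (D + 1), |∏ l' ∈ (range (D + 1)).erase l, ((v l - v l')⁻¹ * (s - v l'))| ≤
      (U / (g * h)) ^ D := by
    intro l hl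
    rw [abs_prod]
    have h1 : ∀ l' ∈ (range (D + 1)).erase l, |(v l - v l')⁻¹ * (s - v l')| ≤ U / (g * h) := by
      intro l' hl'
      rw [mem_erase] at hl'
      have h2 := hgap2 l hl l' hl'.2 (Ne.symm hl'.1)
      have h3 := hvI l' hl'.2
      have h4 : |s - v l'| ≤ U := by
        rw [abs_le]
        constructor <;> linarith [hs.1, hs.2, h3.1, h3.2.1]
      rw [abs_mul, abs_inv, div_eq_inv_mul]
      exact mul_le_mul (inv_anti₀ hgh h2) h4 (abs_nonneg _) (by positivity)
    calc ∏ l' ∈ (range (D + 1)).erase l, |(v l - v l')⁻¹ * (s - v l')|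
        ≤ ∏ l' ∈ (range (D + 1)).erase l, (U / (g * h)) :=
          prod_le_prod (fun _ _ => abs_nonneg _) h1
      _ = _ := by
          rw [prod_const, card_erase_of_mem hl, card_range, Nat.add_sub_cancel]
  have hfin : |G.eval s| ≤ (D + 1) * δ * (U / (g * h)) ^ D := by
    rw [heval]
    refine (abs_sum_le_sum_abs _ _).trans ?_
    calc ∑ l ∈ range (D + 1), |G.eval (v l) * ∏ l' ∈ (range (D + 1)).erase l, ((v l - v l')⁻¹ * (s - v l'))|
        ≤ ∑ l ∈ range (D + 1), δ * (U / (g * h)) ^ D := by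
          apply sum_le_sum
          intro l hl
          rw [abs_mul]
          exact mul_le_mul (hvI l hl).2.2 (hprod l hl) (abs_nonneg _) hδ
      _ = _ := by
          rw [sum_const, card_range, nsmul_eq_mul]
          push_cast
          ring
  have h5 := hc.trans hfin
  rw [div_pow, mul_div_assoc'] at h5
  rwa [le_div_iff₀ (by positivity)] at h5

end Pool.Agent.U759.PV
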