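import Pool.Agent.U759.PV.Blk
import Pool.Agent.U759.PV.Sub

/-!
The exponential sum for one order of the derivative.
-/

set_option autoImplicit false

namespace Pool.Agent.U759.PV

open Finset Polynomial
open Pool.Agent.Helper153.Vdc (dd Cond ee vdc ee_norm)

theorem phi_bd {K : ℕ} {a : Fin (K + 1) → ℝ} {m : ℕ} {u C : ℝ} (hC : 0 ≤ C) (h1 : 1 / 2 ≤ (pol a).eval u)
    (h : |(Nn (pol a) m).eval u| ≤ C) : |phi (pol a) (m + 1) u| ≤ C * 2 ^ (m + 1) := by
  have hp : 0 < (pol a).eval u := by linarith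
  show |(Nn (pol a) m).eval u / (pol a).eval u ^ (m + 1)| ≤ _
  rw [abs_div, abs_of_pos (pow_pos hp _), div_le_iff₀ (pow_pos hp _)]
  have h2 : 1 ≤ 2 ^ (m + 1) * (pol a).eval u ^ (m + 1) := by
    rw [← mul_pow]
    apply one_le_pow₀
    linarith
  calc |(Nn (pol a) m).eval u| ≤ C * 1 := by rwa [mul_one]
    _ ≤ C * (2 ^ (m + 1) * (pol a).eval u ^ (m + 1)) := mul_le_mul_of_nonneg_left h2 hC
    _ = _ := by ring

theorem phi_low {K : ℕ} {a : Fin (K + 1) → ℝ} {m n : ℕ} {u y : ℝ} (hmn : m + 1 ≤ n) (hy : 0 ≤ y)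
    (h1 : 1 / 2 ≤ (pol a).eval u) (h2 : (pol a).eval u ≤ 3) (h : y * 3 ^ n ≤ |(Nn (pol a) m).eval u|) :
    y ≤ |phi (pol a) (m + 1) u| := by
  have hp : 0 < (pol a).eval u := by linarith
  show _ ≤ |(Nn (pol a) m).eval u / (pol a).eval u ^ (m + 1)|
  rw [abs_div, abs_of_pos (pow_pos hp _), le_div_iff₀ (pow_pos hp _)]
  refine le_trans (mul_le_mul_of_nonneg_left ?_ hy) h
  calc (pol a).eval u ^ (m + 1) ≤ 3 ^ (m + 1) := pow_le_pow_left₀ hp.le h2 _
    _ ≤ 3 ^ n := pow_le_pow_right₀ (by norm_num) hmn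

theorem ker1 (K k : ℕ) (hK : 1 ≤ K) (hk : 2 ≤ k) (B ω U : ℝ) (hω : 0 < ω) (hU : 1 ≤ U) :
    ∃ κ C : ℝ, 0 < κ ∧ κ ≤ 1 ∧ 1 ≤ C ∧ ∀ (g L : ℕ) (a : Fin (K + 1) → ℝ) (ξ : ℝ), 1 ≤ g → (L : ℝ) ≤ U * g →
      a ∈ KK K B ω →
      (∀ u : ℝ, 0 ≤ u → u * g + 1 ≤ L → 1 / 2 ≤ (pol a).eval u ∧ (pol a).eval u ≤ 3) →
      (g : ℝ) ^ (k - 3 / 2 : ℝ) ≤ ξ → ξ ≤ (g : ℝ) ^ (k - 1 / 2 : ℝ) →
      ‖∑ x ∈ range L, ee (ξ * Real.log ((pol a).eval ((x : ℝ) / g)))‖ ≤ C * (g : ℝ) ^ (1 - κ) := by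
  classical
  obtain ⟨m, rfl⟩ : ∃ m, k = m + 1 := ⟨k - 1, by omega⟩
  obtain ⟨σ0, hσ0, C0, hC0, hV⟩ := vdcS (m + 1) hk
  obtain ⟨c1, C1, hc1, hC1, hb1⟩ := bounds K m B ω U hω
  obtain ⟨c2, C2, hc2, hC2, hb2⟩ := bounds K (m + 1) B ω U hω
  obtain ⟨c3, C3, hc3, hC3, hb3⟩ := bounds K (m + 2) B ω U hω
  obtain ⟨Ch, hCh⟩ : ∃ Ch : ℝ, Ch = max C1 (max C2 C3) := ⟨_, rfl⟩
  have hCh1 : C1 ≤ Ch := hCh ▸ le_max_left _ _
  have hCh2 : C2 ≤ Ch := hCh ▸ (le_max_left _ _).trans (le_max_right _ _)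
  have hCh3 : C3 ≤ Ch := hCh ▸ (le_max_right _ _).trans (le_max_right _ _)
  have hCh' : 1 ≤ Ch := hC1.trans hCh1
  obtain ⟨Cφ, hCφ⟩ : ∃ Cφ : ℝ, Cφ = Ch * 2 ^ (m + 3) := ⟨_, rfl⟩
  have hCφ1 : 1 ≤ Cφ := by
    rw [hCφ]
    exact one_le_mul_of_one_le_of_one_le hCh' (one_le_pow₀ (by norm_num))
  obtain ⟨D, hD⟩ : ∃ D : ℕ, D = (2 * m + 3) * K := ⟨_, rfl⟩
  have hD1 : 1 ≤ D := by
    rw [hD]
    exact Nat.mul_pos (by omega) (by omega)
  have hD1r : (1 : ℝ) ≤ D := by exact_mod_cast hD1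
  obtain ⟨Cδ, hCδ⟩ : ∃ Cδ : ℝ, Cδ = 2 * Cφ * Ch * 3 ^ (m + 2) := ⟨_, rfl⟩
  have hCδ0 : 0 < Cδ := by rw [hCδ]; positivity
  obtain ⟨σ, hσ⟩ : ∃ σ : ℝ, σ = min σ0 1 := ⟨_, rfl⟩
  have hσpos : 0 < σ := by rw [hσ]; exact lt_min hσ0 one_pos
  have hσ1 : σ ≤ 1 := by rw [hσ]; exact min_le_right _ _
  have hσσ0 : σ ≤ σ0 := by rw [hσ]; exact min_le_left _ _
  obtain ⟨κ, hκ⟩ : ∃ κ : ℝ, κ = min (σ / 2) (1 / (20 * D)) := ⟨_, rfl⟩
  have hκ0 : 0 < κ := by rw [hκ]; positivity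
  have hκσ : κ ≤ σ / 2 := by rw [hκ]; exact min_le_left _ _
  have hκD : κ ≤ 1 / (20 * D) := by rw [hκ]; exact min_le_right _ _
  have hκ20 : κ ≤ 1 / 20 := by
    refine hκD.trans ?_
    apply one_div_le_one_div_of_le (by norm_num)
    linarith
  obtain ⟨X, hX⟩ : ∃ X : ℝ, X = 4 * Cφ := ⟨_, rfl⟩
  have hX1 : 1 ≤ X := by rw [hX]; linarith
  obtain ⟨Y, hY⟩ : ∃ Y : ℝ, Y = max 1 ((D + 1) * Cδ / c1) := ⟨_, rfl⟩
  have hY1 : 1 ≤ Y := by rw [hY]; exact le_max_left _ _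
  have hY2 : (D + 1) * Cδ / c1 ≤ Y := by rw [hY]; exact le_max_right _ _
  have hXp : 1 ≤ X ^ (80 / 9 : ℝ) := Real.one_le_rpow hX1 (by norm_num)
  refine ⟨κ, U * X ^ (80 / 9 : ℝ) + (4 * U * C0 + (D + 1) * (U * Y + 1)), hκ0, by linarith, ?_, ?_⟩
  · have h1 : 1 ≤ U * X ^ (80 / 9 : ℝ) := one_le_mul_of_one_le_of_one_le hU hXp
    have h2 : 0 ≤ 4 * U * C0 := by positivity
    have h3 : 0 ≤ ((D : ℝ) + 1) * (U * Y + 1) := by positivity
    linarith
  intro g L a ξ hg hL ha hpu hξ1 hξ2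
  have hg1 : (1 : ℝ) ≤ g := by exact_mod_cast hg
  have hg0 : (0 : ℝ) < g := by linarith
  have hgκ0 : 0 < (g : ℝ) ^ (1 - κ) := by positivity
  have hgκ : (g : ℝ) = (g : ℝ) ^ κ * (g : ℝ) ^ (1 - κ) := by
    rw [← Real.rpow_add hg0, show κ + (1 - κ) = 1 by ring, Real.rpow_one]
  have htriv : ‖∑ x ∈ range L, ee (ξ * Real.log ((pol a).eval ((x : ℝ) / g)))‖ ≤ L := by
    refine (norm_sum_le _ _).trans ?_
    simp [ee_norm]
  rcases lt_or_ge ((g : ℝ) ^ (9 / 80 : ℝ)) X with hsmall | hbig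
  · -- bounded `g`
    have h1 : (g : ℝ) ≤ X ^ (80 / 9 : ℝ) := by
      calc (g : ℝ) = ((g : ℝ) ^ (9 / 80 : ℝ)) ^ (80 / 9 : ℝ) := by
            rw [← Real.rpow_mul hg0.le]; norm_num
        _ ≤ _ := Real.rpow_le_rpow (by positivity) hsmall.le (by norm_num)
    have h2 : (g : ℝ) ^ κ ≤ X ^ (80 / 9 : ℝ) := by
      calc (g : ℝ) ^ κ ≤ (g : ℝ) ^ (1 : ℝ) := Real.rpow_le_rpow_of_exponent_le hg1 (by linarith)
        _ = g := Real.rpow_one _
        _ ≤ _ := h1
    calc _ ≤ (L : ℝ) := htriv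
      _ ≤ U * g := hL
      _ = U * ((g : ℝ) ^ κ * (g : ℝ) ^ (1 - κ)) := by rw [← hgκ]
      _ ≤ U * (X ^ (80 / 9 : ℝ) * (g : ℝ) ^ (1 - κ)) := by gcongr
      _ = U * X ^ (80 / 9 : ℝ) * (g : ℝ) ^ (1 - κ) := by ring
      _ ≤ _ := by
          apply mul_le_mul_of_nonneg_right _ hgκ0.le
          have h2 : 0 ≤ 4 * U * C0 := by positivity
          have h3 : 0 ≤ ((D : ℝ) + 1) * (U * Y + 1) := by positivity
          linarith
  -- the length of the blocks
  obtain ⟨y, hy⟩ : ∃ y : ℝ, y = (g : ℝ) ^ (19 / 20 : ℝ) := ⟨_, rfl⟩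
  have hy1 : 1 ≤ y := by rw [hy]; exact Real.one_le_rpow hg1 (by norm_num)
  have hyg : y ≤ g := by
    rw [hy]
    calc (g : ℝ) ^ (19 / 20 : ℝ) ≤ (g : ℝ) ^ (1 : ℝ) := Real.rpow_le_rpow_of_exponent_le hg1 (by norm_num)
      _ = g := Real.rpow_one _
  obtain ⟨n0, hn0⟩ : ∃ n0 : ℕ, n0 = ⌊y⌋₊ := ⟨_, rfl⟩
  have hn01 : 1 ≤ n0 := by rw [hn0]; exact Nat.floor_pos.2 hy1
  have hn0r : (1 : ℝ) ≤ n0 := by exact_mod_cast hn01
  have hn0y : (n0 : ℝ) ≤ y := by rw [hn0]; exact Nat.floor_le (by linarith)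
  have hyn0 : y ≤ 2 * n0 := by
    have := Nat.lt_floor_add_one y
    rw [← hn0] at this
    linarith
  have hn0pos : (0 : ℝ) < n0 := by linarith
  set e : ℝ := (g : ℝ) ^ (-(1 / 20) : ℝ) with he
  have he0 : 0 < e := by positivity
  have hye : y = g * e := by
    rw [hy, he]
    nth_rw 2 [← Real.rpow_one (g : ℝ)]
    rw [← Real.rpow_add hg0]
    norm_num
  have hn0g : (n0 : ℝ) / g ≤ e := by
    rw [div_le_iff₀ hg0, mul_comm]
    rw [← hye]; exact hn0y
  set δ : ℝ := Cδ * e with hδ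
  have hδ0 : 0 < δ := by positivity
  set ρ : ℝ := 2 * Cφ * e with hρ
  have hρ0 : 0 < ρ := by positivity
  -- the blocks
  obtain ⟨R, hR⟩ : ∃ R : ℕ, R = L / n0 + 1 := ⟨_, rfl⟩
  have hRL : L ≤ R * n0 := by
    rw [hR]
    have := Nat.lt_div_mul_add (a := L) hn01
    have h2 : (L / n0 + 1) * n0 = L / n0 * n0 + n0 := by ring
    omega
  set f : ℕ → ℂ := fun x => ee (ξ * Real.log ((pol a).eval ((x : ℝ) / g))) with hf
  have hfn : ∀ x, ‖f x‖ = 1 := fun x => ee_norm _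
  have hdec := blocks f L n0 R
  rw [min_eq_left hRL] at hdec
  set ℓ : ℕ → ℕ := fun i => min L ((i + 1) * n0) - min L (i * n0) with hℓ
  have hℓn : ∀ i, ℓ i ≤ n0 := by
    intro i
    rw [hℓ]
    have : (i + 1) * n0 = i * n0 + n0 := by ring
    simp only
    omega
  set I : Finset ℕ := (range R).filter
    (fun i => i * n0 < L ∧ |(GG m a).eval ((i : ℝ) * (n0 / g))| ≤ δ) with hI
  have htrivblock : ∀ i, ‖∑ y ∈ range (ℓ i), f (min L (i * n0) + y)‖ ≤ n0 := by
    intro i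
    refine (norm_sum_le _ _).trans ?_
    simp only [hfn, sum_const, card_range, nsmul_eq_mul, mul_one]
    exact_mod_cast hℓn i
  have hgn : ∀ b : ℝ, 0 ≤ b → (g : ℝ) ^ (-b) ≤ 1 := fun b hb => Real.rpow_le_one_of_one_le_of_nonpos hg1 (by linarith)
  -- good blocks
  have hgood : ∀ i ∈ range R, i ∉ I → ‖∑ y ∈ range (ℓ i), f (min L (i * n0) + y)‖ ≤
      C0 * (n0 : ℝ) ^ (1 - σ0) := by
    intro i hi hiI
    by_cases hiL : i * n0 < L
    · have hG : δ < |(GG m a).eval ((i : ℝ) * (n0 / g))| := by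
        by_contra hcon
        push Not at hcon
        exact hiI (by rw [hI, mem_filter]; exact ⟨hi, hiL, hcon⟩)
      have hmin : min L (i * n0) = i * n0 := min_eq_right hiL.le
      have hu0 : ((i * n0 : ℕ) : ℝ) / g = (i : ℝ) * (n0 / g) := by push_cast; ring
      have hx0L : ((i * n0 : ℕ) : ℝ) + 1 ≤ L := by exact_mod_cast hiL
      have hx0ℓ : ((i * n0 : ℕ) : ℝ) + ℓ i ≤ L := by
        have : i * n0 + ℓ i ≤ L := by
          rw [hℓ]
          simp only [hmin]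
          omega
        exact_mod_cast this
      -- values of the polynomial
      have hval : ∀ u : ℝ, ((i * n0 : ℕ) : ℝ) ≤ u * g → u * g + 1 ≤ L →
          u ∈ Set.Icc (-U) U ∧ 1 / 2 ≤ (pol a).eval u ∧ (pol a).eval u ≤ 3 := by
        intro u hu1 hu2
        have h0 : 0 ≤ u * g := le_trans (Nat.cast_nonneg _) hu1
        have hu0' : 0 ≤ u := by
          by_contra h
          push Not at h
          have := mul_neg_of_neg_of_pos h hg0
          linarith
        have huU : u ≤ U := by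
          have h1 : u * g ≤ U * g := by linarith
          exact le_of_mul_le_mul_right h1 hg0
        exact ⟨⟨by linarith, huU⟩, hpu u hu0' hu2⟩
      have hv0 := hval ((i : ℝ) * (n0 / g)) (by
        rw [← hu0, div_mul_cancel₀ _ hg0.ne']) (by rw [← hu0, div_mul_cancel₀ _ hg0.ne']; exact hx0L)
      have hN1 := (hb1 a ha).2 _ hv0.1
      have hN2 := (hb2 a ha).2 _ hv0.1
      have hGm : |(GG m a).eval ((i : ℝ) * (n0 / g))| =
          |(Nn (pol a) m).eval ((i : ℝ) * (n0 / g))| * |(Nn (pol a) (m + 1)).eval ((i : ℝ) * (n0 / g))| := by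
        unfold GG
        rw [eval_mul, abs_mul]
      rw [hGm] at hG
      have hρδ : ρ * 3 ^ (m + 2) * Ch = δ := by rw [hρ, hδ, hCδ]; ring
      have hl1 : ρ * 3 ^ (m + 2) ≤ |(Nn (pol a) m).eval ((i : ℝ) * (n0 / g))| := by
        have h1 : ρ * 3 ^ (m + 2) * Ch ≤ |(Nn (pol a) m).eval ((i : ℝ) * (n0 / g))| * Ch := by
          rw [hρδ]
          exact hG.le.trans (mul_le_mul_of_nonneg_left (hN2.trans hCh2) (abs_nonneg _))
        exact le_of_mul_le_mul_right h1 (by linarith)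
      have hl2 : ρ * 3 ^ (m + 2) ≤ |(Nn (pol a) (m + 1)).eval ((i : ℝ) * (n0 / g))| := by
        have h1 : ρ * 3 ^ (m + 2) * Ch ≤ |(Nn (pol a) (m + 1)).eval ((i : ℝ) * (n0 / g))| * Ch := by
          rw [hρδ, mul_comm _ Ch]
          exact hG.le.trans (mul_le_mul_of_nonneg_right (hN1.trans hCh1) (abs_nonneg _))
        exact le_of_mul_le_mul_right h1 (by linarith)
      have hphik := phi_low (m := m) (n := m + 2) (by omega) hρ0.le hv0.2.1 hv0.2.2 hl1
      have hphik1 := phi_low (m := m + 1) (n := m + 2) (by omega) hρ0.le hv0.2.1 hv0.2.2 hl2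
      have hphiup : |phi (pol a) (m + 1) ((i : ℝ) * (n0 / g))| ≤ Cφ := by
        refine (phi_bd (by linarith) hv0.2.1 (hN1.trans hCh1)).trans ?_
        rw [hCφ]
        apply mul_le_mul_of_nonneg_left _ (by linarith)
        exact pow_le_pow_right₀ (by norm_num) (by omega)
      have hξ0 : 0 < ξ := lt_of_lt_of_le (Real.rpow_pos_of_pos hg0 _) hξ1
      have hgk : (g : ℝ) ^ (m + 1) = (g : ℝ) ^ ((m : ℝ) + 1) := by
        rw [← Real.rpow_natCast]; push_cast; rfl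
      have hr1 : (g : ℝ) ^ (-(3 / 2) : ℝ) ≤ ξ / (g : ℝ) ^ (m + 1) := by
        rw [le_div_iff₀ (by positivity), hgk, ← Real.rpow_add hg0]
        refine le_trans (le_of_eq ?_) hξ1
        congr 1; push_cast; ring
      have hr2 : ξ / (g : ℝ) ^ (m + 1) ≤ (g : ℝ) ^ (-(1 / 2) : ℝ) := by
        rw [div_le_iff₀ (by positivity), hgk, ← Real.rpow_add hg0]
        refine hξ2.trans (le_of_eq ?_)
        congr 1; push_cast; ring
      have hres := good (m + 1) σ0 C0 (by linarith) hV (pol a) g (i * n0) (ℓ i) n0 ξ ρ Cφ hg hn01 (hℓn i) hξ0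
        (by linarith) (by
          intro u hu1 hu2
          have h := hval u hu1 (by linarith)
          refine ⟨by linarith [h.2.1], ?_, ?_⟩
          · refine (phi_bd (by linarith) h.2.1 (((hb2 a ha).2 _ h.1).trans hCh2)).trans ?_
            rw [hCφ]
            apply mul_le_mul_of_nonneg_left _ (by linarith)
            exact pow_le_pow_right₀ (by norm_num) (by omega)
          · refine (phi_bd (by linarith) h.2.1 (((hb3 a ha).2 _ h.1).trans hCh3)).trans ?_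
            rw [hCφ]) (by rw [hu0]; exact hphik) (by rw [hu0]; exact hphik1) (by
          have : Cφ * (n0 / g) ≤ Cφ * e := mul_le_mul_of_nonneg_left hn0g (by linarith)
          rw [hρ]; linarith) (by
          rw [hu0]
          -- lower bound
          have h1 : (n0 : ℝ) ^ (-2 + 1 / 4 : ℝ) ≤ 4 * (g : ℝ) ^ (-(133 / 80) : ℝ) := by
            have h2 : y / 2 ≤ n0 := by linarith
            calc (n0 : ℝ) ^ (-2 + 1 / 4 : ℝ) ≤ (y / 2) ^ (-2 + 1 / 4 : ℝ) :=
                  Real.rpow_le_rpow_of_nonpos (by positivity) h2 (by norm_num)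
              _ = 2 ^ (7 / 4 : ℝ) * (g : ℝ) ^ (-(133 / 80) : ℝ) := by
                  rw [Real.div_rpow (by positivity) (by norm_num), hy, ← Real.rpow_mul hg0.le, div_eq_mul_inv,
                    ← Real.rpow_neg (by norm_num)]
                  rw [mul_comm]
                  norm_num
              _ ≤ 4 * (g : ℝ) ^ (-(133 / 80) : ℝ) := by
                  apply mul_le_mul_of_nonneg_right _ (by positivity)
                  calc (2 : ℝ) ^ (7 / 4 : ℝ) ≤ 2 ^ (2 : ℝ) :=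
                        Real.rpow_le_rpow_of_exponent_le (by norm_num) (by norm_num)
                    _ = 4 := by norm_num
          have h3 : 4 * (g : ℝ) ^ (-(133 / 80) : ℝ) ≤ Cφ * (g : ℝ) ^ (-(31 / 20) : ℝ) := by
            have h4 : (g : ℝ) ^ (-(31 / 20) : ℝ) = (g : ℝ) ^ (9 / 80 : ℝ) * (g : ℝ) ^ (-(133 / 80) : ℝ) := by
              rw [← Real.rpow_add hg0]; norm_num
            rw [h4, ← mul_assoc]
            apply mul_le_mul_of_nonneg_right _ (by positivity)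
            have h5 : X ≤ (g : ℝ) ^ (9 / 80 : ℝ) := hbig
            rw [hX] at h5
            nlinarith
          refine (h1.trans h3).trans ?_
          have h4 : Cφ * (g : ℝ) ^ (-(31 / 20) : ℝ) = (g : ℝ) ^ (-(3 / 2) : ℝ) * (ρ / 2) := by
            rw [hρ, he]
            have : (g : ℝ) ^ (-(31 / 20) : ℝ) = (g : ℝ) ^ (-(3 / 2) : ℝ) * (g : ℝ) ^ (-(1 / 20) : ℝ) := by
              rw [← Real.rpow_add hg0]; norm_num
            rw [this]; ring
          rw [h4]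
          exact mul_le_mul hr1 (by linarith) (by positivity) (by positivity)) (by
          rw [hu0]
          calc ξ / (g : ℝ) ^ (m + 1) * (|phi (pol a) (m + 1) ((i : ℝ) * (n0 / g))| / 2)
              ≤ (g : ℝ) ^ (-(1 / 2) : ℝ) * Cφ := by
                apply mul_le_mul hr2 _ (by positivity) (by positivity)
                linarith [abs_nonneg (phi (pol a) (m + 1) ((i : ℝ) * (n0 / g)))]
            _ ≤ (g : ℝ) ^ (-(1 / 2) : ℝ) * (g : ℝ) ^ (21 / 80 : ℝ) := by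
                apply mul_le_mul_of_nonneg_left _ (by positivity)
                have h5 : X ≤ (g : ℝ) ^ (9 / 80 : ℝ) := hbig
                have h6 : (g : ℝ) ^ (9 / 80 : ℝ) ≤ (g : ℝ) ^ (21 / 80 : ℝ) :=
                  Real.rpow_le_rpow_of_exponent_le hg1 (by norm_num)
                rw [hX] at h5
                linarith
            _ = y ^ (-(1 / 4) : ℝ) := by
                rw [← Real.rpow_add hg0, hy, ← Real.rpow_mul hg0.le]
                norm_num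
            _ ≤ (n0 : ℝ) ^ (-(1 / 4) : ℝ) := Real.rpow_le_rpow_of_nonpos hn0pos hn0y (by norm_num))
      rw [hmin]
      exact hres
    · have hmin : min L (i * n0) = L := min_eq_left (by omega)
      have : ℓ i = 0 := by
        rw [hℓ]
        simp only [hmin]
        omega
      rw [this]
      simp only [range_zero, sum_empty, norm_zero]
      positivity
  -- the number of the bad blocks
  have hIcard : (I.card : ℝ) * n0 ≤ (D + 1) * (U * Y + 1) * (g : ℝ) ^ (1 - κ) := by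
    obtain ⟨b, hb⟩ : ∃ b : ℕ, b = I.card / (D + 1) := ⟨_, rfl⟩
    have hcard : (I.card : ℝ) ≤ (D + 1) * (b + 1) := by
      have h1 : I.card < (D + 1) * (b + 1) := by
        rw [hb]
        have := Nat.lt_mul_div_succ I.card (show 0 < D + 1 by omega)
        simpa [Nat.succ_eq_add_one] using this
      exact_mod_cast h1.le
    have hbn : (b : ℝ) * n0 ≤ U * Y * (g : ℝ) ^ (1 - κ) := by
      rcases Nat.eq_zero_or_pos b with h0 | hbpos
      · rw [h0]
        simp only [Nat.cast_zero, zero_mul]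
        positivity
      obtain ⟨s, hs, hcs⟩ := (hb1 a ha).1
      have hsub := sub (GG m a) D (by rw [hD]; exact GG_deg m a) (n0 / g) U δ c1 s (by positivity) hU hs hcs I
        hδ0.le (by
          intro i hi
          rw [hI, mem_filter] at hi
          refine ⟨?_, hi.2.2⟩
          have h1 : ((i * n0 : ℕ) : ℝ) ≤ L := by exact_mod_cast hi.2.1.le
          push_cast at h1
          rw [mul_div_assoc', div_le_iff₀ hg0]
          linarith) b hbpos (by
          rw [hb]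
          exact Nat.mul_div_le _ _)
      have hD0 : (D : ℝ) ≠ 0 := by linarith
      have h2 : (b * (n0 / g) : ℝ) ≤ U * Y * (g : ℝ) ^ (-(1 / (20 * D)) : ℝ) := by
        apply le_of_pow_le_pow_left₀ (n := D) (by omega) (by positivity)
        have h3 : ((g : ℝ) ^ (-(1 / (20 * D)) : ℝ)) ^ D = e := by
          rw [← Real.rpow_natCast, ← Real.rpow_mul hg0.le, he]
          congr 1
          field_simp
        rw [mul_pow (U * Y), h3, mul_pow U Y]
        have h4 : c1 * (b * (n0 / g) : ℝ) ^ D ≤ c1 * (U ^ D * Y ^ D * e) := by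
          refine hsub.trans ?_
          have h5 : (D + 1) * Cδ ≤ Y * c1 := by rwa [div_le_iff₀ hc1] at hY2
          have h6 : Y ≤ Y ^ D := by
            calc Y = Y ^ 1 := (pow_one Y).symm
              _ ≤ _ := pow_le_pow_right₀ hY1 hD1
          calc ((D : ℝ) + 1) * δ * U ^ D = ((D + 1) * Cδ) * (e * U ^ D) := by rw [hδ]; ring
            _ ≤ (Y * c1) * (e * U ^ D) := mul_le_mul_of_nonneg_right h5 (by positivity)
            _ ≤ (Y ^ D * c1) * (e * U ^ D) := by gcongr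
            _ = _ := by ring
        exact le_of_mul_le_mul_left h4 hc1
      calc (b : ℝ) * n0 = (b * (n0 / g)) * g := by field_simp
        _ ≤ (U * Y * (g : ℝ) ^ (-(1 / (20 * D)) : ℝ)) * g := mul_le_mul_of_nonneg_right h2 hg0.le
        _ = U * Y * ((g : ℝ) ^ (-(1 / (20 * D)) : ℝ) * (g : ℝ) ^ (1 : ℝ)) := by rw [Real.rpow_one]; ring
        _ ≤ U * Y * (g : ℝ) ^ (1 - κ) := by
            rw [← Real.rpow_add hg0]
            have := Real.rpow_le_rpow_of_exponent_le hg1 (show -(1 / (20 * D)) + 1 ≤ 1 - κ by linarith)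
            gcongr
    have hn0κ : (n0 : ℝ) ≤ (g : ℝ) ^ (1 - κ) := by
      refine hn0y.trans ?_
      rw [hy]
      exact Real.rpow_le_rpow_of_exponent_le hg1 (by linarith)
    calc (I.card : ℝ) * n0 ≤ ((D + 1) * (b + 1)) * n0 := mul_le_mul_of_nonneg_right hcard hn0pos.le
      _ = (D + 1) * (b * n0 + n0) := by ring
      _ ≤ (D + 1) * (U * Y * (g : ℝ) ^ (1 - κ) + (g : ℝ) ^ (1 - κ)) := by gcongr
      _ = _ := by ring
  -- the good part
  have hgoodsum : (R : ℝ) * (C0 * (n0 : ℝ) ^ (1 - σ0)) ≤ 4 * U * C0 * (g : ℝ) ^ (1 - κ) := by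
    have hRn : (R : ℝ) * n0 ≤ 2 * U * g := by
      have h1 : R * n0 ≤ L + n0 := by
        rw [hR]
        have := Nat.div_mul_le_self L n0
        have h2 : (L / n0 + 1) * n0 = L / n0 * n0 + n0 := by ring
        omega
      have h2 : (R : ℝ) * n0 ≤ L + n0 := by exact_mod_cast h1
      have h3 : (n0 : ℝ) ≤ U * g := hn0y.trans (hyg.trans (le_mul_of_one_le_left hg0.le hU))
      linarith
    have h4 : (n0 : ℝ) ^ (1 - σ0) ≤ n0 * (n0 : ℝ) ^ (-σ) := by
      calc (n0 : ℝ) ^ (1 - σ0) ≤ (n0 : ℝ) ^ (1 + -σ) := Real.rpow_le_rpow_of_exponent_le hn0r (by linarith)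
        _ = _ := by rw [Real.rpow_add hn0pos, Real.rpow_one]
    have h5 : (n0 : ℝ) ^ (-σ) ≤ 2 * (g : ℝ) ^ (-κ) := by
      have h6 : y / 2 ≤ n0 := by linarith
      calc (n0 : ℝ) ^ (-σ) ≤ (y / 2) ^ (-σ) := Real.rpow_le_rpow_of_nonpos (by positivity) h6 (by linarith)
        _ = 2 ^ σ * (g : ℝ) ^ (-(19 / 20 * σ)) := by
            rw [Real.div_rpow (by positivity) (by norm_num), hy, ← Real.rpow_mul hg0.le, div_eq_mul_inv,
              ← Real.rpow_neg (by norm_num), neg_neg, mul_comm]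
            congr 2
            ring
        _ ≤ 2 * (g : ℝ) ^ (-κ) := by
            apply mul_le_mul _ _ (by positivity) (by norm_num)
            · calc (2 : ℝ) ^ σ ≤ 2 ^ (1 : ℝ) := Real.rpow_le_rpow_of_exponent_le (by norm_num) hσ1
                _ = 2 := Real.rpow_one _
            · exact Real.rpow_le_rpow_of_exponent_le hg1 (by linarith)
    calc (R : ℝ) * (C0 * (n0 : ℝ) ^ (1 - σ0)) ≤ R * (C0 * (n0 * (2 * (g : ℝ) ^ (-κ)))) := by
          have h7 : 0 ≤ (n0 : ℝ) ^ (1 - σ0) := by positivity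
          have h8 : (n0 : ℝ) ^ (1 - σ0) ≤ n0 * (2 * (g : ℝ) ^ (-κ)) :=
            h4.trans (mul_le_mul_of_nonneg_left h5 hn0pos.le)
          gcongr
      _ = C0 * (R * n0) * (2 * (g : ℝ) ^ (-κ)) := by ring
      _ ≤ C0 * (2 * U * g) * (2 * (g : ℝ) ^ (-κ)) := by
          have : 0 ≤ (g : ℝ) ^ (-κ) := by positivity
          gcongr
      _ = 4 * U * C0 * ((g : ℝ) ^ (1 : ℝ) * (g : ℝ) ^ (-κ)) := by rw [Real.rpow_one]; ring
      _ = _ := by rw [← Real.rpow_add hg0]; rfl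
  -- the sum
  have hsum : ∑ i ∈ range R, ‖∑ y ∈ range (ℓ i), f (min L (i * n0) + y)‖ ≤
      R * (C0 * (n0 : ℝ) ^ (1 - σ0)) + I.card * n0 := by
    have h1 : ∀ i ∈ range R, ‖∑ y ∈ range (ℓ i), f (min L (i * n0) + y)‖ ≤
        C0 * (n0 : ℝ) ^ (1 - σ0) + (if i ∈ I then (n0 : ℝ) else 0) := by
      intro i hi
      by_cases hiI : i ∈ I
      · rw [if_pos hiI]
        have := htrivblock i
        have h2 : 0 ≤ C0 * (n0 : ℝ) ^ (1 - σ0) := by positivity
        linarith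
      · rw [if_neg hiI, add_zero]
        exact hgood i hi hiI
    refine (sum_le_sum h1).trans (le_of_eq ?_)
    rw [sum_add_distrib, sum_const, card_range, nsmul_eq_mul, ← sum_filter]
    congr 1
    have h2 : (range R).filter (fun i => i ∈ I) = I := by
      ext i
      rw [mem_filter]
      constructor
      · exact fun h => h.2
      · exact fun h => ⟨(mem_filter.1 h).1, h⟩
    rw [h2, sum_const, nsmul_eq_mul]
  calc _ ≤ _ := hdec
    _ ≤ _ := hsum
    _ ≤ 4 * U * C0 * (g : ℝ) ^ (1 - κ) + (D + 1) * (U * Y + 1) * (g : ℝ) ^ (1 - κ) := add_le_add hgoodsum hIcard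
    _ = (4 * U * C0 + (D + 1) * (U * Y + 1)) * (g : ℝ) ^ (1 - κ) := by ring
    _ ≤ _ := by
        apply mul_le_mul_of_nonneg_right _ hgκ0.le
        have : 0 ≤ U * X ^ (80 / 9 : ℝ) := by positivity
        linarith

end Pool.Agent.U759.PV
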