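import Pool.Agent.U759.PV.Ker1
import Pool.Agent.TH705.DL.Core

/-!
The kernel: sums of `P(x)^{it}` over `x < L`, for polynomials `P` of bounded degree.
-/

set_option autoImplicit false

namespace Pool.Agent.U759.PV

open Finset Polynomial
open Pool.Agent.Helper153.Vdc (ee ee_norm)
open Pool.Agent.TH705.DL (ph ph_norm ph_eq)

/-- the statement of `ker1` -/
def KS (K k : ℕ) (B ω U κ C : ℝ) : Prop :=
  ∀ (g L : ℕ) (a : Fin (K + 1) → ℝ) (ξ : ℝ), 1 ≤ g → (L : ℝ) ≤ U * g → a ∈ KK K B ω →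
      (∀ u : ℝ, 0 ≤ u → u * g + 1 ≤ L → 1 / 2 ≤ (pol a).eval u ∧ (pol a).eval u ≤ 3) →
      (g : ℝ) ^ (k - 3 / 2 : ℝ) ≤ ξ → ξ ≤ (g : ℝ) ^ (k - 1 / 2 : ℝ) →
      ‖∑ x ∈ range L, ee (ξ * Real.log ((pol a).eval ((x : ℝ) / g)))‖ ≤ C * (g : ℝ) ^ (1 - κ)

theorem KS.mono {K k : ℕ} {B ω U κ κ' C C' : ℝ} (h : KS K k B ω U κ C) (hκ : κ' ≤ κ) (hC0 : 0 ≤ C) (hC : C ≤ C') :
    KS K k B ω U κ' C' := by
  intro g L a ξ hg hL ha hp h1 h2
  refine (h g L a ξ hg hL ha hp h1 h2).trans ?_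
  have hg1 : (1 : ℝ) ≤ g := by exact_mod_cast hg
  apply mul_le_mul hC _ (by positivity) (hC0.trans hC)
  exact Real.rpow_le_rpow_of_exponent_le hg1 (by linarith)

theorem ker1u (K : ℕ) (hK : 1 ≤ K) (B ω U : ℝ) (hω : 0 < ω) (hU : 1 ≤ U) (kmax : ℕ) :
    ∃ κ C : ℝ, 0 < κ ∧ κ ≤ 1 ∧ 1 ≤ C ∧ ∀ k : ℕ, 2 ≤ k → k ≤ kmax → KS K k B ω U κ C := by
  induction kmax with
  | zero => exact ⟨1, 1, one_pos, le_rfl, le_rfl, fun k h1 h2 => by omega⟩
  | succ n ih =>
    obtain ⟨κ1, C1, hκ1, hκ11, hC1, h1⟩ := ih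
    rcases lt_or_ge (n + 1) 2 with hn | hn
    · exact ⟨κ1, C1, hκ1, hκ11, hC1, fun k h2 h3 => by omega⟩
    · obtain ⟨κ2, C2, hκ2, hκ21, hC2, h2⟩ := ker1 K (n + 1) hK hn B ω U hω hU
      refine ⟨min κ1 κ2, max C1 C2, lt_min hκ1 hκ2, (min_le_left _ _).trans hκ11, le_max_of_le_left hC1, ?_⟩
      intro k hk2 hk
      rcases Nat.lt_or_ge k (n + 1) with h3 | h3
      · exact (h1 k hk2 (by omega)).mono (min_le_left _ _) (by linarith) (le_max_left _ _)
      · have : k = n + 1 := by omega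
        subst this
        have h4 : KS K (n + 1) B ω U κ2 C2 := by
          intro g L a ξ hg hL ha hp e1 e2
          exact h2 g L a ξ hg hL ha hp e1 e2
        exact h4.mono (min_le_right _ _) (by linarith) (le_max_right _ _)

/-- a bound for the coefficients by the values at `0, …, K` -/
theorem coeff_bd (K : ℕ) : ∃ B : ℝ, 1 ≤ B ∧ ∀ q : ℝ[X], q.natDegree ≤ K →
    (∀ l ≤ K, |q.eval (l : ℝ)| ≤ 2) → ∀ i, |q.coeff i| ≤ B := by
  classical
  set s : Finset ℕ := range (K + 1) with hs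
  set v : ℕ → ℝ := fun l => (l : ℝ) with hv
  obtain ⟨B, hB⟩ : ∃ B : ℝ, B = 1 + ∑ i ∈ range (K + 1), ∑ l ∈ s, 2 * |(Lagrange.basis s v l).coeff i| := ⟨_, rfl⟩
  have hB0 : ∀ i ∈ range (K + 1), ∑ l ∈ s, 2 * |(Lagrange.basis s v l).coeff i| ≤ B := by
    intro i hi
    rw [hB]
    have h1 : ∑ l ∈ s, 2 * |(Lagrange.basis s v l).coeff i| ≤
        ∑ i ∈ range (K + 1), ∑ l ∈ s, 2 * |(Lagrange.basis s v l).coeff i| :=
      single_le_sum (f := fun i => ∑ l ∈ s, 2 * |(Lagrange.basis s v l).coeff i|)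
        (fun j _ => sum_nonneg fun _ _ => by positivity) hi
    linarith
  refine ⟨B, ?_, ?_⟩
  · rw [hB]
    have : 0 ≤ ∑ i ∈ range (K + 1), ∑ l ∈ s, 2 * |(Lagrange.basis s v l).coeff i| :=
      sum_nonneg fun j _ => sum_nonneg fun _ _ => by positivity
    linarith
  · intro q hq hval i
    have hinj : Set.InjOn v (s : Finset ℕ) := fun a _ b _ h => Nat.cast_injective h
    have hdeg : q.degree < (s.card : WithBot ℕ) := by
      rw [hs, card_range]
      refine lt_of_le_of_lt degree_le_natDegree ?_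
      exact_mod_cast (by omega : q.natDegree < K + 1)
    have hint := Lagrange.eq_interpolate hinj hdeg
    by_cases hi : i < K + 1
    · have h1 : q.coeff i = ∑ l ∈ s, q.eval (v l) * (Lagrange.basis s v l).coeff i := by
        conv_lhs => rw [hint]
        rw [Lagrange.interpolate_apply, finsetSum_coeff]
        apply sum_congr rfl
        intro l _
        rw [coeff_C_mul]
      rw [h1]
      refine (abs_sum_le_sum_abs _ _).trans (le_trans (sum_le_sum ?_) (hB0 i (mem_range.2 hi)))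
      intro l hl
      rw [abs_mul]
      apply mul_le_mul_of_nonneg_right _ (abs_nonneg _)
      apply hval
      rw [hs, mem_range] at hl
      omega
    · rw [coeff_eq_zero_of_natDegree_lt (by omega), abs_zero, hB]
      have : 0 ≤ ∑ i ∈ range (K + 1), ∑ l ∈ s, 2 * |(Lagrange.basis s v l).coeff i| :=
        sum_nonneg fun j _ => sum_nonneg fun _ _ => by positivity
      linarith

/-- Lipschitz bound on `[0, U]` -/
theorem lip_bd {K : ℕ} {a : Fin (K + 1) → ℝ} {B U : ℝ} (hB : 0 ≤ B) (hU : 1 ≤ U) (ha : ∀ i, |a i| ≤ B) {u v : ℝ}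
    (hu : u ∈ Set.Icc 0 U) (hv : v ∈ Set.Icc 0 U) :
    |(pol a).eval u - (pol a).eval v| ≤ (K + 1) * (B * (K * U ^ K)) * |u - v| := by
  have hpow : ∀ i : ℕ, i ≤ K → |u ^ i - v ^ i| ≤ K * U ^ K * |u - v| := by
    intro i hi
    have h1 := abs_pow_sub_pow_le u v i
    have hm : max |u| |v| ≤ U := by
      rw [abs_of_nonneg hu.1, abs_of_nonneg hv.1]
      exact max_le hu.2 hv.2
    have hm0 : 0 ≤ max |u| |v| := le_max_of_le_left (abs_nonneg _)
    have h2 : max |u| |v| ^ (i - 1) ≤ U ^ K :=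
      (pow_le_pow_left₀ hm0 hm _).trans (pow_le_pow_right₀ hU (by omega))
    have h3 : (i : ℝ) ≤ K := by exact_mod_cast hi
    calc |u ^ i - v ^ i| ≤ |u - v| * i * max |u| |v| ^ (i - 1) := h1
      _ ≤ |u - v| * K * U ^ K := by gcongr
      _ = _ := by ring
  rw [pol_eval, pol_eval, ← sum_sub_distrib]
  refine (abs_sum_le_sum_abs _ _).trans ?_
  calc ∑ i : Fin (K + 1), |a i * u ^ (i : ℕ) - a i * v ^ (i : ℕ)|
      ≤ ∑ i : Fin (K + 1), B * (K * U ^ K * |u - v|) := by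
        apply sum_le_sum
        intro i _
        rw [← mul_sub, abs_mul]
        exact mul_le_mul (ha i) (hpow i (by omega)) (abs_nonneg _) hB
    _ = _ := by
        rw [sum_const, card_univ, Fintype.card_fin, nsmul_eq_mul]
        push_cast
        ring

/-- the oscillation bounds the nonconstant coefficients from below -/
theorem osc_bd {K : ℕ} {a : Fin (K + 1) → ℝ} {U ω : ℝ} (hU : 1 ≤ U) {u v : ℝ}
    (hu : u ∈ Set.Icc 0 U) (hv : v ∈ Set.Icc 0 U) (h : ω ≤ (pol a).eval u - (pol a).eval v) :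
    ω / U ^ K ≤ ∑ i : Fin (K + 1), if (i : ℕ) = 0 then 0 else |a i| := by
  rw [div_le_iff₀ (by positivity)]
  refine h.trans ?_
  rw [pol_eval, pol_eval, ← sum_sub_distrib, sum_mul]
  apply sum_le_sum
  intro i _
  split_ifs with hi
  · rw [hi]; simp
  · rw [← mul_sub]
    have h1 : |u ^ (i : ℕ) - v ^ (i : ℕ)| ≤ U ^ K := by
      have h2 : u ^ (i : ℕ) ≤ U ^ K := (pow_le_pow_left₀ hu.1 hu.2 _).trans (pow_le_pow_right₀ hU (by omega))
      have h3 : v ^ (i : ℕ) ≤ U ^ K := (pow_le_pow_left₀ hv.1 hv.2 _).trans (pow_le_pow_right₀ hU (by omega))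
      have h4 : 0 ≤ u ^ (i : ℕ) := pow_nonneg hu.1 _
      have h5 : 0 ≤ v ^ (i : ℕ) := pow_nonneg hv.1 _
      rw [abs_le]
      constructor <;> linarith
    calc a i * (u ^ (i : ℕ) - v ^ (i : ℕ)) ≤ |a i * (u ^ (i : ℕ) - v ^ (i : ℕ))| := le_abs_self _
      _ = |a i| * |u ^ (i : ℕ) - v ^ (i : ℕ)| := abs_mul _ _
      _ ≤ _ := mul_le_mul_of_nonneg_left h1 (abs_nonneg _)

theorem ph_ee (t : ℝ) (n M : ℕ) (q : ℝ) (hM : 1 ≤ M) (hq : 0 < q) (h : (n : ℝ) = M * q) :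
    ph t n = ee (t / (2 * Real.pi) * Real.log M) * ee (t / (2 * Real.pi) * Real.log q) := by
  have hM0 : (0 : ℝ) < M := by exact_mod_cast hM
  rw [ph_eq, h, Real.log_mul hM0.ne' hq.ne']
  unfold ee
  rw [← Complex.exp_add]
  congr 1
  have hpi : (Real.pi : ℂ) ≠ 0 := by exact_mod_cast Real.pi_ne_zero
  push_cast
  field_simp

theorem norm_abs (τ : ℝ) (s : Finset ℕ) (G : ℕ → ℝ) : ‖∑ n ∈ s, ee (τ * G n)‖ = ‖∑ n ∈ s, ee (|τ| * G n)‖ := by
  rcases le_total 0 τ with h | h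
  · rw [abs_of_nonneg h]
  · rw [abs_of_nonpos h]
    have : ∀ n, ee (-τ * G n) = ee (-(τ * G n)) := fun n => by rw [neg_mul]
    simp only [this]
    rw [norm_sum_neg]

theorem normalise (K g M : ℕ) (P : ℝ[X]) (hP : P.natDegree ≤ K) :
    ∃ a : Fin (K + 1) → ℝ, ∀ u : ℝ, (pol a).eval u = P.eval (g * u) / M := by
  obtain ⟨q, hq⟩ : ∃ q : ℝ[X], q = C ((M : ℝ)⁻¹) * P.comp (C (g : ℝ) * X) := ⟨_, rfl⟩
  have hqe : ∀ u : ℝ, q.eval u = P.eval (g * u) / M := by
    intro u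
    rw [hq, eval_mul, eval_C, eval_comp, eval_mul, eval_C, eval_X]
    ring
  have hqdeg : q.natDegree ≤ K := by
    rw [hq]
    refine (natDegree_C_mul_le _ _).trans ?_
    refine natDegree_comp_le.trans ?_
    calc P.natDegree * (C (g : ℝ) * X).natDegree ≤ K * 1 :=
          Nat.mul_le_mul hP ((natDegree_C_mul_le _ _).trans natDegree_X_le)
      _ = K := mul_one K
  exact ⟨fun i : Fin (K + 1) => q.coeff i, fun u => by rw [pol_of q hqdeg, hqe]⟩

/-- **The kernel.** -/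
theorem ker2 (A μ ω : ℝ) (K : ℕ) (hA : 1 ≤ A) (hμ : 0 < μ) (hμ1 : μ ≤ 1) (hω : 0 < ω) (hK : 1 ≤ K) :
    ∃ δ C : ℝ, 0 < δ ∧ 1 ≤ C ∧ ∀ (M L : ℕ) (P : ℝ[X]) (f : ℕ → ℕ), 1 ≤ M → (M : ℝ) ^ μ ≤ 2 * L → L ≤ 2 * M →
      P.natDegree ≤ K → (∀ x < L, (f x : ℝ) = P.eval (x : ℝ) ∧ M ≤ f x ∧ f x ≤ 2 * M) →
      (∃ x < L, ∃ y < L, ω * M ≤ (f x : ℝ) - f y) → ∀ t : ℝ, (M : ℝ) ≤ |t| → |t| ≤ (2 * M : ℝ) ^ A →
      ‖∑ x ∈ range L, ph t (f x)‖ ≤ C * L * (M : ℝ) ^ (-δ) := by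
  obtain ⟨B, hB1, hB⟩ := coeff_bd K
  have hK1 : (1 : ℝ) ≤ K := by exact_mod_cast hK
  obtain ⟨U, hU⟩ : ∃ U : ℝ, U = 2 * K := ⟨_, rfl⟩
  have hU1 : 1 ≤ U := by rw [hU]; linarith
  obtain ⟨kmax, hkmax⟩ : ∃ k : ℕ, k = ⌈A / μ⌉₊ + 2 := ⟨_, rfl⟩
  obtain ⟨κ, C, hκ0, hκ1, hC1, hker⟩ := ker1u K hK B (ω / U ^ K) U (by positivity) hU1 kmax
  obtain ⟨Λ, hΛ⟩ : ∃ Λ : ℝ, Λ = (K + 1) * (B * (K * U ^ K)) := ⟨_, rfl⟩
  have hΛ0 : 0 ≤ Λ := by rw [hΛ]; positivity
  obtain ⟨E, hE⟩ : ∃ E : ℝ, E = (2 * (4 * K : ℝ) ^ (1 / μ)) ^ A := ⟨_, rfl⟩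
  have hE1 : 1 ≤ E := by
    rw [hE]
    apply Real.one_le_rpow _ (by linarith)
    have : 1 ≤ (4 * K : ℝ) ^ (1 / μ) := Real.one_le_rpow (by linarith) (by positivity)
    linarith
  -- the threshold for `g`
  obtain ⟨G0, hG0⟩ : ∃ G0 : ℝ, G0 = 2 + 2 * Λ + E := ⟨_, rfl⟩
  have hG01 : 1 ≤ G0 := by rw [hG0]; linarith
  obtain ⟨M0, hM0⟩ : ∃ M0 : ℝ, M0 = 100 + (4 * K * G0) ^ (1 / μ) := ⟨_, rfl⟩
  have hM01 : 1 ≤ M0 := by
    rw [hM0]
    have : 0 ≤ (4 * K * G0) ^ (1 / μ) := by positivity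
    linarith
  obtain ⟨δ, hδ⟩ : ∃ δ : ℝ, δ = μ * κ := ⟨_, rfl⟩
  have hδ0 : 0 < δ := by rw [hδ]; positivity
  have hδ1 : δ ≤ 1 := by rw [hδ]; nlinarith
  refine ⟨δ, M0 + C * (4 * K), hδ0, by
    have : 0 ≤ C * (4 * K) := by positivity
    linarith, ?_⟩
  intro M L P f hM hML hLM hP hf hosc t ht1 ht2
  have hM1 : (1 : ℝ) ≤ M := by exact_mod_cast hM
  have hMp : (0 : ℝ) < M := by linarith
  have htriv : ‖∑ x ∈ range L, ph t (f x)‖ ≤ L := by
    refine (norm_sum_le _ _).trans ?_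
    simp [ph_norm]
  rcases lt_or_ge (M : ℝ) M0 with hsmall | hbig
  · have h1 : (M : ℝ) ^ δ ≤ M0 := by
      calc (M : ℝ) ^ δ ≤ (M : ℝ) ^ (1 : ℝ) := Real.rpow_le_rpow_of_exponent_le hM1 hδ1
        _ = M := Real.rpow_one _
        _ ≤ M0 := hsmall.le
    have h2 : 1 ≤ M0 * (M : ℝ) ^ (-δ) := by
      calc (1 : ℝ) = (M : ℝ) ^ δ * (M : ℝ) ^ (-δ) := by
            rw [← Real.rpow_add hMp, add_neg_cancel, Real.rpow_zero]
        _ ≤ _ := mul_le_mul_of_nonneg_right h1 (by positivity)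
    have h3 : 0 ≤ (M : ℝ) ^ (-δ) := by positivity
    have hL0 : (0 : ℝ) ≤ L := Nat.cast_nonneg _
    calc _ ≤ (L : ℝ) * 1 := by rw [mul_one]; exact htriv
      _ ≤ L * (M0 * (M : ℝ) ^ (-δ)) := mul_le_mul_of_nonneg_left h2 hL0
      _ = M0 * L * (M : ℝ) ^ (-δ) := by ring
      _ ≤ _ := by
          apply mul_le_mul_of_nonneg_right _ h3
          apply mul_le_mul_of_nonneg_right _ hL0
          have : 0 ≤ C * (4 * K) := by positivity
          linarith
  -- large `M`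
  have hMμ : 4 * K * G0 ≤ (M : ℝ) ^ μ := by
    have h1 : (4 * K * G0) ^ (1 / μ) ≤ M := by
      rw [hM0] at hbig; linarith
    calc 4 * K * G0 = ((4 * K * G0) ^ (1 / μ)) ^ μ := by
          rw [← Real.rpow_mul (by positivity), one_div_mul_cancel hμ.ne', Real.rpow_one]
      _ ≤ _ := Real.rpow_le_rpow (by positivity) h1 hμ.le
  have hM100 : (100 : ℝ) ≤ M := by
    have : 0 ≤ (4 * K * G0) ^ (1 / μ) := by positivity
    rw [hM0] at hbig; linarith
  obtain ⟨g, hg⟩ : ∃ g : ℕ, g = (L - 1) / K := ⟨_, rfl⟩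
  have hLr : 2 * K * G0 ≤ (L : ℝ) := by linarith
  have hL2K : 2 * K ≤ L := by
    have : ((2 * K : ℕ) : ℝ) ≤ L := by
      push_cast
      have : 2 * (K : ℝ) * 1 ≤ 2 * K * G0 := mul_le_mul_of_nonneg_left hG01 (by positivity)
      linarith
    exact_mod_cast this
  have hgK : g * K ≤ L - 1 := by rw [hg]; exact Nat.div_mul_le_self _ _
  have hLgK : L ≤ (g + 1) * K := by
    have := Nat.lt_div_mul_add (a := L - 1) (show 0 < K by omega)
    rw [← hg] at this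
    have h2 : (g + 1) * K = g * K + K := by ring
    omega
  have hgL : (L : ℝ) ≤ (g + 1) * K := by exact_mod_cast hLgK
  have hg1 : 1 ≤ g := by
    rw [hg]
    exact Nat.div_pos (by omega) (by omega)
  have hg1r : (1 : ℝ) ≤ g := by exact_mod_cast hg1
  have hg0 : (0 : ℝ) < g := by linarith
  have hLU : (L : ℝ) ≤ U * g := by
    rw [hU]
    nlinarith
  have hgG0 : G0 ≤ g := by
    have h1 : 2 * K * G0 ≤ 2 * K * g := by
      rw [hU] at hLU
      linarith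
    exact le_of_mul_le_mul_left h1 (by positivity)
  have hgL2 : (g : ℝ) ≤ L := by
    have h1 : g ≤ L := by
      have : g * 1 ≤ g * K := Nat.mul_le_mul_left g hK
      omega
    exact_mod_cast h1
  have hgM : (M : ℝ) ^ μ ≤ 4 * K * g := by
    rw [hU] at hLU
    linarith
  -- the normalised polynomial
  obtain ⟨a, hqe⟩ := normalise K g M P hP
  have hfq : ∀ x < L, (f x : ℝ) = M * (pol a).eval ((x : ℝ) / g) := by
    intro x hx
    rw [hqe, (hf x hx).1, mul_div_cancel₀ _ hg0.ne', mul_div_cancel₀ _ hMp.ne']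
  have hqval : ∀ x < L, 1 ≤ (pol a).eval ((x : ℝ) / g) ∧ (pol a).eval ((x : ℝ) / g) ≤ 2 := by
    intro x hx
    have h1 := hfq x hx
    have h2 : (M : ℝ) ≤ f x := by exact_mod_cast (hf x hx).2.1
    have h3 : (f x : ℝ) ≤ 2 * M := by exact_mod_cast (hf x hx).2.2
    rw [h1] at h2 h3
    constructor
    · exact le_of_mul_le_mul_left (by linarith) hMp
    · exact le_of_mul_le_mul_left (by linarith : (M : ℝ) * _ ≤ M * 2) hMp
  have hxU : ∀ x < L, (x : ℝ) / g ∈ Set.Icc 0 U := by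
    intro x hx
    have : (x : ℝ) ≤ L := by exact_mod_cast hx.le
    refine ⟨by positivity, ?_⟩
    rw [div_le_iff₀ hg0]
    linarith
  have habd : ∀ i, |a i| ≤ B := by
    intro i
    have h0 := hB (pol a) (pol_natDegree a) (by
      intro l hl
      have h1 : g * l < L := by
        have : g * l ≤ g * K := Nat.mul_le_mul_left g hl
        omega
      have h2 := hqval (g * l) h1
      have h3 : ((g * l : ℕ) : ℝ) / g = l := by push_cast; field_simp
      rw [h3] at h2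
      rw [abs_le]
      constructor <;> linarith [h2.1, h2.2]) i
    rwa [coeff_pol, dif_pos i.2] at h0
  have haK : a ∈ KK K B (ω / U ^ K) := by
    refine ⟨habd, ?_⟩
    obtain ⟨x, hx, y, hy, hxy⟩ := hosc
    apply osc_bd hU1 (hxU x hx) (hxU y hy)
    rw [hfq x hx, hfq y hy, ← mul_sub, mul_comm] at hxy
    exact le_of_mul_le_mul_left hxy hMp
  have hpu : ∀ u : ℝ, 0 ≤ u → u * g + 1 ≤ L → 1 / 2 ≤ (pol a).eval u ∧ (pol a).eval u ≤ 3 := by
    intro u hu hu2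
    have h0 : 0 ≤ u * g := by positivity
    set x := ⌊u * g⌋₊ with hx
    have hx1 : (x : ℝ) ≤ u * g := Nat.floor_le h0
    have hx2 : u * g < x + 1 := Nat.lt_floor_add_one _
    have hxL : x < L := by
      have : (x : ℝ) < L := by linarith
      exact_mod_cast this
    have huU : u ∈ Set.Icc 0 U := by
      refine ⟨hu, ?_⟩
      have : u * g ≤ U * g := by linarith
      exact le_of_mul_le_mul_right this hg0
    have hd : |u - (x : ℝ) / g| ≤ 1 / g := by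
      rw [abs_of_nonneg (by rw [sub_nonneg, div_le_iff₀ hg0]; exact hx1), sub_le_iff_le_add, ← add_div,
        le_div_iff₀ hg0]
      linarith
    have h1 := lip_bd (by linarith) hU1 habd huU (hxU x hxL)
    rw [← hΛ] at h1
    have h2 : Λ * |u - (x : ℝ) / g| ≤ 1 / 2 := by
      calc Λ * |u - (x : ℝ) / g| ≤ Λ * (1 / g) := mul_le_mul_of_nonneg_left hd hΛ0
        _ = Λ / g := by ring
        _ ≤ 1 / 2 := by
            rw [div_le_div_iff₀ hg0 (by norm_num)]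
            rw [hG0] at hgG0
            linarith
    have h3 := hqval x hxL
    have h4 := abs_le.1 (h1.trans h2)
    constructor <;> linarith [h3.1, h3.2, h4.1, h4.2]
  -- the frequency
  set ξ : ℝ := |t / (2 * Real.pi)| with hξ
  have hpi := Real.pi_pos
  have hpi3 := Real.pi_gt_three
  have hpi4 := Real.pi_le_four
  have hξt : ξ = |t| / (2 * Real.pi) := by rw [hξ, abs_div, abs_of_pos (by positivity : 0 < 2 * Real.pi)]
  have hξlow : (M : ℝ) / 8 ≤ ξ := by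
    rw [hξt, div_le_div_iff₀ (by norm_num) (by positivity)]
    nlinarith
  have hξup : ξ ≤ (g : ℝ) ^ ((kmax : ℝ) - 1 / 2) := by
    have h1 : ξ ≤ |t| := by
      rw [hξt]
      exact div_le_self (abs_nonneg _) (by linarith)
    have h2 : (M : ℝ) ≤ (4 * K * g) ^ (1 / μ) := by
      calc (M : ℝ) = ((M : ℝ) ^ μ) ^ (1 / μ) := by
            rw [← Real.rpow_mul hMp.le, mul_one_div_cancel hμ.ne', Real.rpow_one]
        _ ≤ _ := Real.rpow_le_rpow (by positivity) hgM (by positivity)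
    calc ξ ≤ |t| := h1
      _ ≤ (2 * M : ℝ) ^ A := ht2
      _ ≤ (2 * (4 * K * g) ^ (1 / μ)) ^ A := Real.rpow_le_rpow (by positivity) (by linarith) (by linarith)
      _ = E * (g : ℝ) ^ (A / μ) := by
          rw [hE, Real.mul_rpow (by positivity) hg0.le, ← mul_assoc, Real.mul_rpow (by positivity) (by positivity),
            ← Real.rpow_mul hg0.le]
          congr 2
          ring
      _ ≤ (g : ℝ) ^ (1 : ℝ) * (g : ℝ) ^ (A / μ) := by
          rw [Real.rpow_one]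
          apply mul_le_mul_of_nonneg_right _ (by positivity)
          rw [hG0] at hgG0
          linarith
      _ = (g : ℝ) ^ (1 + A / μ) := by rw [← Real.rpow_add hg0]
      _ ≤ _ := by
          apply Real.rpow_le_rpow_of_exponent_le hg1r
          rw [hkmax]
          push_cast
          have := Nat.le_ceil (A / μ)
          linarith
  classical
  have hex : ∃ k : ℕ, ξ ≤ (g : ℝ) ^ ((k : ℝ) - 1 / 2) := ⟨kmax, hξup⟩
  set k := Nat.find hex with hk
  have hk1 : ξ ≤ (g : ℝ) ^ ((k : ℝ) - 1 / 2) := Nat.find_spec hex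
  have hkmax' : k ≤ kmax := Nat.find_min' hex hξup
  have hk2 : 2 ≤ k := by
    by_contra hcon
    push Not at hcon
    have hk1' : (k : ℝ) ≤ 1 := by exact_mod_cast (by omega : k ≤ 1)
    have h1 : ξ ≤ (g : ℝ) ^ (1 / 2 : ℝ) :=
      hk1.trans (Real.rpow_le_rpow_of_exponent_le hg1r (by linarith))
    have h2 : (g : ℝ) ≤ 2 * M := by
      have : (L : ℝ) ≤ 2 * M := by exact_mod_cast hLM
      linarith
    have h3 : ξ ^ 2 ≤ g := by
      calc ξ ^ 2 ≤ ((g : ℝ) ^ (1 / 2 : ℝ)) ^ 2 := pow_le_pow_left₀ (by positivity) h1 2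
        _ = g := by
            rw [← Real.rpow_natCast, ← Real.rpow_mul hg0.le]
            norm_num
    have h4 : ((M : ℝ) / 8) ^ 2 ≤ ξ ^ 2 := pow_le_pow_left₀ (by positivity) hξlow 2
    have h5 : (M : ℝ) * 100 ≤ M * M := mul_le_mul_of_nonneg_left hM100 hMp.le
    -- (M/8)^2 ≤ 2 M forces M ≤ 128
    by_cases h128 : (M : ℝ) ≤ 128
    · -- use `g ≤ L`, small range: `ξ ≥ M / (2π) ≥ M / 7`
      have hpi7 : 2 * Real.pi ≤ 7 := by linarith [Real.pi_lt_d2]
      have h6 : (M : ℝ) / 7 ≤ ξ := by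
        rw [hξt, div_le_div_iff₀ (by norm_num) (by positivity)]
        nlinarith
      have h7 : ((M : ℝ) / 7) ^ 2 ≤ ξ ^ 2 := pow_le_pow_left₀ (by positivity) h6 2
      nlinarith
    · push Not at h128
      nlinarith
  have hk3 : (g : ℝ) ^ ((k : ℝ) - 3 / 2) ≤ ξ := by
    have h1 := Nat.find_min hex (m := k - 1) (by omega)
    push Not at h1
    refine le_trans (le_of_eq ?_) h1.le
    congr 1
    rw [Nat.cast_sub (by omega)]
    push_cast
    ring
  have hmain := hker k hk2 hkmax' g L a ξ hg1 hLU haK hpu hk3 hk1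
  -- the sum
  have hsum : ‖∑ x ∈ range L, ph t (f x)‖ =
      ‖∑ x ∈ range L, ee (ξ * Real.log ((pol a).eval ((x : ℝ) / g)))‖ := by
    have h1 : ∑ x ∈ range L, ph t (f x) = ee (t / (2 * Real.pi) * Real.log M) *
        ∑ x ∈ range L, ee (t / (2 * Real.pi) * Real.log ((pol a).eval ((x : ℝ) / g))) := by
      rw [mul_sum]
      apply sum_congr rfl
      intro x hx
      rw [mem_range] at hx
      exact ph_ee t (f x) M _ hM (by linarith [(hqval x hx).1]) (hfq x hx)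
    rw [h1, norm_mul, ee_norm, one_mul, norm_abs]
  rw [hsum]
  refine hmain.trans ?_
  have h1 : (g : ℝ) ^ (1 - κ) = g * (g : ℝ) ^ (-κ) := by
    rw [sub_eq_add_neg, Real.rpow_add hg0, Real.rpow_one]
  have h2 : (g : ℝ) ^ (-κ) ≤ 4 * K * (M : ℝ) ^ (-δ) := by
    have h3 : (M : ℝ) ^ μ / (4 * K) ≤ g := by
      rw [div_le_iff₀ (by positivity)]
      linarith
    calc (g : ℝ) ^ (-κ) ≤ ((M : ℝ) ^ μ / (4 * K)) ^ (-κ) :=
          Real.rpow_le_rpow_of_nonpos (by positivity) h3 (by linarith)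
      _ = (4 * K : ℝ) ^ κ * (M : ℝ) ^ (-δ) := by
          rw [Real.div_rpow (by positivity) (by positivity), ← Real.rpow_mul hMp.le, div_eq_mul_inv,
            ← Real.rpow_neg (by positivity), neg_neg, mul_comm, hδ]
          congr 2
          ring
      _ ≤ 4 * K * (M : ℝ) ^ (-δ) := by
          apply mul_le_mul_of_nonneg_right _ (by positivity)
          calc (4 * K : ℝ) ^ κ ≤ (4 * K : ℝ) ^ (1 : ℝ) :=
                Real.rpow_le_rpow_of_exponent_le (by linarith) hκ1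
            _ = 4 * K := Real.rpow_one _
  calc C * (g : ℝ) ^ (1 - κ) = C * (g * (g : ℝ) ^ (-κ)) := by rw [h1]
    _ ≤ C * (L * (4 * K * (M : ℝ) ^ (-δ))) := by gcongr
    _ = C * (4 * K) * (L * (M : ℝ) ^ (-δ)) := by ring
    _ ≤ (M0 + C * (4 * K)) * (L * (M : ℝ) ^ (-δ)) := by
        apply mul_le_mul_of_nonneg_right _ (by positivity)
        linarith
    _ = _ := by ring

end Pool.Agent.U759.PV
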