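import Pool.Agent.U759.PV.Ker2
import Pool.Agent.R516.MSA

/-!
The kernel at all scales.
-/

set_option autoImplicit false

namespace Pool.Agent.U759.PV

open Finset Polynomial
open Pool.Agent.TH705.DL (ph ph_norm ph_eq)

/-- a nonconstant polynomial takes a value at most `K` times -/
theorem fib (K L : ℕ) (p : ℝ[X]) (hp : p.natDegree ≤ K) (f : ℕ → ℕ) (hf : ∀ x < L, (f x : ℝ) = p.eval (x : ℝ))
    (hne : ∃ x < L, ∃ y < L, f x ≠ f y) (n : ℕ) : ((range L).filter (fun x => f x = n)).card ≤ K := by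
  classical
  obtain ⟨x0, hx0, y0, hy0, hxy⟩ := hne
  set r : ℝ[X] := p - C (n : ℝ) with hr
  have hr0 : r ≠ 0 := by
    intro h0
    have h1 : ∀ x < L, f x = n := by
      intro x hx
      have h2 : r.eval (x : ℝ) = 0 := by rw [h0, eval_zero]
      rw [hr, eval_sub, eval_C] at h2
      have h3 : (f x : ℝ) = n := by rw [hf x hx]; linarith
      exact_mod_cast h3
    exact hxy ((h1 x0 hx0).trans (h1 y0 hy0).symm)
  have hdeg : r.natDegree ≤ K := by
    rw [hr, natDegree_sub_C]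
    exact hp
  have h2 : (((range L).filter (fun x => f x = n)).image (fun x : ℕ => (x : ℝ))) ⊆ r.roots.toFinset := by
    intro y hy
    rw [mem_image] at hy
    obtain ⟨x, hx, rfl⟩ := hy
    rw [mem_filter, mem_range] at hx
    rw [Multiset.mem_toFinset, mem_roots hr0, IsRoot.def, hr, eval_sub, eval_C, ← hf x hx.1, hx.2, sub_self]
  have h3 := card_le_card h2
  rw [card_image_of_injective _ Nat.cast_injective] at h3
  exact h3.trans ((Multiset.toFinset_card_le _).trans ((card_roots' r).trans hdeg))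

theorem ker3 (A μ ω : ℝ) (K : ℕ) (hA : 1 ≤ A) (hμ : 0 < μ) (hμ1 : μ ≤ 1) (hω : 0 < ω) (hK : 1 ≤ K) :
    ∃ δ C : ℝ, 0 < δ ∧ 1 ≤ C ∧ ∀ (N L : ℕ) (P : ℝ[X]) (f : ℕ → ℕ), 1 ≤ N → (N : ℝ) ^ μ ≤ L →
      (L : ℝ) ≤ 2 * (N : ℝ) ^ (3 / 4 : ℝ) →
      P.natDegree ≤ K → (∀ x < L, (f x : ℝ) = P.eval (x : ℝ) ∧ 1 ≤ f x ∧ f x ≤ 2 * N) →
      (∀ x < L, ∀ y < L, f x ≤ 2 * f y) →
      (∃ x < L, ∃ y < L, (1 + ω) * (f y : ℝ) ≤ f x) → ∀ t : ℝ, (2 * N : ℝ) ≤ |t| → |t| ≤ (2 * N : ℝ) ^ A →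
      ‖∑ x ∈ range L, ph t (f x)‖ ≤ C * L * (N : ℝ) ^ (-δ) := by
  classical
  have hK1 : (1 : ℝ) ≤ K := by exact_mod_cast hK
  have hA' : 1 ≤ 4 * A / μ := by
    rw [le_div_iff₀ hμ]
    linarith
  obtain ⟨δ, C, hδ, hC, hker⟩ := ker2 (4 * A / μ) μ ω K hA' hμ hμ1 hω hK
  obtain ⟨δ', hδ'⟩ : ∃ δ' : ℝ, δ' = min (μ / 2 * δ) 1 := ⟨_, rfl⟩
  have hδ'0 : 0 < δ' := by rw [hδ']; positivity
  have hδ'1 : δ' ≤ 1 := by rw [hδ']; exact min_le_right _ _
  have hδ'2 : δ' ≤ μ / 2 * δ := by rw [hδ']; exact min_le_left _ _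
  obtain ⟨N0, hN0⟩ : ∃ N0 : ℝ, N0 = 2 + (4 * K : ℝ) ^ (2 / μ) + (2 * K : ℝ) ^ (4 : ℝ) := ⟨_, rfl⟩
  have hN01 : 1 ≤ N0 := by
    rw [hN0]
    have h1 : 0 ≤ (4 * K : ℝ) ^ (2 / μ) := by positivity
    have h2 : 0 ≤ (2 * K : ℝ) ^ (4 : ℝ) := by positivity
    linarith
  refine ⟨δ', N0 + C, hδ'0, by linarith, ?_⟩
  intro N L P f hN hNL hL hP hf hrat hosc t ht1 ht2
  have hN1 : (1 : ℝ) ≤ N := by exact_mod_cast hN
  have hNp : (0 : ℝ) < N := by linarith
  have hLc : (0 : ℝ) ≤ L := Nat.cast_nonneg _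
  have hNδ : 0 ≤ (N : ℝ) ^ (-δ') := by positivity
  have htriv : ‖∑ x ∈ range L, ph t (f x)‖ ≤ L := by
    refine (norm_sum_le _ _).trans ?_
    simp [ph_norm]
  rcases lt_or_ge (N : ℝ) N0 with hsmall | hbig
  · have h1 : (N : ℝ) ^ δ' ≤ N0 := by
      calc (N : ℝ) ^ δ' ≤ (N : ℝ) ^ (1 : ℝ) := Real.rpow_le_rpow_of_exponent_le hN1 hδ'1
        _ = N := Real.rpow_one _
        _ ≤ N0 := hsmall.le
    have h2 : 1 ≤ N0 * (N : ℝ) ^ (-δ') := by
      calc (1 : ℝ) = (N : ℝ) ^ δ' * (N : ℝ) ^ (-δ') := by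
            rw [← Real.rpow_add hNp, add_neg_cancel, Real.rpow_zero]
        _ ≤ _ := mul_le_mul_of_nonneg_right h1 hNδ
    calc _ ≤ (L : ℝ) * 1 := by rw [mul_one]; exact htriv
      _ ≤ L * (N0 * (N : ℝ) ^ (-δ')) := mul_le_mul_of_nonneg_left h2 hLc
      _ = N0 * L * (N : ℝ) ^ (-δ') := by ring
      _ ≤ _ := by
          apply mul_le_mul_of_nonneg_right _ hNδ
          apply mul_le_mul_of_nonneg_right _ hLc
          linarith
  obtain ⟨x1, hx1, y1, hy1, hxy⟩ := hosc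
  -- the smallest value
  obtain ⟨z, hz, hzmin⟩ := exists_min_image (range L) f ⟨x1, mem_range.2 hx1⟩
  rw [mem_range] at hz
  obtain ⟨M, hM⟩ : ∃ M : ℕ, M = f z := ⟨_, rfl⟩
  have hM1 : 1 ≤ M := by rw [hM]; exact (hf z hz).2.1
  have hMr : (1 : ℝ) ≤ M := by exact_mod_cast hM1
  have hM0 : (0 : ℝ) < M := by linarith
  have hval : ∀ x < L, M ≤ f x ∧ f x ≤ 2 * M := by
    intro x hx
    rw [hM]
    exact ⟨hzmin x (mem_range.2 hx), hrat x hx z hz⟩
  have hM2N : M ≤ 2 * N := by rw [hM]; exact (hf z hz).2.2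
  have hM2Nr : (M : ℝ) ≤ 2 * N := by exact_mod_cast hM2N
  have hosc' : ω * M ≤ (f x1 : ℝ) - f y1 := by
    have h1 : (M : ℝ) ≤ f y1 := by exact_mod_cast (hval y1 hy1).1
    have h2 : ω * M ≤ ω * f y1 := mul_le_mul_of_nonneg_left h1 hω.le
    linarith
  have hne : ∃ x < L, ∃ y < L, f x ≠ f y := by
    refine ⟨x1, hx1, y1, hy1, fun h => ?_⟩
    rw [h, sub_self] at hosc'
    have : 0 < ω * M := by positivity
    linarith
  have hLM : L ≤ K * (2 * M) := by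
    have h1 := card_le_mul_card_image (f := f) (range L) K (fun n _ => fib K L P hP f (fun x hx => (hf x hx).1) hne n)
    rw [card_range] at h1
    refine h1.trans (Nat.mul_le_mul_left K ?_)
    have h2 : (range L).image f ⊆ Icc M (2 * M) := by
      intro n hn
      rw [mem_image] at hn
      obtain ⟨x, hx, rfl⟩ := hn
      rw [mem_range] at hx
      rw [mem_Icc]
      exact hval x hx
    have h3 := card_le_card h2
    rw [Nat.card_Icc] at h3
    omega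
  have hLMr : (L : ℝ) ≤ K * (2 * M) := by exact_mod_cast hLM
  have hb1 : (4 * K : ℝ) ≤ (N : ℝ) ^ (μ / 2) := by
    have h1 : (4 * K : ℝ) ^ (2 / μ) ≤ N := by
      have h2 : 0 ≤ (2 * K : ℝ) ^ (4 : ℝ) := by positivity
      rw [hN0] at hbig; linarith
    calc (4 * K : ℝ) = ((4 * K : ℝ) ^ (2 / μ)) ^ (μ / 2) := by
          rw [← Real.rpow_mul (by positivity), show 2 / μ * (μ / 2) = 1 by field_simp, Real.rpow_one]
      _ ≤ _ := Real.rpow_le_rpow (by positivity) h1 (by positivity)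
  have hb2 : (2 * K : ℝ) ≤ (N : ℝ) ^ (1 / 4 : ℝ) := by
    have h1 : (2 * K : ℝ) ^ (4 : ℝ) ≤ N := by
      have h2 : 0 ≤ (4 * K : ℝ) ^ (2 / μ) := by positivity
      rw [hN0] at hbig; linarith
    calc (2 * K : ℝ) = ((2 * K : ℝ) ^ (4 : ℝ)) ^ (1 / 4 : ℝ) := by
          rw [← Real.rpow_mul (by positivity)]; norm_num
      _ ≤ _ := Real.rpow_le_rpow (by positivity) h1 (by positivity)
  have hN2 : (2 : ℝ) ≤ N := by
    have h1 : 0 ≤ (4 * K : ℝ) ^ (2 / μ) := by positivity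
    have h2 : 0 ≤ (2 * K : ℝ) ^ (4 : ℝ) := by positivity
    rw [hN0] at hbig; linarith
  have hMlow : (N : ℝ) ^ (μ / 2) ≤ M := by
    have h1 : (N : ℝ) ^ μ = (N : ℝ) ^ (μ / 2) * (N : ℝ) ^ (μ / 2) := by
      rw [← Real.rpow_add hNp]; congr 1; ring
    have h2 : (N : ℝ) ^ (μ / 2) * (4 * K) ≤ (N : ℝ) ^ (μ / 2) * (N : ℝ) ^ (μ / 2) :=
      mul_le_mul_of_nonneg_left hb1 (by positivity)
    have h3 : (N : ℝ) ^ (μ / 2) * (4 * K) ≤ M * (4 * K) := by
      rw [← h1] at h2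
      have : (0 : ℝ) ≤ K * M := by positivity
      linarith
    exact le_of_mul_le_mul_right h3 (by positivity)
  have hup : (2 * N : ℝ) ^ A ≤ (2 * M : ℝ) ^ (4 * A / μ) := by
    calc (2 * N : ℝ) ^ A ≤ ((N : ℝ) ^ (2 : ℝ)) ^ A := by
          apply Real.rpow_le_rpow (by positivity) _ (by linarith)
          rw [Real.rpow_two]
          nlinarith
      _ = ((N : ℝ) ^ (μ / 2)) ^ (4 * A / μ) := by
          rw [← Real.rpow_mul hNp.le, ← Real.rpow_mul hNp.le]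
          congr 1
          field_simp
          ring
      _ ≤ _ := Real.rpow_le_rpow (by positivity) (by linarith) (by linarith)
  have hMμ : (2 * N : ℝ) ^ μ ≤ 2 * L := by
    calc (2 * N : ℝ) ^ μ = 2 ^ μ * (N : ℝ) ^ μ := Real.mul_rpow (by norm_num) hNp.le
      _ ≤ 2 * (N : ℝ) ^ μ := by
          apply mul_le_mul_of_nonneg_right _ (by positivity)
          calc (2 : ℝ) ^ μ ≤ 2 ^ (1 : ℝ) := Real.rpow_le_rpow_of_exponent_le (by norm_num) hμ1
            _ = 2 := Real.rpow_one _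
      _ ≤ 2 * L := by linarith
  -- conclusion for a multiple of `M`
  have hconc : ∀ M' : ℕ, M ≤ M' → C * L * (M' : ℝ) ^ (-δ) ≤ (N0 + C) * L * (N : ℝ) ^ (-δ') := by
    intro M' hMM'
    have h1 : (N : ℝ) ^ (μ / 2) ≤ M' := hMlow.trans (by exact_mod_cast hMM')
    have h2 : (M' : ℝ) ^ (-δ) ≤ (N : ℝ) ^ (-δ') := by
      calc (M' : ℝ) ^ (-δ) ≤ ((N : ℝ) ^ (μ / 2)) ^ (-δ) :=
            Real.rpow_le_rpow_of_nonpos (by positivity) h1 (by linarith)
        _ = (N : ℝ) ^ (-(μ / 2 * δ)) := by rw [← Real.rpow_mul hNp.le]; congr 1; ring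
        _ ≤ _ := Real.rpow_le_rpow_of_exponent_le hN1 (by linarith)
    have h3 : 0 ≤ (M' : ℝ) ^ (-δ) := by positivity
    calc C * L * (M' : ℝ) ^ (-δ) ≤ (N0 + C) * L * (M' : ℝ) ^ (-δ) := by
          apply mul_le_mul_of_nonneg_right _ h3
          apply mul_le_mul_of_nonneg_right _ hLc
          linarith
      _ ≤ _ := mul_le_mul_of_nonneg_left h2 (mul_nonneg (by linarith) hLc)
  rcases Nat.lt_or_ge (2 * M) L with hcase | hcase
  · -- many points: scale by `2K`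
    have hsc : ∀ x, ph t (2 * K * f x) = ph t (2 * K) * ph t (f x) ∨ f x = 0 := by
      intro x
      rcases Nat.eq_zero_or_pos (f x) with h0 | h0
      · exact Or.inr h0
      · exact Or.inl (Pool.Agent.R516.MS.ph_mul t (2 * K) (f x) (by omega) h0)
    have hsum : ‖∑ x ∈ range L, ph t (f x)‖ = ‖∑ x ∈ range L, ph t (2 * K * f x)‖ := by
      have h1 : ∑ x ∈ range L, ph t (2 * K * f x) = ph t (2 * K) * ∑ x ∈ range L, ph t (f x) := by
        rw [mul_sum]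
        apply sum_congr rfl
        intro x hx
        rcases hsc x with h | h
        · exact h
        · have := (hf x (mem_range.1 hx)).2.1
          omega
      rw [h1, norm_mul, ph_norm, one_mul]
    rw [hsum]
    have hM'N : ((2 * K * M : ℕ) : ℝ) ≤ N := by
      have h1 : (2 * M : ℝ) ≤ L := by exact_mod_cast hcase.le
      have h2 : (K : ℝ) * (2 * M) ≤ K * (2 * (N : ℝ) ^ (3 / 4 : ℝ)) :=
        mul_le_mul_of_nonneg_left (h1.trans hL) (by positivity)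
      have h3 : (2 * K) * (N : ℝ) ^ (3 / 4 : ℝ) ≤ (N : ℝ) ^ (1 / 4 : ℝ) * (N : ℝ) ^ (3 / 4 : ℝ) :=
        mul_le_mul_of_nonneg_right hb2 (by positivity)
      rw [← Real.rpow_add hNp, show (1 / 4 + 3 / 4 : ℝ) = 1 by norm_num, Real.rpow_one] at h3
      push_cast
      linarith
    have hMM' : M ≤ 2 * K * M := Nat.le_mul_of_pos_left M (by omega)
    refine (hker (2 * K * M) L (Polynomial.C ((2 * K : ℕ) : ℝ) * P) (fun x => 2 * K * f x) (by omega) ?_ ?_ ?_ ?_ ?_ t ?_ ?_).trans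
      (hconc _ hMM')
    · calc (((2 * K * M : ℕ) : ℝ)) ^ μ ≤ (N : ℝ) ^ μ := Real.rpow_le_rpow (Nat.cast_nonneg _) hM'N hμ.le
        _ ≤ 2 * L := by linarith
    · have e : K * (2 * M) = 2 * K * M := by ring
      rw [e] at hLM
      omega
    · exact (natDegree_C_mul_le _ _).trans hP
    · intro x hx
      refine ⟨?_, Nat.mul_le_mul_left _ (hval x hx).1, ?_⟩
      · rw [eval_mul, eval_C, ← (hf x hx).1]
        push_cast; ring
      · calc 2 * K * f x ≤ 2 * K * (2 * M) := Nat.mul_le_mul_left _ (hval x hx).2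
          _ = 2 * (2 * K * M) := by ring
    · refine ⟨x1, hx1, y1, hy1, ?_⟩
      push_cast
      have h1 : 2 * (K : ℝ) * (ω * M) ≤ 2 * K * ((f x1 : ℝ) - f y1) :=
        mul_le_mul_of_nonneg_left hosc' (by positivity)
      linarith
    · linarith
    · refine ht2.trans (hup.trans ?_)
      apply Real.rpow_le_rpow (by positivity) _ (by linarith)
      have : (M : ℝ) ≤ ((2 * K * M : ℕ) : ℝ) := by exact_mod_cast hMM'
      linarith
  · refine (hker M L P f hM1 ?_ hcase hP (fun x hx => ⟨(hf x hx).1, hval x hx⟩) ⟨x1, hx1, y1, hy1, hosc'⟩ t ?_ ?_).trans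
      (hconc _ le_rfl)
    · exact (Real.rpow_le_rpow hM0.le hM2Nr hμ.le).trans hMμ
    · linarith
    · exact ht2.trans hup

end Pool.Agent.U759.PV
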